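import Pool.Agent.TH296.NC.Equi2

set_option autoImplicit false

/-!
# MP_fc4783_an: simultaneous approximation
-/

open Filter Topology Finset
open scoped ComplexConjugate

namespace Pool.Agent.TH296.NC

theorem fr_mono {B' B : ℕ} (hB' : 1 ≤ B') (h : B' ≤ B) (b : ℤ) : fr B' b ≤ fr B b := by
  unfold fr
  apply max_le_max le_rfl
  have h1 : (0 : ℝ) < B' := by exact_mod_cast hB'
  have h2 : (B' : ℝ) ≤ B := by exact_mod_cast h
  have : |(b : ℝ)| / B ≤ |(b : ℝ)| / B' := by gcongr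
  linarith

theorem fr_eq_zero {B : ℕ} (hB : 1 ≤ B) {b : ℤ} (h : (B : ℤ) ≤ |b|) : fr B b = 0 := by
  unfold fr
  apply max_eq_left
  have h1 : (0 : ℝ) < B := by exact_mod_cast hB
  have h2 : (B : ℝ) ≤ |(b : ℝ)| := by exact_mod_cast h
  rw [sub_nonpos, one_le_div h1]
  exact h2

theorem fej_eq_sum {B' B : ℕ} (hB' : 1 ≤ B') (h : B' ≤ B) (z : Circle) :
    (fej B' z : ℂ) = ∑ b ∈ Icc (-((B - 1 : ℕ) : ℤ)) ((B - 1 : ℕ) : ℤ),
      (fr B' b : ℂ) * ((z ^ b : Circle) : ℂ) := by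
  rw [fej_eq_tp hB', tp]
  apply sum_subset_zero_on_sdiff
  · intro b hb; rw [mem_Icc] at hb ⊢; omega
  · intro b hb
    rw [Finset.mem_sdiff, mem_Icc, mem_Icc] at hb
    rw [fr_eq_zero hB', Complex.ofReal_zero, zero_mul]
    rw [le_abs]
    omega
  · intro b _; rfl

theorem Dom_fej {B' B : ℕ} (hB' : 1 ≤ B') (h : B' ≤ B) (z : Circle) (m : ℤ) :
    Dom (fun n => (fej B' (z ^ (n + m)) : ℂ)) (fun n => fej B (z ^ n)) := by
  refine Dom.of_fintype (ι := Icc (-((B - 1 : ℕ) : ℤ)) ((B - 1 : ℕ) : ℤ)) (fun b => z ^ (b : ℤ))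
    (fun b => (fr B' b : ℂ) * (((z ^ (b : ℤ)) ^ m : Circle) : ℂ)) (fun b => fr B b) ?_ ?_ ?_
  · intro b
    rw [norm_mul, Circle.norm_coe, mul_one, Complex.norm_real, Real.norm_of_nonneg (fr_nonneg _ _)]
    exact fr_mono hB' h _
  · intro n
    rw [fej_eq_sum hB' h, ← Finset.sum_coe_sort]
    refine sum_congr rfl fun b _ => ?_
    rw [mul_assoc, ← Circle.coe_mul, ← zpow_add, ← zpow_mul, ← zpow_mul]
    congr 3
    ring
  · intro n
    rw [fej_eq_sum (hB'.trans h) le_rfl, ← Finset.sum_coe_sort]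
    refine sum_congr rfl fun b _ => ?_
    rw [← zpow_mul, ← zpow_mul, mul_comm n]

theorem Dom_WW {B' B : ℕ → ℕ} (hB' : ∀ i, 1 ≤ B' i) (h : ∀ i, B' i ≤ B i) (ζ : ℕ → Circle) (d : ℕ)
    (m : ℤ) : Dom (fun n => (WW ζ B' d (n + m) : ℂ)) (fun n => WW ζ B d n) := by
  have e : (fun n => (WW ζ B' d (n + m) : ℂ)) =
      fun n => ∏ i ∈ range d, (fej (B' i) (ζ i ^ (n + m)) : ℂ) := by
    funext n; unfold WW; rw [Complex.ofReal_prod]
  rw [e]
  exact Dom.prod _ fun i _ => Dom_fej (hB' i) (h i) (ζ i) m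

theorem WW_update (ζ : ℕ → Circle) (B : ℕ → ℕ) {d i : ℕ} (hi : i < d) (n : ℤ) :
    WW ζ B d n = fej (B i) (ζ i ^ n) * WW ζ (Function.update B i 1) d n := by
  unfold WW
  rw [← Finset.mul_prod_erase _ _ (mem_range.mpr hi)]
  rw [← Finset.mul_prod_erase (range d) (fun j => fej (Function.update B i 1 j) (ζ j ^ n))
    (mem_range.mpr hi)]
  rw [Function.update_self, fej_one, one_mul]
  congr 1
  refine prod_congr rfl fun j hj => ?_
  rw [Function.update_of_ne (ne_of_mem_erase hj)]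

theorem update_one_le {B : ℕ → ℕ} (hB : ∀ i, 1 ≤ B i) (i : ℕ) :
    (∀ j, 1 ≤ Function.update B i 1 j) ∧ ∀ j, Function.update B i 1 j ≤ B j := by
  constructor
  · intro j
    rcases eq_or_ne j i with rfl | hj
    · simp
    · rw [Function.update_of_ne hj]; exact hB j
  · intro j
    rcases eq_or_ne j i with rfl | hj
    · simpa using hB j
    · rw [Function.update_of_ne hj]

section

variable {R : ℕ → ℕ} {s : ℕ → ℝ} {ζ : ℕ → Circle} {N : ℕ → ℕ} {σ : ℕ → ℝ}

theorem MM_one (h : Adm R s ζ N σ) {B : ℕ → ℕ} {q : ℕ} (hB1 : ∀ i, 1 ≤ B i)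
    (hB : ∀ i, B i ≤ q * R i) {d : ℕ} (hq : q ≤ d) : |MM ζ N B d 1 - 1| ≤ (4 : ℝ)⁻¹ ^ (d + 1) := by
  have hE : ∀ i, B i - 1 ≤ q * R i := fun i => (Nat.sub_le _ _).trans (hB i)
  have hc : ∀ (i : ℕ) (b : ℤ), ‖fc (B i) b‖ ≤ 1 := fun i b => norm_fc_le _ _
  have h1 := mass_tp h hq hE hc
  have h2 := Av_WW ζ N B hB1 d 1
  have e : (fun n : ℤ => (WW ζ B d n : ℂ) * (((1 : Circle) ^ n : Circle) : ℂ)) =
      fun n : ℤ => ∏ i ∈ range d, tp (B i - 1) (fc (B i)) (ζ i ^ n) := by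
    funext n
    rw [WW_eq_tp ζ B hB1, one_zpow, Circle.coe_one, mul_one]
  rw [e] at h2
  rw [h2] at h1
  have e2 : ∏ i ∈ range d, fc (B i) 0 = 1 := prod_eq_one fun i _ => fc_zero _
  rw [e2] at h1
  have e3 : (MM ζ N B d 1 : ℂ) - 1 = ((MM ζ N B d 1 - 1 : ℝ) : ℂ) := by push_cast; rfl
  rw [e3, Complex.norm_real, Real.norm_eq_abs] at h1
  exact h1

theorem tendsto_four : Tendsto (fun d : ℕ => (4 : ℝ)⁻¹ ^ (d + 1)) atTop (𝓝 0) :=
  (tendsto_pow_atTop_nhds_zero_of_lt_one (by norm_num) (by norm_num)).comp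
    (tendsto_add_atTop_nat 1)

theorem MM_one_tendsto (h : Adm R s ζ N σ) {B : ℕ → ℕ} {q : ℕ} (hB1 : ∀ i, 1 ≤ B i)
    (hB : ∀ i, B i ≤ q * R i) : Tendsto (fun d => MM ζ N B d 1) atTop (𝓝 1) := by
  rw [tendsto_iff_norm_sub_tendsto_zero]
  apply squeeze_zero' (Eventually.of_forall fun _ => norm_nonneg _) _ tendsto_four
  filter_upwards [eventually_ge_atTop q] with d hd
  exact MM_one h hB1 hB hd

theorem AvR_WW_eq (ζ : ℕ → Circle) (N : ℕ → ℕ) {B : ℕ → ℕ} (hB1 : ∀ i, 1 ≤ B i) (d : ℕ) :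
    AvR (N d) (WW ζ B d) = MM ζ N B d 1 := by
  have h2 := Av_WW ζ N B hB1 d 1
  have e : (fun n : ℤ => (WW ζ B d n : ℂ) * (((1 : Circle) ^ n : Circle) : ℂ)) =
      fun n : ℤ => (WW ζ B d n : ℂ) := by
    funext n
    rw [one_zpow, Circle.coe_one, mul_one]
  rw [e, Av_ofReal] at h2
  exact_mod_cast h2

theorem lam_mem_closure (θ : ℕ → Circle) (k : ℕ) (c : ℕ → ℤ) :
    lam θ k c ∈ Subgroup.closure (Set.range fun j : Fin k => θ j) := by
  unfold lam
  apply Subgroup.prod_mem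
  intro i hi
  apply Subgroup.zpow_mem
  apply Subgroup.subset_closure
  exact ⟨⟨i, mem_range.mp hi⟩, rfl⟩

/-- simultaneous approximation of the targets `θ j ^ m₀`, and of `1` by the `ζ i ^ m`, `i ≥ i₁` -/
theorem approx (h : Adm R s ζ N σ) (k : ℕ) (θ : ℕ → Circle) : ∃ i₁ : ℕ, ∀ (m₀ : ℤ) (δ ε : ℝ),
    0 < δ → 0 < ε → ∃ m : ℤ, (∀ i, i₁ ≤ i → ‖((ζ i ^ m : Circle) : ℂ) - 1‖ ≤ ε * s i) ∧
      (∀ j < k, ‖((θ j ^ m : Circle) : ℂ) - ((θ j ^ m₀ : Circle) : ℂ)‖ ≤ δ) := by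
  classical
  obtain ⟨i₁, hi₁⟩ := exists_i0 h (fun j : Fin k => θ j)
  refine ⟨i₁, fun m₀ δ ε hδ hε => ?_⟩
  -- parameters
  obtain ⟨q, hq⟩ := exists_nat_gt (32 / ε ^ 2)
  obtain ⟨Q, hQ⟩ := exists_nat_gt (16 * k / δ ^ 2)
  have hε2 : 0 < ε ^ 2 := by positivity
  have hδ2 : 0 < δ ^ 2 := by positivity
  have hq0 : (0 : ℝ) < q := lt_trans (by positivity) hq
  have hQ0 : (0 : ℝ) < Q := lt_of_le_of_lt (by positivity) hQ
  have hq1 : 1 ≤ q := by exact_mod_cast hq0
  have hQ1 : 1 ≤ Q := by exact_mod_cast hQ0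
  set B : ℕ → ℕ := fun i => if i < i₁ then 1 else q * R i with hBdef
  set C : ℕ → ℕ := fun _ => Q with hCdef
  have hB1 : ∀ i, 1 ≤ B i := by
    intro i; simp only [hBdef]; split_ifs
    · exact le_rfl
    · exact Nat.mul_pos hq1 (h.R_pos i)
  have hBq : ∀ i, B i ≤ q * R i := by
    intro i; simp only [hBdef]; split_ifs
    · exact Nat.mul_pos hq1 (h.R_pos i)
    · exact le_rfl
  have hB0 : ∀ i < i₁, B i = 1 := by intro i hi; simp [hBdef, hi]
  have hC1 : ∀ i, 1 ≤ C i := fun _ => hQ1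
  -- the limit
  set κ : ℝ := ∑ c ∈ box k (fun i => C i - 1), (∏ i ∈ range k, fr (C i) (c i)) *
    (if lam θ k c = 1 then 1 else 0) with hκ
  have hκ1 : 1 ≤ κ := by
    have h1 := single_le_sum (s := box k (fun i => C i - 1)) (f := fun c : ℕ → ℤ =>
      (∏ i ∈ range k, fr (C i) (c i)) * (if lam θ k c = 1 then (1 : ℝ) else 0)) (by
        intro c _
        apply mul_nonneg (prod_nonneg fun _ _ => fr_nonneg _ _)
        split_ifs <;> norm_num) (zero_mem_box k (fun i => C i - 1))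
    have e : (∏ i ∈ range k, fr (C i) ((0 : ℕ → ℤ) i)) * (if lam θ k 0 = 1 then (1 : ℝ) else 0) = 1 := by
      rw [lam_zero, if_pos rfl, mul_one]
      apply prod_eq_one
      intro i _
      simp [fr]
    rw [← e]; exact h1
  have hlim : ∀ m : ℤ, Tendsto (fun d => AvR (N d) (fun n => WW ζ B d n * WW θ C k (n + m))) atTop
      (𝓝 κ) := by
    intro m
    have e1 : ∀ d, ((AvR (N d) (fun n => WW ζ B d n * WW θ C k (n + m)) : ℝ) : ℂ) =
        ∑ c ∈ box k (fun i => C i - 1), (∏ i ∈ range k, fr (C i) (c i) : ℝ) *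
          ((lam θ k c ^ m : Circle) : ℂ) * (MM ζ N B d (lam θ k c) : ℂ) := by
      intro d
      rw [← Av_ofReal]
      have e2 : (fun n : ℤ => ((WW ζ B d n * WW θ C k (n + m) : ℝ) : ℂ)) = fun n : ℤ =>
          ∑ c ∈ box k (fun i => C i - 1), ((∏ i ∈ range k, fr (C i) (c i) : ℝ) *
          ((lam θ k c ^ m : Circle) : ℂ)) * ((WW ζ B d n : ℂ) * ((lam θ k c ^ n : Circle) : ℂ)) := by
        funext n
        rw [Complex.ofReal_mul, WW_eq_tp θ C hC1]
        rw [prod_tp_eq k (fun i => C i - 1) (fun i => fc (C i)) θ (n + m), mul_sum]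
        refine sum_congr rfl fun c _ => ?_
        rw [Complex.ofReal_prod, zpow_add, Circle.coe_mul]
        simp only [fc_eq]
        ring
      rw [e2, Av_sum]
      refine sum_congr rfl fun c _ => ?_
      rw [Av_const_mul, Av_WW ζ N B hB1]
    have e3 : Tendsto (fun d => ∑ c ∈ box k (fun i => C i - 1),
        ((∏ i ∈ range k, fr (C i) (c i) : ℝ) : ℂ) *
          ((lam θ k c ^ m : Circle) : ℂ) * (MM ζ N B d (lam θ k c) : ℂ)) atTop (𝓝 (κ : ℂ)) := by
      rw [hκ, Complex.ofReal_sum]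
      apply tendsto_finsetSum
      intro c _
      by_cases hc : lam θ k c = 1
      · rw [hc]
        simp only [one_zpow, Circle.coe_one, mul_one, if_true]
        have h1 := (Complex.continuous_ofReal.tendsto _).comp (MM_one_tendsto h hB1 hBq)
        have h2 := h1.const_mul ((∏ i ∈ range k, fr (C i) (c i) : ℝ) : ℂ)
        simpa using h2
      · have h1 := hi₁ q B hB1 hBq hB0 (lam θ k c) (lam_mem_closure θ k c) hc
        have h2 := (Complex.continuous_ofReal.tendsto _).comp h1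
        have h3 := h2.const_mul (((∏ i ∈ range k, fr (C i) (c i) : ℝ) : ℂ) *
          ((lam θ k c ^ m : Circle) : ℂ))
        simpa [hc] using h3
    have e4 : Tendsto (fun d => ((AvR (N d) (fun n => WW ζ B d n * WW θ C k (n + m)) : ℝ) : ℂ))
        atTop (𝓝 (κ : ℂ)) := by
      simp only [e1]; exact e3
    exact (Complex.continuous_re.tendsto _).comp e4
  have hlim0 := hlim 0
  have hlimm := hlim (-m₀)
  have hκpos : 0 < κ := by linarith
  have ev1 : ∀ᶠ d in atTop, AvR (N d) (fun n => WW ζ B d n * WW θ C k (n + 0)) < (5 / 4) * κ :=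
    hlim0.eventually_lt_const (by linarith)
  have ev2 : ∀ᶠ d in atTop, (3 / 4) * κ < AvR (N d) (fun n => WW ζ B d n * WW θ C k (n + -m₀)) :=
    hlimm.eventually_const_lt (by linarith)
  have ev3 : ∀ᶠ d : ℕ in atTop, (2 : ℝ)⁻¹ ^ d < ε :=
    (tendsto_pow_atTop_nhds_zero_of_lt_one (by norm_num) (by norm_num)).eventually_lt_const hε
  obtain ⟨d, hd1, hd2, hd3⟩ := (ev1.and (ev2.and ev3)).exists
  set K := AvR (N d) (fun n => WW ζ B d n * WW θ C k (n + 0)) with hK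
  have hK0 : 0 ≤ K := AvR_nonneg fun n => mul_nonneg (WW_nonneg _ _ _ _) (WW_nonneg _ _ _ _)
  -- a good difference
  have hex : ∃ n : ℤ, |n| < N d ∧ (∀ i, i₁ ≤ i → i < d → ‖((ζ i ^ n : Circle) : ℂ) - 1‖ ≤ ε * s i) ∧
      (∀ j < k, ‖((θ j ^ (n + -m₀) : Circle) : ℂ) - 1‖ ≤ δ) := by
    by_contra hcon
    push Not at hcon
    have hpt : ∀ n : ℤ, |n| < N d → 1 ≤ ∑ i ∈ Ico i₁ d, ‖((ζ i ^ n : Circle) : ℂ) - 1‖ ^ 2 /
        (ε * s i) ^ 2 + ∑ j ∈ range k, ‖((θ j ^ (n + -m₀) : Circle) : ℂ) - 1‖ ^ 2 / δ ^ 2 := by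
      intro n hn
      have hs1 : 0 ≤ ∑ i ∈ Ico i₁ d, ‖((ζ i ^ n : Circle) : ℂ) - 1‖ ^ 2 / (ε * s i) ^ 2 :=
        sum_nonneg fun _ _ => by positivity
      have hs2 : 0 ≤ ∑ j ∈ range k, ‖((θ j ^ (n + -m₀) : Circle) : ℂ) - 1‖ ^ 2 / δ ^ 2 :=
        sum_nonneg fun _ _ => by positivity
      by_cases hA : ∀ i, i₁ ≤ i → i < d → ‖((ζ i ^ n : Circle) : ℂ) - 1‖ ≤ ε * s i
      · obtain ⟨j, hj, hlt⟩ := hcon n hn hA
        have h1 : 1 ≤ ‖((θ j ^ (n + -m₀) : Circle) : ℂ) - 1‖ ^ 2 / δ ^ 2 := by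
          rw [one_le_div hδ2]; gcongr
        have h2 := single_le_sum (s := range k) (f := fun j =>
          ‖((θ j ^ (n + -m₀) : Circle) : ℂ) - 1‖ ^ 2 / δ ^ 2) (fun _ _ => by positivity)
          (mem_range.mpr hj)
        linarith
      · push Not at hA
        obtain ⟨i, hi1, hid, hlt⟩ := hA
        have hsi := h.s_pos i
        have h1 : 1 ≤ ‖((ζ i ^ n : Circle) : ℂ) - 1‖ ^ 2 / (ε * s i) ^ 2 := by
          rw [one_le_div (by positivity)]; gcongr
        have h2 := single_le_sum (s := Ico i₁ d) (f := fun i =>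
          ‖((ζ i ^ n : Circle) : ℂ) - 1‖ ^ 2 / (ε * s i) ^ 2) (fun _ _ => by positivity)
          (mem_Ico.mpr ⟨hi1, hid⟩)
        linarith
    set Φ : ℤ → ℝ := fun n => WW ζ B d n * WW θ C k (n + -m₀) with hΦ
    have hΦ0 : ∀ n, 0 ≤ Φ n := fun n => mul_nonneg (WW_nonneg _ _ _ _) (WW_nonneg _ _ _ _)
    have hmain : AvR (N d) Φ ≤ ∑ i ∈ Ico i₁ d, AvR (N d) (fun n => Φ n *
        ‖((ζ i ^ n : Circle) : ℂ) - 1‖ ^ 2) * (1 / (ε * s i) ^ 2) +
        ∑ j ∈ range k, AvR (N d) (fun n => Φ n * ‖((θ j ^ (n + -m₀) : Circle) : ℂ) - 1‖ ^ 2) *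
          (1 / δ ^ 2) := by
      have e1 : AvR (N d) Φ ≤ AvR (N d) (fun n => ∑ i ∈ Ico i₁ d, (1 / (ε * s i) ^ 2) * (Φ n *
        ‖((ζ i ^ n : Circle) : ℂ) - 1‖ ^ 2) + ∑ j ∈ range k, (1 / δ ^ 2) *
          (Φ n * ‖((θ j ^ (n + -m₀) : Circle) : ℂ) - 1‖ ^ 2)) := by
        apply AvR_mono
        intro n hn
        have h1 := mul_le_mul_of_nonneg_left (hpt n hn) (hΦ0 n)
        rw [mul_one, mul_add, mul_sum, mul_sum] at h1
        refine h1.trans (le_of_eq ?_)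
        congr 1
        · refine sum_congr rfl fun i _ => ?_
          ring
        · refine sum_congr rfl fun i _ => ?_
          ring
      refine e1.trans (le_of_eq ?_)
      rw [AvR_add, AvR_sum, AvR_sum]
      congr 1
      · refine sum_congr rfl fun i _ => ?_
        rw [AvR_const_mul, mul_comm]
      · refine sum_congr rfl fun i _ => ?_
        rw [AvR_const_mul, mul_comm]
    have hb1 : ∀ i ∈ Ico i₁ d, AvR (N d) (fun n => Φ n * ‖((ζ i ^ n : Circle) : ℂ) - 1‖ ^ 2) *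
        (1 / (ε * s i) ^ 2) ≤ (4 * K / (q * ε ^ 2)) * (2 : ℝ)⁻¹ ^ i := by
      intro i hi
      rw [mem_Ico] at hi
      have hu := update_one_le hB1 i
      have hsi := h.s_pos i
      have hBi : B i = q * R i := by simp [hBdef, not_lt.mpr hi.1]
      have hBi0 : (0 : ℝ) < B i := by exact_mod_cast hB1 i
      have e1 : AvR (N d) (fun n => Φ n * ‖((ζ i ^ n : Circle) : ℂ) - 1‖ ^ 2) ≤
          AvR (N d) (fun n => (4 / B i) * (WW ζ (Function.update B i 1) d n *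
            WW θ C k (n + -m₀))) := by
        apply AvR_mono'
        intro n
        have h1 := fej_conc (hB1 i) (ζ i ^ n)
        have h2 := WW_nonneg ζ (Function.update B i 1) d n
        have h3 := WW_nonneg θ C k (n + -m₀)
        have h4 := WW_update ζ B hi.2 n
        calc Φ n * ‖((ζ i ^ n : Circle) : ℂ) - 1‖ ^ 2 =
            (fej (B i) (ζ i ^ n) * ‖((ζ i ^ n : Circle) : ℂ) - 1‖ ^ 2) *
              (WW ζ (Function.update B i 1) d n * WW θ C k (n + -m₀)) := by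
              simp only [hΦ]; rw [h4]; ring
          _ ≤ _ := by gcongr
      have e2 : AvR (N d) (fun n => WW ζ (Function.update B i 1) d n * WW θ C k (n + -m₀)) ≤ K := by
        have hD := (Dom_WW hu.1 hu.2 ζ d 0).mul (Dom_WW hC1 (fun _ => le_rfl) θ k (-m₀))
        have hD' : Dom (fun n => ((WW ζ (Function.update B i 1) d n * WW θ C k (n + -m₀) : ℝ) : ℂ))
            (fun n => WW ζ B d n * WW θ C k n) := by
          simpa using hD
        have := hD'.AvR_le (N d)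
        simpa [hK] using this
      rw [AvR_const_mul] at e1
      have e3 : AvR (N d) (fun n => Φ n * ‖((ζ i ^ n : Circle) : ℂ) - 1‖ ^ 2) ≤ (4 / B i) * K :=
        e1.trans (mul_le_mul_of_nonneg_left e2 (by positivity))
      have hRs := h.Rs i
      have hRi : (0 : ℝ) < R i := by exact_mod_cast h.R_pos i
      calc _ ≤ (4 / B i) * K * (1 / (ε * s i) ^ 2) := by gcongr
        _ = (4 * K / (q * ε ^ 2)) * (1 / (R i * s i ^ 2)) := by
          rw [hBi]; push_cast; field_simp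
        _ ≤ (4 * K / (q * ε ^ 2)) * (2 : ℝ)⁻¹ ^ i := by
          apply mul_le_mul_of_nonneg_left _ (by positivity)
          rw [inv_pow, ← one_div]
          apply one_div_le_one_div_of_le (by positivity) hRs
    have hb2 : ∀ j ∈ range k, AvR (N d) (fun n => Φ n *
        ‖((θ j ^ (n + -m₀) : Circle) : ℂ) - 1‖ ^ 2) * (1 / δ ^ 2) ≤ 4 * K / (Q * δ ^ 2) := by
      intro j hj
      have hu := update_one_le hC1 j
      have hCj : C j = Q := rfl
      have e1 : AvR (N d) (fun n => Φ n * ‖((θ j ^ (n + -m₀) : Circle) : ℂ) - 1‖ ^ 2) ≤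
          AvR (N d) (fun n => (4 / Q) * (WW ζ B d n *
            WW θ (Function.update C j 1) k (n + -m₀))) := by
        apply AvR_mono'
        intro n
        have h1 := fej_conc (hC1 j) (θ j ^ (n + -m₀))
        have h2 := WW_nonneg ζ B d n
        have h3 := WW_nonneg θ (Function.update C j 1) k (n + -m₀)
        have h4 := WW_update θ C (mem_range.mp hj) (n + -m₀)
        rw [hCj] at h1 h4
        calc Φ n * ‖((θ j ^ (n + -m₀) : Circle) : ℂ) - 1‖ ^ 2 =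
            (fej Q (θ j ^ (n + -m₀)) * ‖((θ j ^ (n + -m₀) : Circle) : ℂ) - 1‖ ^ 2) *
              (WW ζ B d n * WW θ (Function.update C j 1) k (n + -m₀)) := by
              simp only [hΦ]; rw [h4]; ring
          _ ≤ _ := by gcongr
      have e2 : AvR (N d) (fun n => WW ζ B d n * WW θ (Function.update C j 1) k (n + -m₀)) ≤ K := by
        have hD := (Dom_WW hB1 (fun _ => le_rfl) ζ d 0).mul (Dom_WW hu.1 hu.2 θ k (-m₀))
        have hD' : Dom (fun n => ((WW ζ B d n * WW θ (Function.update C j 1) k (n + -m₀) : ℝ) : ℂ))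
            (fun n => WW ζ B d n * WW θ C k n) := by
          simpa using hD
        have := hD'.AvR_le (N d)
        simpa [hK] using this
      rw [AvR_const_mul] at e1
      have e3 : AvR (N d) (fun n => Φ n * ‖((θ j ^ (n + -m₀) : Circle) : ℂ) - 1‖ ^ 2) ≤ (4 / Q) * K :=
        e1.trans (mul_le_mul_of_nonneg_left e2 (by positivity))
      calc _ ≤ (4 / Q) * K * (1 / δ ^ 2) := by gcongr
        _ = _ := by field_simp
    have hsum1 : ∑ i ∈ Ico i₁ d, (4 * K / (q * ε ^ 2)) * (2 : ℝ)⁻¹ ^ i ≤ (4 * K / (q * ε ^ 2)) * 2 := by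
      rw [← mul_sum]
      apply mul_le_mul_of_nonneg_left _ (by positivity)
      have h1 : ∑ i ∈ Ico i₁ d, (2 : ℝ)⁻¹ ^ i ≤ ∑ i ∈ range d, (2 : ℝ)⁻¹ ^ i := by
        apply sum_le_sum_of_subset_of_nonneg
        · intro i hi; rw [mem_Ico] at hi; rw [mem_range]; exact hi.2
        · intro i _ _; positivity
      have h2 : ∑ i ∈ range d, (2 : ℝ)⁻¹ ^ i ≤ 2 := by
        have := Summable.sum_le_tsum (range d) (fun i _ => by positivity)
          (summable_geometric_of_lt_one (r := (2 : ℝ)⁻¹) (by norm_num) (by norm_num))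
        rw [tsum_geometric_of_lt_one (by norm_num) (by norm_num)] at this
        norm_num at this ⊢
        exact this
      exact h1.trans h2
    have hfin : AvR (N d) Φ ≤ (4 * K / (q * ε ^ 2)) * 2 + k * (4 * K / (Q * δ ^ 2)) := by
      refine hmain.trans (add_le_add ((sum_le_sum hb1).trans hsum1) ?_)
      refine (sum_le_sum hb2).trans ?_
      rw [sum_const, card_range, nsmul_eq_mul]
    have c1 : (4 * K / (q * ε ^ 2)) * 2 ≤ K / 4 := by
      rw [div_mul_eq_mul_div, div_le_div_iff₀ (by positivity) (by norm_num)]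
      have : 32 < q * ε ^ 2 := by rwa [div_lt_iff₀ hε2] at hq
      nlinarith
    have c2 : k * (4 * K / (Q * δ ^ 2)) ≤ K / 4 := by
      rw [mul_div_assoc', div_le_div_iff₀ (by positivity) (by norm_num)]
      have : 16 * k < Q * δ ^ 2 := by rwa [div_lt_iff₀ hδ2] at hQ
      nlinarith
    have hd2' : (3 / 4) * κ < AvR (N d) Φ := hd2
    linarith
  obtain ⟨n, hn, hA, hC⟩ := hex
  refine ⟨n, fun i hi => ?_, fun j hj => ?_⟩
  · by_cases hid : i < d
    · exact hA i hi hid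
    · push Not at hid
      have h1 := norm_zpow_sub_one_le (ζ i) n
      have h2 : |(n : ℝ)| ≤ N i := by
        have e1 : |(n : ℝ)| ≤ N d := by exact_mod_cast hn.le
        have e2 : (N d : ℝ) ≤ N i := by exact_mod_cast h.N_mono hid
        linarith
      have h3 := N_zeta h i
      have h4 : (2 : ℝ)⁻¹ ^ i ≤ (2 : ℝ)⁻¹ ^ d :=
        pow_le_pow_of_le_one (by norm_num) (by norm_num) hid
      have hsi := h.s_pos i
      calc ‖((ζ i ^ n : Circle) : ℂ) - 1‖ ≤ |(n : ℝ)| * ‖((ζ i : Circle) : ℂ) - 1‖ := h1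
        _ ≤ N i * ‖((ζ i : Circle) : ℂ) - 1‖ := by gcongr
        _ ≤ (2 : ℝ)⁻¹ ^ i * s i := h3
        _ ≤ ε * s i := by
          apply mul_le_mul_of_nonneg_right _ hsi.le
          linarith
  · have h1 := hC j hj
    have e : ((θ j ^ n : Circle) : ℂ) - ((θ j ^ m₀ : Circle) : ℂ) =
        (((θ j ^ (n + -m₀) : Circle) : ℂ) - 1) * ((θ j ^ m₀ : Circle) : ℂ) := by
      rw [sub_mul, one_mul, ← Circle.coe_mul, ← zpow_add]
      congr 3
      ring
    rw [e, norm_mul, Circle.norm_coe, mul_one]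
    exact h1

end

end Pool.Agent.TH296.NC
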