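import Pool.Agent.TH296.NC.Defs

set_option autoImplicit false

/-!
# MP_fc4783_an: averages, kernels, domination
-/

open Filter Topology Finset
open scoped ComplexConjugate

namespace Pool.Agent.TH296.NC

/-! ### Averages -/

/-- real version of `Av` -/
noncomputable def AvR (N : ℕ) (Ψ : ℤ → ℝ) : ℝ :=
  (∑ j ∈ range N, ∑ k ∈ range N, Ψ ((j : ℤ) - (k : ℤ))) / (N : ℝ) ^ 2

theorem Av_ofReal (N : ℕ) (Ψ : ℤ → ℝ) : Av N (fun n => (Ψ n : ℂ)) = (AvR N Ψ : ℂ) := by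
  unfold Av AvR
  push_cast
  rfl

theorem Av_add (N : ℕ) (Φ Ψ : ℤ → ℂ) : Av N (fun n => Φ n + Ψ n) = Av N Φ + Av N Ψ := by
  unfold Av
  simp only [sum_add_distrib, add_div]

theorem Av_sub (N : ℕ) (Φ Ψ : ℤ → ℂ) : Av N (fun n => Φ n - Ψ n) = Av N Φ - Av N Ψ := by
  unfold Av
  simp only [sum_sub_distrib, sub_div]

theorem Av_const_mul (N : ℕ) (c : ℂ) (Ψ : ℤ → ℂ) : Av N (fun n => c * Ψ n) = c * Av N Ψ := by
  unfold Av
  simp only [← mul_sum, mul_div_assoc]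

theorem Av_sum {ι : Type*} (S : Finset ι) (N : ℕ) (Φ : ι → ℤ → ℂ) :
    Av N (fun n => ∑ i ∈ S, Φ i n) = ∑ i ∈ S, Av N (Φ i) := by
  classical
  induction S using Finset.induction_on with
  | empty => simp [Av]
  | insert a S ha ih =>
    simp only [sum_insert ha]
    rw [Av_add, ih]

theorem AvR_add (N : ℕ) (Φ Ψ : ℤ → ℝ) : AvR N (fun n => Φ n + Ψ n) = AvR N Φ + AvR N Ψ := by
  unfold AvR
  simp only [sum_add_distrib, add_div]

theorem AvR_sub (N : ℕ) (Φ Ψ : ℤ → ℝ) : AvR N (fun n => Φ n - Ψ n) = AvR N Φ - AvR N Ψ := by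
  unfold AvR
  simp only [sum_sub_distrib, sub_div]

theorem AvR_const_mul (N : ℕ) (c : ℝ) (Ψ : ℤ → ℝ) : AvR N (fun n => c * Ψ n) = c * AvR N Ψ := by
  unfold AvR
  simp only [← mul_sum, mul_div_assoc]

theorem AvR_sum {ι : Type*} (S : Finset ι) (N : ℕ) (Φ : ι → ℤ → ℝ) :
    AvR N (fun n => ∑ i ∈ S, Φ i n) = ∑ i ∈ S, AvR N (Φ i) := by
  classical
  induction S using Finset.induction_on with
  | empty => simp [AvR]
  | insert a S ha ih =>
    simp only [sum_insert ha]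
    rw [AvR_add, ih]

theorem AvR_mono {N : ℕ} {Φ Ψ : ℤ → ℝ} (h : ∀ n : ℤ, |n| < N → Φ n ≤ Ψ n) :
    AvR N Φ ≤ AvR N Ψ := by
  unfold AvR
  apply div_le_div_of_nonneg_right _ (by positivity)
  apply sum_le_sum; intro j hj
  apply sum_le_sum; intro k hk
  apply h
  rw [mem_range] at hj hk
  rw [abs_lt]; omega

theorem AvR_mono' {N : ℕ} {Φ Ψ : ℤ → ℝ} (h : ∀ n : ℤ, Φ n ≤ Ψ n) : AvR N Φ ≤ AvR N Ψ :=
  AvR_mono fun n _ => h n

theorem AvR_nonneg {N : ℕ} {Φ : ℤ → ℝ} (h : ∀ n : ℤ, 0 ≤ Φ n) : 0 ≤ AvR N Φ := by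
  unfold AvR
  apply div_nonneg _ (by positivity)
  exact sum_nonneg fun j _ => sum_nonneg fun k _ => h _

theorem norm_Av_le (N : ℕ) (Ψ : ℤ → ℂ) : ‖Av N Ψ‖ ≤ AvR N (fun n => ‖Ψ n‖) := by
  unfold Av AvR
  rw [norm_div, norm_pow, Complex.norm_natCast]
  apply div_le_div_of_nonneg_right _ (by positivity)
  refine (norm_sum_le _ _).trans (sum_le_sum fun j _ => ?_)
  exact norm_sum_le _ _

theorem norm_Av_le_of_le {N : ℕ} {Ψ : ℤ → ℂ} {Φ : ℤ → ℝ} (h : ∀ n : ℤ, |n| < N → ‖Ψ n‖ ≤ Φ n) :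
    ‖Av N Ψ‖ ≤ AvR N Φ :=
  (norm_Av_le N Ψ).trans (AvR_mono h)

theorem norm_Av_le_of_le' {N : ℕ} {Ψ : ℤ → ℂ} {Φ : ℤ → ℝ} (h : ∀ n : ℤ, ‖Ψ n‖ ≤ Φ n) :
    ‖Av N Ψ‖ ≤ AvR N Φ :=
  norm_Av_le_of_le fun n _ => h n

theorem AvR_congr {N : ℕ} {Φ Ψ : ℤ → ℝ} (h : ∀ n : ℤ, Φ n = Ψ n) : AvR N Φ = AvR N Ψ := by
  have : Φ = Ψ := funext h
  rw [this]

theorem AvR_cauchy (N : ℕ) (W S : ℤ → ℝ) (hW : ∀ n, 0 ≤ W n) :
    AvR N (fun n => W n * S n) ^ 2 ≤ AvR N W * AvR N (fun n => W n * S n ^ 2) := by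
  unfold AvR
  simp only [← Finset.sum_product']
  have h := Finset.sum_mul_sq_le_sq_mul_sq (range N ×ˢ range N)
    (fun p => Real.sqrt (W ((p.1 : ℤ) - p.2))) (fun p => Real.sqrt (W ((p.1 : ℤ) - p.2)) *
      S ((p.1 : ℤ) - p.2))
  have e1 : ∀ p : ℕ × ℕ, Real.sqrt (W ((p.1 : ℤ) - p.2)) * (Real.sqrt (W ((p.1 : ℤ) - p.2)) *
      S ((p.1 : ℤ) - p.2)) = W ((p.1 : ℤ) - p.2) * S ((p.1 : ℤ) - p.2) := by
    intro p; rw [← mul_assoc, Real.mul_self_sqrt (hW _)]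
  have e2 : ∀ p : ℕ × ℕ, Real.sqrt (W ((p.1 : ℤ) - p.2)) ^ 2 = W ((p.1 : ℤ) - p.2) := by
    intro p; rw [Real.sq_sqrt (hW _)]
  have e3 : ∀ p : ℕ × ℕ, (Real.sqrt (W ((p.1 : ℤ) - p.2)) *
      S ((p.1 : ℤ) - p.2)) ^ 2 = W ((p.1 : ℤ) - p.2) * S ((p.1 : ℤ) - p.2) ^ 2 := by
    intro p; rw [mul_pow, Real.sq_sqrt (hW _)]
  simp only [e1, e2, e3] at h
  rw [div_pow, div_mul_div_comm, ← sq]
  exact div_le_div_of_nonneg_right h (by positivity)

/-! ### The kernel `FN` -/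

/-- `FN N w = |(1/N) ∑_{j<N} w^j|^2` -/
noncomputable def FN (N : ℕ) (w : Circle) : ℝ := ‖∑ j ∈ range N, (w : ℂ) ^ j‖ ^ 2 / (N : ℝ) ^ 2

theorem Circle.coe_zpow_sub (w : Circle) (j k : ℕ) :
    ((w ^ ((j : ℤ) - k) : Circle) : ℂ) = (w : ℂ) ^ j * conj ((w : ℂ) ^ k) := by
  rw [zpow_sub, zpow_natCast, zpow_natCast]
  rw [Circle.coe_mul, Circle.coe_inv_eq_conj, Circle.coe_pow, Circle.coe_pow]

theorem Av_pow (N : ℕ) (w : Circle) : Av N (fun n => ((w ^ n : Circle) : ℂ)) = FN N w := by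
  unfold Av FN
  simp only [Circle.coe_zpow_sub]
  simp only [← mul_sum, ← sum_mul]
  rw [← map_sum, Complex.mul_conj, Complex.normSq_eq_norm_sq]
  push_cast; rfl

theorem FN_nonneg (N : ℕ) (w : Circle) : 0 ≤ FN N w := by unfold FN; positivity

theorem FN_one {N : ℕ} (hN : 1 ≤ N) : FN N 1 = 1 := by
  unfold FN
  have : (N : ℝ) ≠ 0 := by positivity
  simp [this]

theorem norm_geom_le (N : ℕ) (w : Circle) : ‖∑ j ∈ range N, (w : ℂ) ^ j‖ ≤ N := by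
  refine (norm_sum_le _ _).trans ?_
  simp [Circle.norm_coe]

theorem FN_le_one (N : ℕ) (w : Circle) : FN N w ≤ 1 := by
  unfold FN
  have h := norm_geom_le N w
  apply div_le_one_of_le₀ _ (by positivity)
  gcongr

theorem norm_geom_mul (N : ℕ) (w : Circle) :
    ‖∑ j ∈ range N, (w : ℂ) ^ j‖ * ‖(w : ℂ) - 1‖ ≤ 2 := by
  rw [← norm_mul, geom_sum_mul]
  refine (norm_sub_le _ _).trans ?_
  rw [norm_pow, Circle.norm_coe]
  norm_num

theorem geom_le {N : ℕ} {w : Circle} {t : ℝ} (ht : 0 < t) (hw : t ≤ ‖(w : ℂ) - 1‖) :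
    ‖∑ j ∈ range N, (w : ℂ) ^ j‖ ≤ 2 / t := by
  rw [le_div_iff₀ ht]
  have := norm_geom_mul N w
  have h0 := norm_nonneg (∑ j ∈ range N, (w : ℂ) ^ j)
  nlinarith

theorem FN_le {N : ℕ} {w : Circle} {t : ℝ} (ht : 0 < t) (hw : t ≤ ‖(w : ℂ) - 1‖) :
    FN N w ≤ (2 / (N * t)) ^ 2 := by
  unfold FN
  rw [← div_pow]
  have := geom_le (N := N) ht hw
  have h2 : ‖∑ j ∈ range N, (w : ℂ) ^ j‖ / N ≤ 2 / (N * t) := by
    rw [mul_comm, ← div_div]
    gcongr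
  gcongr

theorem norm_pow_sub_one_le (w : Circle) (j : ℕ) : ‖(w : ℂ) ^ j - 1‖ ≤ j * ‖(w : ℂ) - 1‖ := by
  induction j with
  | zero => simp
  | succ n ih =>
    have : (w : ℂ) ^ (n + 1) - 1 = (w : ℂ) ^ n * ((w : ℂ) - 1) + ((w : ℂ) ^ n - 1) := by ring
    rw [this]
    refine (norm_add_le _ _).trans ?_
    rw [norm_mul]
    simp only [norm_pow, Circle.norm_coe, one_pow, one_mul]
    push_cast
    linarith

theorem norm_zpow_sub_one_le (w : Circle) (n : ℤ) :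
    ‖((w ^ n : Circle) : ℂ) - 1‖ ≤ |(n : ℝ)| * ‖(w : ℂ) - 1‖ := by
  obtain ⟨k, rfl | rfl⟩ := n.eq_nat_or_neg
  · rw [zpow_natCast, Circle.coe_pow]
    simpa using norm_pow_sub_one_le w k
  · rw [zpow_neg, zpow_natCast, Circle.coe_inv_eq_conj, Circle.coe_pow]
    have : conj ((w : ℂ) ^ k) - 1 = conj ((w : ℂ) ^ k - 1) := by simp
    rw [this, Complex.norm_conj]
    simpa using norm_pow_sub_one_le w k

theorem FN_ge (N : ℕ) (hN : 1 ≤ N) (w : Circle) : 1 - 2 * (N * ‖(w : ℂ) - 1‖) ≤ FN N w := by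
  have hN0 : (0 : ℝ) < N := by positivity
  set t := ‖(w : ℂ) - 1‖ with ht
  have h1 : ‖∑ j ∈ range N, ((w : ℂ) ^ j - 1)‖ ≤ N * (N * t) := by
    refine (norm_sum_le _ _).trans ?_
    have : ∀ j ∈ range N, ‖(w : ℂ) ^ j - 1‖ ≤ N * t := by
      intro j hj
      refine (norm_pow_sub_one_le w j).trans ?_
      have : (j : ℝ) ≤ N := by exact_mod_cast (mem_range.mp hj).le
      gcongr
    refine (sum_le_sum this).trans ?_
    simp
  have h2 : (N : ℝ) - N * (N * t) ≤ ‖∑ j ∈ range N, (w : ℂ) ^ j‖ := by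
    have e : (∑ j ∈ range N, (w : ℂ) ^ j) = (N : ℂ) + ∑ j ∈ range N, ((w : ℂ) ^ j - 1) := by
      rw [sum_sub_distrib]; simp
    rw [e]
    have := norm_sub_norm_le (N : ℂ) (-(∑ j ∈ range N, ((w : ℂ) ^ j - 1)))
    rw [norm_neg, sub_neg_eq_add, Complex.norm_natCast] at this
    linarith
  have h3 : 1 - N * t ≤ ‖∑ j ∈ range N, (w : ℂ) ^ j‖ / N := by
    rw [le_div_iff₀ hN0]; linarith
  unfold FN
  rw [← div_pow]
  have h4 : 0 ≤ ‖∑ j ∈ range N, (w : ℂ) ^ j‖ / N := by positivity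
  by_cases h5 : 1 - N * t ≤ 0
  · have : 0 ≤ (‖∑ j ∈ range N, (w : ℂ) ^ j‖ / N) ^ 2 := by positivity
    have h6 : (1:ℝ) - 2 * (N * t) ≤ 0 := by linarith
    linarith
  · push Not at h5
    have : (1 - N * t) ^ 2 ≤ (‖∑ j ∈ range N, (w : ℂ) ^ j‖ / N) ^ 2 := by gcongr
    nlinarith [sq_nonneg ((N:ℝ) * t)]

/-! ### Domination -/

/-- `Φ` and `Ψ` are finite combinations of the same characters of the integers, and the
coefficients of `Φ` are dominated by those of `Ψ` -/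
def Dom (Φ : ℤ → ℂ) (Ψ : ℤ → ℝ) : Prop :=
  ∃ (n : ℕ) (w : Fin n → Circle) (c : Fin n → ℂ) (C : Fin n → ℝ), (∀ l, ‖c l‖ ≤ C l) ∧
    (∀ m : ℤ, Φ m = ∑ l, c l * ((w l ^ m : Circle) : ℂ)) ∧
    (∀ m : ℤ, (Ψ m : ℂ) = ∑ l, (C l : ℂ) * ((w l ^ m : Circle) : ℂ))

theorem Dom.of_fintype {ι : Type*} [Fintype ι] {Φ : ℤ → ℂ} {Ψ : ℤ → ℝ} (w : ι → Circle)
    (c : ι → ℂ) (C : ι → ℝ) (h : ∀ l, ‖c l‖ ≤ C l)
    (h1 : ∀ m : ℤ, Φ m = ∑ l, c l * ((w l ^ m : Circle) : ℂ))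
    (h2 : ∀ m : ℤ, (Ψ m : ℂ) = ∑ l, (C l : ℂ) * ((w l ^ m : Circle) : ℂ)) : Dom Φ Ψ := by
  let e := (Fintype.equivFin ι).symm
  refine ⟨Fintype.card ι, w ∘ e, c ∘ e, C ∘ e, fun l => h _, fun m => ?_, fun m => ?_⟩
  · rw [h1 m]; exact (Equiv.sum_comp e (fun l => c l * ((w l ^ m : Circle) : ℂ))).symm
  · rw [h2 m]; exact (Equiv.sum_comp e (fun l => (C l : ℂ) * ((w l ^ m : Circle) : ℂ))).symm

theorem Dom.mul {Φ Φ' : ℤ → ℂ} {Ψ Ψ' : ℤ → ℝ} (h : Dom Φ Ψ) (h' : Dom Φ' Ψ') :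
    Dom (fun n => Φ n * Φ' n) (fun n => Ψ n * Ψ' n) := by
  obtain ⟨n, w, c, C, h0, h1, h2⟩ := h
  obtain ⟨n', w', c', C', h0', h1', h2'⟩ := h'
  refine Dom.of_fintype (ι := Fin n × Fin n') (fun p => w p.1 * w' p.2) (fun p => c p.1 * c' p.2)
    (fun p => C p.1 * C' p.2) ?_ ?_ ?_
  · rintro ⟨l, l'⟩
    simp only
    rw [norm_mul]
    exact mul_le_mul (h0 l) (h0' l') (norm_nonneg _) ((norm_nonneg _).trans (h0 l))
  · intro m
    rw [h1, h1', Finset.sum_mul_sum, ← Finset.univ_product_univ, Finset.sum_product]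
    refine sum_congr rfl fun l _ => sum_congr rfl fun l' _ => ?_
    rw [mul_zpow, Circle.coe_mul]; ring
  · intro m
    rw [Complex.ofReal_mul, h2, h2', Finset.sum_mul_sum, ← Finset.univ_product_univ,
      Finset.sum_product]
    refine sum_congr rfl fun l _ => sum_congr rfl fun l' _ => ?_
    rw [mul_zpow, Circle.coe_mul, Complex.ofReal_mul]; ring

theorem Dom.one : Dom (fun _ => 1) (fun _ => 1) :=
  Dom.of_fintype (ι := Unit) (fun _ => 1) (fun _ => 1) (fun _ => 1) (by simp) (by simp) (by simp)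

theorem Dom.prod {ι : Type*} (S : Finset ι) {Φ : ι → ℤ → ℂ} {Ψ : ι → ℤ → ℝ}
    (h : ∀ i ∈ S, Dom (Φ i) (Ψ i)) : Dom (fun n => ∏ i ∈ S, Φ i n) (fun n => ∏ i ∈ S, Ψ i n) := by
  classical
  induction S using Finset.induction_on with
  | empty => simpa using Dom.one
  | insert a S ha ih =>
    simp only [prod_insert ha]
    exact (h a (mem_insert_self a S)).mul (ih fun i hi => h i (mem_insert_of_mem hi))

theorem Dom.norm_Av_le {Φ : ℤ → ℂ} {Ψ : ℤ → ℝ} (h : Dom Φ Ψ) (N : ℕ) : ‖Av N Φ‖ ≤ AvR N Ψ := by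
  obtain ⟨n, w, c, C, h0, h1, h2⟩ := h
  have e1 : Av N Φ = ∑ l, c l * FN N (w l) := by
    have : Φ = fun m => ∑ l, c l * ((w l ^ m : Circle) : ℂ) := funext h1
    rw [this, Av_sum]
    refine sum_congr rfl fun l _ => ?_
    rw [Av_const_mul, Av_pow]
  have e2 : (AvR N Ψ : ℂ) = ∑ l, (C l : ℂ) * FN N (w l) := by
    rw [← Av_ofReal]
    have : (fun m => (Ψ m : ℂ)) = fun m => ∑ l, (C l : ℂ) * ((w l ^ m : Circle) : ℂ) := funext h2
    rw [this, Av_sum]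
    refine sum_congr rfl fun l _ => ?_
    rw [Av_const_mul, Av_pow]
  have e3 : AvR N Ψ = ∑ l, C l * FN N (w l) := by exact_mod_cast e2
  rw [e1, e3]
  refine (norm_sum_le _ _).trans (sum_le_sum fun l _ => ?_)
  rw [norm_mul, Complex.norm_real, Real.norm_of_nonneg (FN_nonneg _ _)]
  exact mul_le_mul_of_nonneg_right (h0 l) (FN_nonneg _ _)

theorem Dom.AvR_nonneg {Φ : ℤ → ℂ} {Ψ : ℤ → ℝ} (h : Dom Φ Ψ) (N : ℕ) : 0 ≤ AvR N Ψ :=
  (norm_nonneg _).trans (h.norm_Av_le N)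

theorem Dom.AvR_le {Φ Ψ : ℤ → ℝ} (h : Dom (fun n => (Φ n : ℂ)) Ψ) (N : ℕ) :
    AvR N Φ ≤ AvR N Ψ := by
  have := h.norm_Av_le N
  rw [Av_ofReal, Complex.norm_real] at this
  exact (le_abs_self _).trans this

/-- multiplication by a character in both members, keeping the domination -/
theorem Dom.mul_self_char {Φ : ℤ → ℂ} {Ψ : ℤ → ℝ} (h : Dom Φ Ψ) (z : Circle) (N : ℕ) :
    ‖Av N (fun n => Φ n * ((z ^ n : Circle) : ℂ))‖ ≤
      ‖Av N (fun n => (Ψ n : ℂ) * ((z ^ n : Circle) : ℂ))‖ := by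
  obtain ⟨n, w, c, C, h0, h1, h2⟩ := h
  have e1 : Av N (fun n => Φ n * ((z ^ n : Circle) : ℂ)) = ∑ l, c l * FN N (w l * z) := by
    have : (fun n => Φ n * ((z ^ n : Circle) : ℂ)) =
        fun m => ∑ l, c l * (((w l * z) ^ m : Circle) : ℂ) := by
      funext m
      rw [h1, sum_mul]
      refine sum_congr rfl fun l _ => ?_
      rw [mul_zpow, Circle.coe_mul]; ring
    rw [this, Av_sum]
    refine sum_congr rfl fun l _ => ?_
    rw [Av_const_mul, Av_pow]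
  have e2 : Av N (fun n => (Ψ n : ℂ) * ((z ^ n : Circle) : ℂ)) =
      ((∑ l, C l * FN N (w l * z) : ℝ) : ℂ) := by
    have : (fun n => (Ψ n : ℂ) * ((z ^ n : Circle) : ℂ)) =
        fun m => ∑ l, (C l : ℂ) * (((w l * z) ^ m : Circle) : ℂ) := by
      funext m
      rw [h2, sum_mul]
      refine sum_congr rfl fun l _ => ?_
      rw [mul_zpow, Circle.coe_mul]; ring
    rw [this, Av_sum, Complex.ofReal_sum]
    refine sum_congr rfl fun l _ => ?_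
    rw [Av_const_mul, Av_pow, Complex.ofReal_mul]
  rw [e1, e2, Complex.norm_real]
  refine (norm_sum_le _ _).trans (le_trans (sum_le_sum fun l _ => ?_) (le_abs_self _))
  rw [norm_mul, Complex.norm_real, Real.norm_of_nonneg (FN_nonneg _ _)]
  exact mul_le_mul_of_nonneg_right (h0 l) (FN_nonneg _ _)

/-! ### Fejer kernels -/

theorem fej_nonneg (B : ℕ) (z : Circle) : 0 ≤ fej B z := by unfold fej; positivity

theorem fej_one (z : Circle) : fej 1 z = 1 := by simp [fej]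

theorem fej_le (B : ℕ) (z : Circle) : fej B z ≤ B := by
  unfold fej
  rcases Nat.eq_zero_or_pos B with rfl | hB
  · simp
  · have h := norm_geom_le B z
    rw [div_le_iff₀ (by positivity), ← sq]
    gcongr

theorem fej_conc {B : ℕ} (hB : 1 ≤ B) (z : Circle) : fej B z * ‖(z : ℂ) - 1‖ ^ 2 ≤ 4 / B := by
  unfold fej
  have h := norm_geom_mul B z
  have hB0 : (0 : ℝ) < B := by positivity
  rw [div_mul_eq_mul_div, ← mul_pow]
  gcongr
  calc (‖∑ j ∈ range B, (z : ℂ) ^ j‖ * ‖(z : ℂ) - 1‖) ^ 2 ≤ 2 ^ 2 := by gcongr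
    _ = 4 := by norm_num

/-- counting differences -/
theorem sum_diff {M : Type*} [AddCommGroup M] [Module ℝ M] (N : ℕ) (f : ℤ → M) :
    ∑ j ∈ range N, ∑ k ∈ range N, f ((j : ℤ) - k) =
      ∑ b ∈ Icc (-(N : ℤ)) N, ((N : ℝ) - |(b : ℝ)|) • f b := by
  induction N with
  | zero => simp
  | succ n ih =>
    have e1 : ∑ j ∈ range (n + 1), ∑ k ∈ range (n + 1), f ((j : ℤ) - k) =
        ∑ j ∈ range n, ∑ k ∈ range n, f ((j : ℤ) - k) + (∑ j ∈ range (n + 1), f ((j : ℤ) - n) +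
          ∑ k ∈ range n, f ((n : ℤ) - k)) := by
      rw [sum_range_succ]
      have : ∀ j : ℕ, ∑ k ∈ range (n + 1), f ((j : ℤ) - k) =
          ∑ k ∈ range n, f ((j : ℤ) - k) + f ((j : ℤ) - n) := fun j => sum_range_succ _ _
      simp only [this, sum_add_distrib]
      rw [sum_range_succ (fun j : ℕ => f ((j : ℤ) - n))]
      abel
    have e2 : ∑ j ∈ range (n + 1), f ((j : ℤ) - n) + ∑ k ∈ range n, f ((n : ℤ) - k) =
        ∑ b ∈ Icc (-(n : ℤ)) n, f b := by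
      have h1 : ∑ j ∈ range (n + 1), f ((j : ℤ) - n) = ∑ b ∈ Icc (-(n : ℤ)) 0, f b := by
        refine sum_bij (fun j _ => (j : ℤ) - n) ?_ ?_ ?_ ?_
        · intro j hj; rw [mem_range] at hj; rw [mem_Icc]; omega
        · intro a _ b _ h; omega
        · intro b hb; rw [mem_Icc] at hb
          refine ⟨(b + n).toNat, ?_, ?_⟩
          · rw [mem_range]; omega
          · omega
        · intro j _; rfl
      have h2 : ∑ k ∈ range n, f ((n : ℤ) - k) = ∑ b ∈ Icc (1 : ℤ) n, f b := by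
        refine sum_bij (fun k _ => (n : ℤ) - k) ?_ ?_ ?_ ?_
        · intro j hj; rw [mem_range] at hj; rw [mem_Icc]; omega
        · intro a ha b hb h; omega
        · intro b hb; rw [mem_Icc] at hb
          refine ⟨(n - b).toNat, ?_, ?_⟩
          · rw [mem_range]; omega
          · omega
        · intro j _; rfl
      rw [h1, h2, ← sum_union]
      · congr 1
        ext b; simp only [mem_union, mem_Icc]; omega
      · rw [disjoint_left]; intro b hb hb'; rw [mem_Icc] at hb hb'; omega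
    have e3 : ∑ b ∈ Icc (-((n + 1 : ℕ) : ℤ)) ((n + 1 : ℕ) : ℤ), (((n + 1 : ℕ) : ℝ) - |(b : ℝ)|) • f b =
        ∑ b ∈ Icc (-(n : ℤ)) n, (((n + 1 : ℕ) : ℝ) - |(b : ℝ)|) • f b := by
      symm
      apply sum_subset
      · intro b hb; rw [mem_Icc] at hb ⊢; push_cast; omega
      · intro b hb hb'
        rw [mem_Icc] at hb hb'
        have : b = n + 1 ∨ b = -(n + 1) := by push_cast at hb; omega
        have hab : |(b : ℝ)| = ((n + 1 : ℕ) : ℝ) := by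
          rcases this with rfl | rfl
          · push_cast; rw [abs_of_nonneg (by positivity)]
          · push_cast; rw [abs_neg, abs_of_nonneg (by positivity)]
        rw [hab, sub_self, zero_smul]
    rw [e1, ih, e2, e3, ← sum_add_distrib]
    refine sum_congr rfl fun b _ => ?_
    push_cast
    have : ((n : ℝ) + 1 - |(b : ℝ)|) = ((n : ℝ) - |(b : ℝ)|) + 1 := by ring
    rw [this, add_smul, one_smul]

theorem fej_eq_tp {B : ℕ} (hB : 1 ≤ B) (z : Circle) : (fej B z : ℂ) = tp (B - 1) (fc B) z := by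
  have hB0 : (B : ℂ) ≠ 0 := by exact_mod_cast (by omega : B ≠ 0)
  have hBr : (0 : ℝ) < B := by exact_mod_cast hB
  have h1 : (fej B z : ℂ) = (∑ j ∈ range B, ∑ k ∈ range B, ((z ^ ((j : ℤ) - k) : Circle) : ℂ)) / B := by
    unfold fej
    simp only [Circle.coe_zpow_sub]
    simp only [← mul_sum, ← sum_mul]
    rw [← map_sum, Complex.mul_conj, Complex.normSq_eq_norm_sq]
    push_cast; rfl
  rw [h1, sum_diff B (fun b => ((z ^ b : Circle) : ℂ))]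
  have h2 : ∑ b ∈ Icc (-(B : ℤ)) B, ((B : ℝ) - |(b : ℝ)|) • ((z ^ b : Circle) : ℂ) =
      ∑ b ∈ Icc (-((B - 1 : ℕ) : ℤ)) ((B - 1 : ℕ) : ℤ), ((B : ℝ) - |(b : ℝ)|) • ((z ^ b : Circle) : ℂ) := by
    symm
    apply sum_subset
    · intro b hb; rw [mem_Icc] at hb ⊢; omega
    · intro b hb hb'
      rw [mem_Icc] at hb hb'
      have : b = B ∨ b = -B := by omega
      have hab : |(b : ℝ)| = (B : ℝ) := by
        rcases this with rfl | rfl
        · push_cast; rw [abs_of_nonneg (by positivity)]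
        · push_cast; rw [abs_neg, abs_of_nonneg (by positivity)]
      rw [hab, sub_self, zero_smul]
  rw [h2, tp, sum_div]
  refine sum_congr rfl fun b hb => ?_
  rw [mem_Icc] at hb
  have hb1 : |(b : ℝ)| ≤ B := by
    rw [abs_le]
    constructor
    · have : -(B : ℤ) ≤ b := by omega
      exact_mod_cast this
    · have : b ≤ (B : ℤ) := by omega
      exact_mod_cast this
  have hpos : (0 : ℝ) ≤ 1 - |(b : ℝ)| / B := by
    rw [sub_nonneg, div_le_one hBr]; exact hb1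
  unfold fc
  rw [max_eq_right hpos]
  rw [Complex.real_smul]
  push_cast
  field_simp

theorem fc_nonneg (B : ℕ) (b : ℤ) : ∃ r : ℝ, 0 ≤ r ∧ r ≤ 1 ∧ fc B b = (r : ℂ) := by
  refine ⟨max 0 (1 - |(b : ℝ)| / B), le_max_left _ _, ?_, rfl⟩
  apply max_le (by norm_num)
  have : 0 ≤ |(b : ℝ)| / B := by positivity
  linarith

theorem norm_fc_le (B : ℕ) (b : ℤ) : ‖fc B b‖ ≤ 1 := by
  obtain ⟨r, h0, h1, h2⟩ := fc_nonneg B b
  rw [h2, Complex.norm_real, Real.norm_of_nonneg h0]; exact h1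

theorem fc_zero (B : ℕ) : fc B 0 = 1 := by simp [fc]

end Pool.Agent.TH296.NC
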