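import Pool.Agent.TH296.NC.LemX

set_option autoImplicit false

/-!
# MP_fc4783_an: decorrelation from oscillating sequences
-/

open Filter Topology Finset
open scoped ComplexConjugate

namespace Pool.Agent.TH296.NC

/-! ### Shifting averages -/

theorem Av_shift_nat (N : ℕ) (Ψ : ℤ → ℂ) (M : ℝ)
    (hM : ∀ j : ℤ, ∑ k ∈ range N, ‖Ψ (j - k)‖ ≤ M) (p : ℕ) :
    ‖Av N (fun n => Ψ (n + p)) - Av N Ψ‖ ≤ 2 * p * M / (N : ℝ) ^ 2 := by
  unfold Av
  rw [← sub_div, norm_div, norm_pow, Complex.norm_natCast]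
  apply div_le_div_of_nonneg_right _ (by positivity)
  set g : ℤ → ℂ := fun j => ∑ k ∈ range N, Ψ (j - k) with hg
  have hgM : ∀ j, ‖g j‖ ≤ M := fun j => (norm_sum_le _ _).trans (hM j)
  have e1 : ∑ j ∈ range N, ∑ k ∈ range N, Ψ ((j : ℤ) - k + p) = ∑ j ∈ range N, g ((p + j : ℕ)) := by
    refine sum_congr rfl fun j _ => sum_congr rfl fun k _ => ?_
    congr 1; push_cast; ring
  have e2 : ∑ j ∈ range N, ∑ k ∈ range N, Ψ ((j : ℤ) - k) = ∑ j ∈ range N, g (j : ℕ) := rfl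
  have e3 : ∑ j ∈ range p, g (j : ℕ) + ∑ j ∈ range N, g ((p + j : ℕ)) =
      ∑ j ∈ range N, g (j : ℕ) + ∑ j ∈ range p, g ((N + j : ℕ)) := by
    rw [← Finset.sum_range_add (fun j : ℕ => g (j : ℤ)) p N,
      ← Finset.sum_range_add (fun j : ℕ => g (j : ℤ)) N p, add_comm p N]
  rw [e1, e2]
  have e4 : ∑ j ∈ range N, g ((p + j : ℕ)) - ∑ j ∈ range N, g (j : ℕ) =
      ∑ j ∈ range p, g ((N + j : ℕ)) - ∑ j ∈ range p, g (j : ℕ) := by
    linear_combination e3
  rw [e4]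
  refine (norm_sub_le _ _).trans ?_
  have h1 : ‖∑ j ∈ range p, g ((N + j : ℕ))‖ ≤ p * M := by
    refine (norm_sum_le _ _).trans ((sum_le_sum fun j _ => hgM _).trans ?_)
    simp
  have h2 : ‖∑ j ∈ range p, g (j : ℕ)‖ ≤ p * M := by
    refine (norm_sum_le _ _).trans ((sum_le_sum fun j _ => hgM _).trans ?_)
    simp
  linarith

theorem Av_shift (N : ℕ) (Ψ : ℤ → ℂ) (M : ℝ)
    (hM : ∀ j : ℤ, ∑ k ∈ range N, ‖Ψ (j - k)‖ ≤ M) (m : ℤ) :
    ‖Av N (fun n => Ψ (n + m)) - Av N Ψ‖ ≤ 2 * |(m : ℝ)| * M / (N : ℝ) ^ 2 := by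
  obtain ⟨p, rfl | rfl⟩ := m.eq_nat_or_neg
  · have := Av_shift_nat N Ψ M hM p
    simpa using this
  · have h1 := Av_shift_nat N (fun n => Ψ (n + -(p : ℤ))) M (by
      intro j
      have := hM (j - p)
      refine le_trans (le_of_eq ?_) this
      refine sum_congr rfl fun k _ => ?_
      congr 2; ring) p
    have e : (fun n : ℤ => Ψ (n + p + -(p : ℤ))) = Ψ := by funext n; congr 1; ring
    rw [e, norm_sub_rev] at h1
    simpa using h1

/-! ### More on domination -/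

theorem Dom.add {Φ Φ' : ℤ → ℂ} {Ψ Ψ' : ℤ → ℝ} (h : Dom Φ Ψ) (h' : Dom Φ' Ψ') :
    Dom (fun n => Φ n + Φ' n) (fun n => Ψ n + Ψ' n) := by
  obtain ⟨n, w, c, C, h0, h1, h2⟩ := h
  obtain ⟨n', w', c', C', h0', h1', h2'⟩ := h'
  refine Dom.of_fintype (ι := Fin n ⊕ Fin n') (Sum.elim w w') (Sum.elim c c') (Sum.elim C C') ?_ ?_ ?_
  · rintro (l | l)
    · exact h0 l
    · exact h0' l
  · intro m
    rw [h1, h1', Fintype.sum_sum_type]
    rfl
  · intro m
    rw [Complex.ofReal_add, h2, h2', Fintype.sum_sum_type]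
    rfl

theorem Dom.const_mul {Φ : ℤ → ℂ} {Ψ : ℤ → ℝ} (h : Dom Φ Ψ) (a : ℂ) (A : ℝ) (ha : ‖a‖ ≤ A) :
    Dom (fun n => a * Φ n) (fun n => A * Ψ n) := by
  obtain ⟨n, w, c, C, h0, h1, h2⟩ := h
  refine ⟨n, w, fun l => a * c l, fun l => A * C l, fun l => ?_, fun m => ?_, fun m => ?_⟩
  · rw [norm_mul]
    exact mul_le_mul ha (h0 l) (norm_nonneg _) ((norm_nonneg _).trans ha)
  · simp only [h1, mul_sum, mul_assoc]
  · simp only [Complex.ofReal_mul, h2, mul_sum, mul_assoc]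

theorem Dom.zero {Φ : ℤ → ℂ} {Ψ : ℤ → ℝ} (h : Dom Φ Ψ) : Dom (fun _ => 0) Ψ := by
  obtain ⟨n, w, c, C, h0, h1, h2⟩ := h
  exact ⟨n, w, fun _ => 0, C, fun l => by simpa using (norm_nonneg _).trans (h0 l),
    fun m => by simp, h2⟩

theorem tp_diff (E : ℕ) (c : ℤ → ℂ) (z w : Circle) :
    ‖tp E c (z * w) - tp E c z‖ ≤
      (∑ b ∈ Icc (-(E : ℤ)) E, |(b : ℝ)| * ‖c b‖) * ‖(w : ℂ) - 1‖ := by
  unfold tp
  rw [← sum_sub_distrib, sum_mul]
  refine (norm_sum_le _ _).trans (sum_le_sum fun b _ => ?_)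
  have e : c b * (((z * w) ^ b : Circle) : ℂ) - c b * ((z ^ b : Circle) : ℂ) =
      c b * (((z ^ b : Circle) : ℂ) * (((w ^ b : Circle) : ℂ) - 1)) := by
    rw [mul_zpow, Circle.coe_mul]; ring
  rw [e, norm_mul, norm_mul, Circle.norm_coe, one_mul]
  have h1 := norm_zpow_sub_one_le w b
  calc ‖c b‖ * ‖((w ^ b : Circle) : ℂ) - 1‖ ≤ ‖c b‖ * (|(b : ℝ)| * ‖(w : ℂ) - 1‖) := by gcongr
    _ = _ := by ring

section

variable {R : ℕ → ℕ} {s : ℕ → ℝ} {ζ : ℕ → Circle} {N : ℕ → ℕ} {σ : ℕ → ℝ}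

/-- one-dimensional averages of the weights -/
theorem sum_WW_le (h : Adm R s ζ N σ) {B : ℕ → ℕ} {q : ℕ} (hB1 : ∀ i, 1 ≤ B i)
    (hB : ∀ i, B i ≤ q * R i) {d : ℕ} (hq : q ≤ d) (j : ℤ) :
    ∑ k ∈ range (N d), WW ζ B d (j - k) ≤ 2 * N d := by
  classical
  have hN : (0 : ℝ) < N d := by exact_mod_cast h.N_pos d
  have hE : ∀ i, B i - 1 ≤ q * R i := fun i => (Nat.sub_le _ _).trans (hB i)
  have e1 : ((∑ k ∈ range (N d), WW ζ B d (j - k) : ℝ) : ℂ) =
      ∑ b ∈ box d (fun i => B i - 1), ((∏ i ∈ range d, fr (B i) (b i) : ℝ) : ℂ) *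
        (((lam ζ d b ^ j : Circle) : ℂ) * conj (∑ k ∈ range (N d), ((lam ζ d b : Circle) : ℂ) ^ k)) := by
    rw [Complex.ofReal_sum]
    have e2 : ∀ k ∈ range (N d), ((WW ζ B d (j - k) : ℝ) : ℂ) =
        ∑ b ∈ box d (fun i => B i - 1), ((∏ i ∈ range d, fr (B i) (b i) : ℝ) : ℂ) *
        (((lam ζ d b ^ j : Circle) : ℂ) * conj (((lam ζ d b : Circle) : ℂ) ^ k)) := by
      intro k _
      rw [WW_eq_tp ζ B hB1, prod_tp_eq d (fun i => B i - 1) (fun i => fc (B i)) ζ (j - k)]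
      refine sum_congr rfl fun b _ => ?_
      rw [Complex.ofReal_prod, zpow_sub, zpow_natCast, Circle.coe_mul, Circle.coe_inv_eq_conj,
        Circle.coe_pow]
      rfl
    rw [sum_congr rfl e2, Finset.sum_comm]
    refine sum_congr rfl fun b _ => ?_
    rw [← mul_sum, ← mul_sum, map_sum]
  have h1 : ∑ k ∈ range (N d), WW ζ B d (j - k) ≤
      ∑ b ∈ box d (fun i => B i - 1), ‖∑ k ∈ range (N d), ((lam ζ d b : Circle) : ℂ) ^ k‖ := by
    have h2 : ∑ k ∈ range (N d), WW ζ B d (j - k) ≤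
        ‖((∑ k ∈ range (N d), WW ζ B d (j - k) : ℝ) : ℂ)‖ := by
      rw [Complex.norm_real]; exact le_abs_self _
    refine h2.trans ?_
    rw [e1]
    refine (norm_sum_le _ _).trans (sum_le_sum fun b _ => ?_)
    rw [norm_mul, norm_mul, Circle.norm_coe, one_mul, Complex.norm_conj, Complex.norm_real,
      Real.norm_of_nonneg (prod_nonneg fun _ _ => fr_nonneg _ _)]
    have : ∏ i ∈ range d, fr (B i) (b i) ≤ 1 :=
      prod_le_one (fun _ _ => fr_nonneg _ _) fun _ _ => fr_le_one _ _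
    calc _ ≤ 1 * ‖∑ k ∈ range (N d), ((lam ζ d b : Circle) : ℂ) ^ k‖ := by gcongr
      _ = _ := one_mul _
  rw [← add_sum_erase _ _ (zero_mem_box d (fun i => B i - 1))] at h1
  have h3 : ‖∑ k ∈ range (N d), ((lam ζ d 0 : Circle) : ℂ) ^ k‖ ≤ N d := norm_geom_le _ _
  have h4 : ∀ b ∈ (box d (fun i => B i - 1)).erase 0,
      ‖∑ k ∈ range (N d), ((lam ζ d b : Circle) : ℂ) ^ k‖ ≤
        N d * ((2 : ℝ)⁻¹ ^ (d + 1) / cnt R d) := by
    intro b hb
    rw [mem_erase] at hb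
    have hno : rad σ d ≤ ‖((lam ζ d b : Circle) : ℂ) - 1‖ := by
      by_contra hlt
      push Not at hlt
      have hm := mem_box.mp hb.2
      apply hb.1
      have hu := res_unique h hq (b := b) (b' := 0) (z := 1)
        (fun i hi => (hm.1 i hi).trans (by exact_mod_cast hE i))
        (fun i hi => by simp only [Pi.zero_apply, abs_zero]; positivity)
        (by rw [mul_one]; exact hlt.trans (rad_lt_half h d))
        (by rw [lam_zero, mul_one, Circle.coe_one, sub_self, norm_zero]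
            have := h.σ_pos d; positivity)
      funext i
      by_cases hi : i < d
      · exact hu i hi
      · rw [hm.2 i (not_lt.mp hi)]; rfl
    have := geom_nonres h d hno
    rw [div_le_iff₀ hN] at this
    linarith
  have h5 := sum_le_sum h4
  rw [sum_const, nsmul_eq_mul] at h5
  have hc0 : 0 < cnt R d := lt_of_lt_of_le one_pos (cnt_one_le R d)
  have h6 : (((box d (fun i => B i - 1)).erase 0).card : ℝ) ≤ cnt R d := by
    refine le_trans ?_ (card_box_le (R := R) hq hE)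
    exact_mod_cast card_le_card (erase_subset _ _)
  have h7 : (((box d (fun i => B i - 1)).erase 0).card : ℝ) *
      (N d * ((2 : ℝ)⁻¹ ^ (d + 1) / cnt R d)) ≤ N d := by
    calc _ ≤ cnt R d * (N d * ((2 : ℝ)⁻¹ ^ (d + 1) / cnt R d)) := by gcongr
      _ = N d * (2 : ℝ)⁻¹ ^ (d + 1) := by field_simp
      _ ≤ N d * 1 := by
        gcongr
        exact pow_le_one₀ (by norm_num) (by norm_num)
      _ = N d := mul_one _
  linarith

/-- the product changes little under good shifts -/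
theorem exists_dom_shift (B : ℕ → ℕ) (hB1 : ∀ i, 1 ≤ B i) (E : ℕ → ℕ) (c : ℕ → ℤ → ℂ)
    (hp : ∀ i z, ‖tp (E i) (c i) z‖ ≤ fej (B i) z) (ζ : ℕ → Circle) (m : ℤ) (e : ℕ → ℝ)
    (he : ∀ i, (∑ b ∈ Icc (-(E i : ℤ)) (E i), |(b : ℝ)| * ‖c i b‖) * ‖((ζ i ^ m : Circle) : ℂ) - 1‖ ≤
      e i) (d : ℕ) :
    ∃ S : ℤ → ℝ, (∀ n, ‖∏ i ∈ range d, tp (E i) (c i) (ζ i ^ (n + m)) -
        ∏ i ∈ range d, tp (E i) (c i) (ζ i ^ n)‖ ≤ S n) ∧
      Dom (fun n => (S n : ℂ)) (fun n => (∑ i ∈ range d, e i) * WW ζ B d n) := by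
  have he0 : ∀ i, 0 ≤ e i := fun i => le_trans (by positivity) (he i)
  induction d with
  | zero =>
    refine ⟨fun _ => 0, fun n => by simp, ?_⟩
    have : (fun n : ℤ => (∑ i ∈ range 0, e i) * WW ζ B 0 n) = fun n : ℤ => (0 : ℝ) * WW ζ B 0 n := by
      simp
    rw [this]
    have h1 := (Dom_WW hB1 (fun _ => le_rfl) ζ 0 0).const_mul 0 0 (by simp)
    simpa using h1
  | succ d ih =>
    obtain ⟨S, hS, hD⟩ := ih
    refine ⟨fun n => S n * fej (B d) (ζ d ^ n) + e d * WW ζ B d (n + m), fun n => ?_, ?_⟩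
    · rw [prod_range_succ, prod_range_succ]
      set P := ∏ i ∈ range d, tp (E i) (c i) (ζ i ^ (n + m)) with hP
      set P' := ∏ i ∈ range d, tp (E i) (c i) (ζ i ^ n) with hP'
      set a := tp (E d) (c d) (ζ d ^ (n + m)) with ha
      set b := tp (E d) (c d) (ζ d ^ n) with hb
      have h1 : P * a - P' * b = (P - P') * b + P * (a - b) := by ring
      rw [h1]
      refine (norm_add_le _ _).trans ?_
      rw [norm_mul, norm_mul]
      have h2 : ‖P‖ ≤ WW ζ B d (n + m) := by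
        rw [hP, norm_prod]
        exact Finset.prod_le_prod (fun _ _ => norm_nonneg _) fun i _ => hp i _
      have h3 : ‖a - b‖ ≤ e d := by
        rw [ha, hb, zpow_add]
        exact (tp_diff _ _ _ _).trans (he d)
      have h4 : 0 ≤ S n := (norm_nonneg _).trans (hS n)
      have h5 : ‖P‖ * ‖a - b‖ ≤ WW ζ B d (n + m) * e d :=
        mul_le_mul h2 h3 (norm_nonneg _) (WW_nonneg _ _ _ _)
      have h6 : ‖P - P'‖ * ‖b‖ ≤ S n * fej (B d) (ζ d ^ n) :=
        mul_le_mul (hS n) (hp d _) (norm_nonneg _) h4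
      linarith
    · have h1 := hD.mul (Dom_fej (hB1 d) le_rfl (ζ d) 0)
      have h2 := (((Dom_WW hB1 (fun _ => le_rfl) ζ d m).mul
        (Dom_fej le_rfl (hB1 d) (ζ d) 0))).const_mul (e d) (e d)
        (by rw [Complex.norm_real, Real.norm_of_nonneg (he0 d)])
      have h3 := h1.add h2
      have e1 : (fun n : ℤ => (S n : ℂ) * (fej (B d) (ζ d ^ (n + 0)) : ℂ) +
          (e d : ℂ) * ((WW ζ B d (n + m) : ℂ) * (fej 1 (ζ d ^ (n + 0)) : ℂ))) =
          fun n => ((S n * fej (B d) (ζ d ^ n) + e d * WW ζ B d (n + m) : ℝ) : ℂ) := by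
        funext n
        rw [fej_one, add_zero]
        push_cast
        ring
      have e2 : (fun n : ℤ => (∑ i ∈ range d, e i) * WW ζ B d n * fej (B d) (ζ d ^ n) +
          e d * (WW ζ B d n * fej (B d) (ζ d ^ n))) =
          fun n => (∑ i ∈ range (d + 1), e i) * WW ζ B (d + 1) n := by
        funext n
        rw [sum_range_succ]
        have : WW ζ B (d + 1) n = WW ζ B d n * fej (B d) (ζ d ^ n) := by
          unfold WW; rw [prod_range_succ]
        rw [this]; ring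
      rw [e1, e2] at h3
      exact h3

theorem AvR_WW_le_two (h : Adm R s ζ N σ) {B : ℕ → ℕ} {q : ℕ} (hB1 : ∀ i, 1 ≤ B i)
    (hB : ∀ i, B i ≤ q * R i) {d : ℕ} (hq : q ≤ d) : AvR (N d) (WW ζ B d) ≤ 2 := by
  rw [AvR_WW_eq ζ N hB1]
  have h1 := (abs_le.mp (MM_one h hB1 hB hq)).2
  have h2 : (4 : ℝ)⁻¹ ^ (d + 1) ≤ 1 := pow_le_one₀ (by norm_num) (by norm_num)
  linarith

/-- the large sieve step -/
theorem sieve (N : ℕ) (W W' : ℤ → ℝ) (C : ℝ) (hC : 0 ≤ C) (hW' : ∀ n, 0 ≤ W' n)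
    (hWW : ∀ n, W n ≤ C * W' n) (g : ℤ → ℂ) (hg : ∀ n, ‖g n‖ ≤ W n) {J : ℕ} (v : Fin J → Circle) :
    (∑ j, ‖Av N (fun n => g n * ((v j ^ n : Circle) : ℂ))‖) ^ 2 ≤
      C ^ 2 * (AvR N W' * ∑ j, ∑ j', ‖Av N (fun n => (W' n : ℂ) *
        (((v j * (v j')⁻¹) ^ n : Circle) : ℂ))‖) := by
  -- unimodular multipliers
  have hex : ∀ j, ∃ t : ℂ, ‖t‖ = 1 ∧ t * Av N (fun n => g n * ((v j ^ n : Circle) : ℂ)) =
      (‖Av N (fun n => g n * ((v j ^ n : Circle) : ℂ))‖ : ℂ) := by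
    intro j
    set x := Av N (fun n => g n * ((v j ^ n : Circle) : ℂ)) with hx
    by_cases h0 : x = 0
    · exact ⟨1, by simp, by rw [h0]; simp⟩
    · have hn : (‖x‖ : ℂ) ≠ 0 := by
        rw [Ne, Complex.ofReal_eq_zero]; exact norm_ne_zero_iff.mpr h0
      refine ⟨conj x / ‖x‖, ?_, ?_⟩
      · rw [norm_div, Complex.norm_conj, Complex.norm_real, norm_norm,
          div_self (norm_ne_zero_iff.mpr h0)]
      · rw [div_mul_eq_mul_div, mul_comm, Complex.mul_conj, Complex.normSq_eq_norm_sq]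
        rw [div_eq_iff hn]; push_cast; ring
  choose t ht htx using hex
  set S : ℤ → ℂ := fun n => ∑ j, t j * ((v j ^ n : Circle) : ℂ) with hS
  have e1 : ((∑ j, ‖Av N (fun n => g n * ((v j ^ n : Circle) : ℂ))‖ : ℝ) : ℂ) =
      Av N (fun n => g n * S n) := by
    rw [Complex.ofReal_sum]
    have : (fun n => g n * S n) = fun n => ∑ j, t j * (g n * ((v j ^ n : Circle) : ℂ)) := by
      funext n; rw [hS]; simp only [mul_sum]
      refine sum_congr rfl fun j _ => by ring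
    rw [this, Av_sum]
    refine sum_congr rfl fun j _ => ?_
    rw [Av_const_mul, htx]
  have h1 : ∑ j, ‖Av N (fun n => g n * ((v j ^ n : Circle) : ℂ))‖ ≤
      C * AvR N (fun n => W' n * ‖S n‖) := by
    have h2 : ∑ j, ‖Av N (fun n => g n * ((v j ^ n : Circle) : ℂ))‖ ≤ ‖Av N (fun n => g n * S n)‖ := by
      rw [← e1, Complex.norm_real]; exact le_abs_self _
    refine h2.trans ?_
    rw [← AvR_const_mul]
    apply norm_Av_le_of_le'
    intro n
    rw [norm_mul, ← mul_assoc]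
    exact mul_le_mul_of_nonneg_right ((hg n).trans (hWW n)) (norm_nonneg _)
  have h0 : 0 ≤ ∑ j, ‖Av N (fun n => g n * ((v j ^ n : Circle) : ℂ))‖ :=
    sum_nonneg fun _ _ => norm_nonneg _
  have h3 : (∑ j, ‖Av N (fun n => g n * ((v j ^ n : Circle) : ℂ))‖) ^ 2 ≤
      (C * AvR N (fun n => W' n * ‖S n‖)) ^ 2 := by gcongr
  refine h3.trans ?_
  rw [mul_pow]
  apply mul_le_mul_of_nonneg_left _ (by positivity)
  refine (AvR_cauchy N W' (fun n => ‖S n‖) hW').trans ?_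
  apply mul_le_mul_of_nonneg_left _ (AvR_nonneg hW')
  -- the second moment
  have e2 : ((AvR N (fun n => W' n * ‖S n‖ ^ 2) : ℝ) : ℂ) =
      ∑ j, ∑ j', (t j * conj (t j')) * Av N (fun n => (W' n : ℂ) *
        (((v j * (v j')⁻¹) ^ n : Circle) : ℂ)) := by
    rw [← Av_ofReal]
    have : (fun n => ((W' n * ‖S n‖ ^ 2 : ℝ) : ℂ)) = fun n => ∑ j, ∑ j', (t j * conj (t j')) *
        ((W' n : ℂ) * (((v j * (v j')⁻¹) ^ n : Circle) : ℂ)) := by
      funext n
      rw [Complex.ofReal_mul, Complex.ofReal_pow, ← Complex.mul_conj', hS]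
      simp only [map_sum]
      rw [Finset.sum_mul_sum, mul_sum]
      refine sum_congr rfl fun j _ => ?_
      rw [mul_sum]
      refine sum_congr rfl fun j' _ => ?_
      rw [mul_zpow, inv_zpow, Circle.coe_mul, Circle.coe_inv_eq_conj, map_mul]
      ring
    rw [this, Av_sum]
    refine sum_congr rfl fun j _ => ?_
    rw [Av_sum]
    refine sum_congr rfl fun j' _ => ?_
    rw [Av_const_mul]
  have h4 : AvR N (fun n => W' n * ‖S n‖ ^ 2) ≤
      ‖((AvR N (fun n => W' n * ‖S n‖ ^ 2) : ℝ) : ℂ)‖ := by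
    rw [Complex.norm_real]; exact le_abs_self _
  refine h4.trans ?_
  rw [e2]
  refine (norm_sum_le _ _).trans (sum_le_sum fun j _ => ?_)
  refine (norm_sum_le _ _).trans (sum_le_sum fun j' _ => ?_)
  rw [norm_mul, norm_mul, Complex.norm_conj, ht, ht, one_mul, one_mul]

theorem decorr (h : Adm R s ζ N σ) {B : ℕ → ℕ} {q : ℕ} (hB1 : ∀ i, 1 ≤ B i)
    (hB : ∀ i, B i ≤ q * R i) (E : ℕ → ℕ) (c : ℕ → ℤ → ℂ)
    (hp : ∀ i z, ‖tp (E i) (c i) z‖ ≤ fej (B i) z)
    (hs : ∀ i, (∑ b ∈ Icc (-(E i : ℤ)) (E i), |(b : ℝ)| * ‖c i b‖) * s i ≤ (2 : ℝ)⁻¹ ^ i)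
    (u : ℤ → ℂ) (hu : ∀ n, ‖u n‖ ≤ 1) (hosc : OscData u) :
    Tendsto (fun d => Av (N d) (fun n => (∏ i ∈ range d, tp (E i) (c i) (ζ i ^ n)) * u n)) atTop
      (𝓝 0) := by
  rw [Metric.tendsto_atTop]
  intro ε hε
  set ε₁ : ℝ := ε / 16 with hε₁
  have hε₁0 : 0 < ε₁ := by positivity
  obtain ⟨k, θ, r, v, l, z, hr, hadd, hcont, hnt, hshift, hgen⟩ := hosc ε₁ hε₁0
  obtain ⟨i₀, hi₀⟩ := exists_i0 h z
  -- the dominating weight
  set C : ℝ := ∏ i ∈ range i₀, (B i : ℝ) with hC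
  have hC0 : 0 < C := prod_pos fun i _ => by exact_mod_cast hB1 i
  set B' : ℕ → ℕ := fun i => if i < i₀ then 1 else B i with hB'
  have hB'1 : ∀ i, 1 ≤ B' i := by
    intro i; simp only [hB']; split_ifs
    · exact le_rfl
    · exact hB1 i
  have hB'q : ∀ i, B' i ≤ q * R i := by
    intro i; simp only [hB']; split_ifs
    · exact (hB1 i).trans (hB i)
    · exact hB i
  have hB'0 : ∀ i < i₀, B' i = 1 := by intro i hi; simp [hB', hi]
  have hdomi : ∀ d, i₀ ≤ d → ∀ n, WW ζ B d n ≤ C * WW ζ B' d n := by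
    intro d hd n
    have e1 : C = ∏ i ∈ range d, (if i < i₀ then (B i : ℝ) else 1) := by
      rw [hC, ← Finset.prod_filter]
      apply Finset.prod_congr _ fun _ _ => rfl
      ext i; simp only [mem_range, Finset.mem_filter]; omega
    rw [e1]
    unfold WW
    rw [← prod_mul_distrib]
    apply Finset.prod_le_prod (fun _ _ => fej_nonneg _ _)
    intro i _
    by_cases hi : i < i₀
    · rw [if_pos hi, hB'0 i hi, fej_one, mul_one]
      exact fej_le _ _
    · rw [if_neg hi, one_mul]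
      have : B' i = B i := by simp [hB', hi]
      rw [this]
  -- number of shifts
  obtain ⟨J, hJ⟩ := exists_nat_gt (4 * C ^ 2 / ε₁ ^ 2)
  have hJ0 : (0 : ℝ) < J := lt_of_le_of_lt (by positivity) hJ
  obtain ⟨m, hm1, hm2, hm3⟩ := lemX h θ r hr v hadd hcont hnt J ε₁ hε₁0
  choose cc hcc1 hcc2 using fun j => hshift (m j) (hm1 j)
  -- limits
  have hoff : ∀ j j' : Fin J, Tendsto (fun d => ‖Av (N d) (fun n => (WW ζ B' d n : ℂ) *
      (((v (m j) * (v (m j'))⁻¹) ^ n : Circle) : ℂ))‖) atTop (𝓝 (if j = j' then 1 else 0)) := by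
    intro j j'
    have e1 : ∀ d, ‖Av (N d) (fun n => (WW ζ B' d n : ℂ) *
      (((v (m j) * (v (m j'))⁻¹) ^ n : Circle) : ℂ))‖ = MM ζ N B' d (v (m j) * (v (m j'))⁻¹) := by
      intro d
      rw [Av_WW ζ N B' hB'1, Complex.norm_real, Real.norm_of_nonneg (MM_nonneg _ _ _ _ _)]
    simp only [e1]
    split_ifs with hjj
    · rw [hjj, mul_inv_cancel]
      exact MM_one_tendsto h hB'1 hB'q
    · apply hi₀ q B' hB'1 hB'q hB'0
      · exact Subgroup.mul_mem _ (hgen _ (hm1 j)) (Subgroup.inv_mem _ (hgen _ (hm1 j')))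
      · intro hh
        exact hjj (hm3 (mul_inv_eq_one.mp hh))
  have hsum : Tendsto (fun d => ∑ j : Fin J, ∑ j' : Fin J, ‖Av (N d) (fun n => (WW ζ B' d n : ℂ) *
      (((v (m j) * (v (m j'))⁻¹) ^ n : Circle) : ℂ))‖) atTop (𝓝 J) := by
    have h1 := tendsto_finsetSum (univ : Finset (Fin J)) fun j _ =>
      tendsto_finsetSum (univ : Finset (Fin J)) fun j' _ => hoff j j'
    have e : ∑ j : Fin J, ∑ j' : Fin J, (if j = j' then (1 : ℝ) else 0) = J := by simp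
    rw [e] at h1
    exact h1
  have ev1 := hsum.eventually_lt_const (show (J : ℝ) < 2 * J by linarith)
  have ev2 : ∀ᶠ d in atTop, ∀ j : Fin J, 4 * |(m j : ℝ)| / N d < ε₁ := by
    rw [Filter.eventually_all]
    intro j
    have h1 : Tendsto (fun d => 4 * |(m j : ℝ)| / N d) atTop (𝓝 0) :=
      Tendsto.div_atTop tendsto_const_nhds (tendsto_N h)
    exact h1.eventually_lt_const hε₁0
  have hev := (ev1.and ev2).and ((eventually_ge_atTop q).and (eventually_ge_atTop i₀))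
  obtain ⟨d₀, hd₀⟩ := hev.exists_forall_of_atTop
  refine ⟨d₀, fun d hd => ?_⟩
  obtain ⟨⟨hd1, hd2⟩, hdq, hdi⟩ := hd₀ d hd
  rw [dist_zero_right]
  set P : ℤ → ℂ := fun n => ∏ i ∈ range d, tp (E i) (c i) (ζ i ^ n) with hP
  have hPW : ∀ n, ‖P n‖ ≤ WW ζ B d n := by
    intro n
    rw [hP]
    simp only [norm_prod]
    exact Finset.prod_le_prod (fun _ _ => norm_nonneg _) fun i _ => hp i _
  have hN : (0 : ℝ) < N d := by exact_mod_cast h.N_pos d
  have hmass := AvR_WW_le_two h hB1 hB hdq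
  have hone : ∀ j : Fin J, ‖Av (N d) (fun n => P n * u n)‖ ≤
      ‖Av (N d) (fun n => (P n * u n) * ((v (m j) ^ n : Circle) : ℂ))‖ + 7 * ε₁ := by
    intro j
    set X0 := Av (N d) (fun n => P n * u n) with hX0
    set X1 := Av (N d) (fun n => P (n + m j) * u (n + m j)) with hX1
    set X2 := Av (N d) (fun n => P n * u (n + m j)) with hX2
    set X3 := Av (N d) (fun n => cc j * ((P n * u n) * ((v (m j) ^ n : Circle) : ℂ))) with hX3
    have a1 : ‖X1 - X0‖ ≤ ε₁ := by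
      have h1 := Av_shift (N d) (fun n => P n * u n) (2 * N d) (by
        intro j'
        refine le_trans (sum_le_sum fun k _ => ?_) (sum_WW_le h hB1 hB hdq j')
        rw [norm_mul]
        calc ‖P (j' - k)‖ * ‖u (j' - k)‖ ≤ WW ζ B d (j' - k) * 1 :=
              mul_le_mul (hPW _) (hu _) (norm_nonneg _) (WW_nonneg _ _ _ _)
          _ = _ := mul_one _) (m j)
      refine h1.trans (le_trans (le_of_eq ?_) (hd2 j).le)
      field_simp
      ring
    have a2 : ‖X1 - X2‖ ≤ 4 * ε₁ := by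
      have e1 : X1 - X2 = Av (N d) (fun n => (P (n + m j) - P n) * u (n + m j)) := by
        rw [hX1, hX2, ← Av_sub]
        congr 1; funext n; ring
      obtain ⟨S, hS1, hS2⟩ := exists_dom_shift B hB1 E c hp ζ (m j) (fun i => ε₁ * (2 : ℝ)⁻¹ ^ i) (by
        intro i
        have h1 := hm2 j i
        have h2 : 0 ≤ ∑ b ∈ Icc (-(E i : ℤ)) (E i), |(b : ℝ)| * ‖c i b‖ :=
          sum_nonneg fun _ _ => by positivity
        calc _ ≤ (∑ b ∈ Icc (-(E i : ℤ)) (E i), |(b : ℝ)| * ‖c i b‖) * (ε₁ * s i) := by gcongr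
          _ = ε₁ * ((∑ b ∈ Icc (-(E i : ℤ)) (E i), |(b : ℝ)| * ‖c i b‖) * s i) := by ring
          _ ≤ _ := by
            have := hs i
            gcongr) d
      rw [e1]
      have b1 : ‖Av (N d) (fun n => (P (n + m j) - P n) * u (n + m j))‖ ≤ AvR (N d) S := by
        apply norm_Av_le_of_le'
        intro n
        rw [norm_mul]
        calc _ ≤ S n * 1 := mul_le_mul (hS1 n) (hu _) (norm_nonneg _)
              ((norm_nonneg _).trans (hS1 n))
          _ = S n := mul_one _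
      have b2 := hS2.AvR_le (N d)
      rw [AvR_const_mul] at b2
      have b3 : ∑ i ∈ range d, ε₁ * (2 : ℝ)⁻¹ ^ i ≤ ε₁ * 2 := by
        rw [← mul_sum]
        apply mul_le_mul_of_nonneg_left _ hε₁0.le
        have := Summable.sum_le_tsum (range d) (fun i _ => by positivity)
          (summable_geometric_of_lt_one (r := (2 : ℝ)⁻¹) (by norm_num) (by norm_num))
        rw [tsum_geometric_of_lt_one (by norm_num) (by norm_num)] at this
        norm_num at this ⊢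
        exact this
      have b4 : (∑ i ∈ range d, ε₁ * (2 : ℝ)⁻¹ ^ i) * AvR (N d) (WW ζ B d) ≤ (ε₁ * 2) * 2 := by
        apply mul_le_mul b3 hmass (AvR_nonneg fun _ => WW_nonneg _ _ _ _) (by positivity)
      have b5 : AvR (N d) (fun n => WW ζ B d n) = AvR (N d) (WW ζ B d) := rfl
      rw [b5] at b2
      linarith
    have a3 : ‖X2 - X3‖ ≤ 2 * ε₁ := by
      have e1 : X2 - X3 = Av (N d) (fun n => P n *
          (u (n + m j) - cc j * ((v (m j) ^ n : Circle) : ℂ) * u n)) := by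
        rw [hX2, hX3, ← Av_sub]
        congr 1; funext n; ring
      rw [e1]
      have b1 : ‖Av (N d) (fun n => P n *
          (u (n + m j) - cc j * ((v (m j) ^ n : Circle) : ℂ) * u n))‖ ≤
          AvR (N d) (fun n => ε₁ * WW ζ B d n) := by
        apply norm_Av_le_of_le'
        intro n
        rw [norm_mul, mul_comm ε₁]
        exact mul_le_mul (hPW n) (hcc2 j n) (norm_nonneg _) (WW_nonneg _ _ _ _)
      rw [AvR_const_mul] at b1
      have b5 : AvR (N d) (fun n => WW ζ B d n) = AvR (N d) (WW ζ B d) := rfl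
      rw [b5] at b1
      nlinarith
    have a4 : ‖X3‖ ≤ ‖Av (N d) (fun n => (P n * u n) * ((v (m j) ^ n : Circle) : ℂ))‖ := by
      rw [hX3, Av_const_mul, norm_mul]
      have := hcc1 j
      have h0 := norm_nonneg (Av (N d) (fun n => (P n * u n) * ((v (m j) ^ n : Circle) : ℂ)))
      nlinarith
    have e5 : X0 = X3 + (X2 - X3) + (X1 - X2) - (X1 - X0) := by ring
    have a5 : ‖X0‖ ≤ ‖X3‖ + ‖X2 - X3‖ + ‖X1 - X2‖ + ‖X1 - X0‖ := by
      calc ‖X0‖ = ‖X3 + (X2 - X3) + (X1 - X2) - (X1 - X0)‖ := by rw [← e5]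
        _ ≤ ‖X3 + (X2 - X3) + (X1 - X2)‖ + ‖X1 - X0‖ := norm_sub_le _ _
        _ ≤ ‖X3 + (X2 - X3)‖ + ‖X1 - X2‖ + ‖X1 - X0‖ := by gcongr; exact norm_add_le _ _
        _ ≤ _ := by gcongr; exact norm_add_le _ _
    linarith
  -- the sieve
  have hsv := sieve (N d) (WW ζ B d) (WW ζ B' d) C hC0.le (WW_nonneg _ _ _) (hdomi d hdi)
    (fun n => P n * u n) (by
      intro n
      rw [norm_mul]
      calc ‖P n‖ * ‖u n‖ ≤ WW ζ B d n * 1 :=
            mul_le_mul (hPW _) (hu _) (norm_nonneg _) (WW_nonneg _ _ _ _)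
        _ = _ := mul_one _) (fun j => v (m j))
  have hmass' := AvR_WW_le_two h hB'1 hB'q hdq
  set A := ∑ j : Fin J, ‖Av (N d) (fun n => (P n * u n) * ((v (m j) ^ n : Circle) : ℂ))‖ with hA
  have hA0 : 0 ≤ A := sum_nonneg fun _ _ => norm_nonneg _
  have hA2 : A ^ 2 ≤ (J * ε₁) ^ 2 := by
    have h1 : AvR (N d) (WW ζ B' d) * (∑ j : Fin J, ∑ j' : Fin J, ‖Av (N d) (fun n =>
        (WW ζ B' d n : ℂ) * (((v (m j) * (v (m j'))⁻¹) ^ n : Circle) : ℂ))‖) ≤ 2 * (2 * J) :=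
      mul_le_mul hmass' hd1.le (sum_nonneg fun _ _ => sum_nonneg fun _ _ => norm_nonneg _)
        (by norm_num)
    have h2 : A ^ 2 ≤ C ^ 2 * (2 * (2 * J)) := hsv.trans (mul_le_mul_of_nonneg_left h1 (by positivity))
    refine h2.trans ?_
    have h3 : 4 * C ^ 2 < J * ε₁ ^ 2 := by
      rwa [div_lt_iff₀ (by positivity)] at hJ
    calc C ^ 2 * (2 * (2 * J)) = J * (4 * C ^ 2) := by ring
      _ ≤ J * (J * ε₁ ^ 2) := by gcongr
      _ = _ := by ring
  have hA3 : A ≤ J * ε₁ := by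
    have := abs_le_of_sq_le_sq' hA2 (by positivity)
    exact this.2
  have hfin : (J : ℝ) * ‖Av (N d) (fun n => P n * u n)‖ ≤ A + J * (7 * ε₁) := by
    have h1 := sum_le_sum fun j (_ : j ∈ (univ : Finset (Fin J))) => hone j
    rw [sum_add_distrib, sum_const, sum_const, card_univ, Fintype.card_fin, nsmul_eq_mul,
      nsmul_eq_mul] at h1
    exact h1
  have hfin2 : ‖Av (N d) (fun n => P n * u n)‖ ≤ 8 * ε₁ := by
    have : (J : ℝ) * ‖Av (N d) (fun n => P n * u n)‖ ≤ J * (8 * ε₁) := by linarith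
    exact le_of_mul_le_mul_left this hJ0
  have : 8 * ε₁ = ε / 2 := by rw [hε₁]; ring
  linarith

end

end Pool.Agent.TH296.NC
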