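import Mathlib

set_option autoImplicit false

/-!
# MP_fc4783_an: definitions for the counterexample

Nilsequence averages along a sequence of integers converge, double averages do not.
-/

open Filter Topology Finset
open scoped commutatorElement

namespace Pool.Agent.TH296.NC

/-! ### Averages and weights on the integers -/

/-- average of `Ψ` over the differences `j - k`, `0 ≤ j, k < N` -/
noncomputable def Av (N : ℕ) (Ψ : ℤ → ℂ) : ℂ :=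
  (∑ j ∈ range N, ∑ k ∈ range N, Ψ ((j : ℤ) - (k : ℤ))) / (N : ℂ) ^ 2

/-- the Fejer kernel of order `B` at a point of the circle -/
noncomputable def fej (B : ℕ) (z : Circle) : ℝ := ‖∑ j ∈ range B, (z : ℂ) ^ j‖ ^ 2 / B

/-- trigonometric polynomial with coefficients `c`, of degree at most `R` -/
noncomputable def tp (R : ℕ) (c : ℤ → ℂ) (z : Circle) : ℂ :=
  ∑ b ∈ Icc (-(R : ℤ)) (R : ℤ), c b * ((z ^ b : Circle) : ℂ)

/-- coefficients of the Fejer kernel -/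
noncomputable def fc (B : ℕ) (b : ℤ) : ℂ := ((max 0 (1 - |(b : ℝ)| / B) : ℝ) : ℂ)

/-- the product of `ζ i ^ b i` over `i < d` -/
noncomputable def lam (ζ : ℕ → Circle) (d : ℕ) (b : ℕ → ℤ) : Circle := ∏ i ∈ range d, ζ i ^ b i

/-- the product of Fejer kernels at the powers of the frequencies -/
noncomputable def WW (ζ : ℕ → Circle) (B : ℕ → ℕ) (d : ℕ) (n : ℤ) : ℝ :=
  ∏ i ∈ range d, fej (B i) (ζ i ^ n)

/-- admissible parameters: frequencies `ζ`, window lengths `N`, separations `σ`, for given degree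
bounds `R` and scales `s` -/
structure Adm (R : ℕ → ℕ) (s : ℕ → ℝ) (ζ : ℕ → Circle) (N : ℕ → ℕ) (σ : ℕ → ℝ) : Prop where
  R_pos : ∀ i, 1 ≤ R i
  s_pos : ∀ i, 0 < s i
  s_le : ∀ i, s i ≤ 1
  Rs : ∀ i, (2 : ℝ) ^ i ≤ R i * s i ^ 2
  N_pos : ∀ d, 1 ≤ N d
  N_mono : Monotone N
  σ_pos : ∀ d, 0 < σ d
  sep : ∀ d, ∀ b : ℕ → ℤ, (∃ i < d, b i ≠ 0) → (∀ i < d, |b i| ≤ ((d + 1) ^ 2 * R i : ℕ)) →
    σ d ≤ ‖((lam ζ d b : Circle) : ℂ) - 1‖
  N_large : ∀ d : ℕ, ((d : ℝ) + 1) ^ 2 * 2 ^ (d + 4) * (∏ i ∈ range d, (2 * (d : ℝ) * R i + 1)) ≤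
    N d * σ d
  ζ_small : ∀ d : ℕ, ‖((ζ d : Circle) : ℂ) - 1‖ * N d * (1 + ((d : ℝ) + 1) * R d) ≤
    (2 : ℝ)⁻¹ ^ d * s d

/-- `m` is an approximate period of all the `θ j`, up to `r` -/
def Near {k : ℕ} (θ : Fin k → Circle) (r : ℝ) (m : ℤ) : Prop :=
  ∀ j, ‖((θ j ^ m : Circle) : ℂ) - 1‖ < r

/-- uniform limits of trigonometric polynomials on the integers -/
def IsAP (u : ℤ → ℂ) : Prop :=
  ∀ ε : ℝ, 0 < ε → ∃ (n : ℕ) (z : Fin n → Circle) (c : Fin n → ℂ),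
    ∀ m : ℤ, ‖u m - ∑ i, c i * ((z i ^ m : Circle) : ℂ)‖ ≤ ε

/-- sequences which, up to small errors, are multiplied by nontrivial characters when they are
shifted by approximate periods -/
def OscData (u : ℤ → ℂ) : Prop :=
  ∀ ε : ℝ, 0 < ε → ∃ (k : ℕ) (θ : Fin k → Circle) (r : ℝ) (v : ℤ → Circle) (l : ℕ)
    (z : Fin l → Circle), 0 < r ∧
    (∀ m m' : ℤ, Near θ r m → Near θ r m' → v (m + m') = v m * v m') ∧
    (∀ ε' : ℝ, 0 < ε' → ∃ δ : ℝ, 0 < δ ∧ ∀ m : ℤ, Near θ δ m → ‖((v m : Circle) : ℂ) - 1‖ < ε') ∧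
    (∀ δ : ℝ, 0 < δ → ∃ m : ℤ, Near θ δ m ∧ v m ≠ 1) ∧
    (∀ m : ℤ, Near θ r m → ∃ c : ℂ, ‖c‖ ≤ 1 ∧
      ∀ n : ℤ, ‖u (n + m) - c * ((v m ^ n : Circle) : ℂ) * u n‖ ≤ ε) ∧
    (∀ m : ℤ, Near θ r m → v m ∈ Subgroup.closure (Set.range z))

/-! ### Nilmanifolds of class two -/

section Nil

variable (G : Type*) [Group G] [TopologicalSpace G] [IsTopologicalGroup G]

/-- the closure of the product of the centre and `Γ` -/
def HH (Γ : Subgroup G) : Subgroup G := (Subgroup.center G ⊔ Γ).topologicalClosure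

variable {G}

/-- `F` is a continuous function on `G ⧸ Γ` which is multiplied by the character `χ` of `HH G Γ`
under the right action of `HH G Γ` -/
structure IsEig (Γ : Subgroup G) (χ : G → Circle) (F : G ⧸ Γ → ℂ) : Prop where
  cont_χ : ContinuousOn χ (HH G Γ : Set G)
  mul_χ : ∀ h ∈ HH G Γ, ∀ h' ∈ HH G Γ, χ (h * h') = χ h * χ h'
  triv : ∀ γ ∈ Γ, χ γ = 1
  cont_F : Continuous F
  eqv : ∀ g : G, ∀ h ∈ HH G Γ, F ((g * h : G) : G ⧸ Γ) = ((χ h : Circle) : ℂ) * F (g : G ⧸ Γ)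

/-- the alternative: `χ ⁅b, h⁆ = 1` whenever `b ^ m = g * h` with `h ∈ HH G Γ` and `g` close to `1` -/
def Flat (Γ : Subgroup G) (χ : G → Circle) (b : G) : Prop :=
  ∃ U ∈ 𝓝 (1 : G), ∀ m : ℤ, ∀ g ∈ U, ∀ h ∈ HH G Γ, b ^ m = g * h → χ ⁅b, h⁆ = 1

end Nil

end Pool.Agent.TH296.NC
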