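import Pool.Agent.TH296.NC.Defs

set_option autoImplicit false

/-!
# MP_fc4783_an: definitions for Riemann integrable functions (second stage)
-/

open Filter Topology Finset
open scoped commutatorElement

namespace Pool.Agent.TH296.NC

section

variable {G : Type*} [Group G] [TopologicalSpace G] [IsTopologicalGroup G]

/-- `z ^ m` is close to `χ h` whenever `b ^ m = g * h` with `h ∈ HH G Γ` and `g` close to `1` -/
def Compat (Γ : Subgroup G) (χ : G → Circle) (b : G) (z : Circle) : Prop :=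
  ∀ ε : ℝ, 0 < ε → ∃ U ∈ 𝓝 (1 : G), ∀ m : ℤ, ∀ g ∈ U, ∀ h ∈ HH G Γ, b ^ m = g * h →
    ‖((z ^ m : Circle) : ℂ) - ((χ h : Circle) : ℂ)‖ < ε

/-- uniform limits of trigonometric polynomials whose frequencies are compatible with `χ` -/
def IsAPC (Γ : Subgroup G) (χ : G → Circle) (b : G) (u : ℤ → ℂ) : Prop :=
  ∀ ε : ℝ, 0 < ε → ∃ (n : ℕ) (z : Fin n → Circle) (c : Fin n → ℂ), (∀ i, Compat Γ χ b (z i)) ∧
    ∀ m : ℤ, ‖u m - ∑ i, c i * ((z i ^ m : Circle) : ℂ)‖ ≤ ε

end

end Pool.Agent.TH296.NC
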