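import Pool.Agent.TH296.NC.Key

set_option autoImplicit false

/-!
# MP_fc4783_an: Fourier transforms of the weights
-/

open Filter Topology Finset
open scoped ComplexConjugate

namespace Pool.Agent.TH296.NC

/-- real coefficients of the Fejer kernel -/
noncomputable def fr (B : ℕ) (b : ℤ) : ℝ := max 0 (1 - |(b : ℝ)| / B)

theorem fc_eq (B : ℕ) (b : ℤ) : fc B b = (fr B b : ℂ) := rfl

theorem fr_nonneg (B : ℕ) (b : ℤ) : 0 ≤ fr B b := le_max_left _ _

theorem fr_le_one (B : ℕ) (b : ℤ) : fr B b ≤ 1 := by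
  apply max_le (by norm_num)
  have : 0 ≤ |(b : ℝ)| / B := by positivity
  linarith

/-- Fourier transform of the weight `WW` along the windows -/
noncomputable def MM (ζ : ℕ → Circle) (N : ℕ → ℕ) (B : ℕ → ℕ) (d : ℕ) (z : Circle) : ℝ :=
  ∑ b ∈ box d (fun i => B i - 1), (∏ i ∈ range d, fr (B i) (b i)) * FN (N d) (lam ζ d b * z)

theorem WW_nonneg (ζ : ℕ → Circle) (B : ℕ → ℕ) (d : ℕ) (n : ℤ) : 0 ≤ WW ζ B d n :=
  prod_nonneg fun _ _ => fej_nonneg _ _

theorem WW_eq_tp (ζ : ℕ → Circle) (B : ℕ → ℕ) (hB : ∀ i, 1 ≤ B i) (d : ℕ) (n : ℤ) :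
    (WW ζ B d n : ℂ) = ∏ i ∈ range d, tp (B i - 1) (fc (B i)) (ζ i ^ n) := by
  unfold WW
  rw [Complex.ofReal_prod]
  exact prod_congr rfl fun i _ => fej_eq_tp (hB i) _

theorem Av_WW (ζ : ℕ → Circle) (N : ℕ → ℕ) (B : ℕ → ℕ) (hB : ∀ i, 1 ≤ B i) (d : ℕ) (z : Circle) :
    Av (N d) (fun n : ℤ => (WW ζ B d n : ℂ) * ((z ^ n : Circle) : ℂ)) = (MM ζ N B d z : ℂ) := by
  have : (fun n : ℤ => (WW ζ B d n : ℂ) * ((z ^ n : Circle) : ℂ)) =
      fun n : ℤ => (∏ i ∈ range d, tp (B i - 1) (fc (B i)) (ζ i ^ n)) * ((z ^ n : Circle) : ℂ) := by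
    funext n; rw [WW_eq_tp ζ B hB]
  rw [this, Av_prod_tp (N d) d (fun i => B i - 1) (fun i => fc (B i)) ζ z]
  unfold MM
  rw [Complex.ofReal_sum]
  refine sum_congr rfl fun b _ => ?_
  rw [Complex.ofReal_mul, Complex.ofReal_prod]
  rfl

theorem MM_nonneg (ζ : ℕ → Circle) (N : ℕ → ℕ) (B : ℕ → ℕ) (d : ℕ) (z : Circle) :
    0 ≤ MM ζ N B d z :=
  sum_nonneg fun _ _ => mul_nonneg (prod_nonneg fun _ _ => fr_nonneg _ _) (FN_nonneg _ _)

theorem norm_mul_sub (x y : Circle) : ‖(x : ℂ) - 1‖ ≤ ‖((x * y : Circle) : ℂ) - 1‖ + ‖(y : ℂ) - 1‖ := by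
  have e : (x : ℂ) - 1 = (((x * y : Circle) : ℂ) - 1) - (x : ℂ) * ((y : ℂ) - 1) := by
    rw [Circle.coe_mul]; ring
  rw [e]
  refine (norm_sub_le _ _).trans ?_
  rw [norm_mul, Circle.norm_coe, one_mul]

section

variable {R : ℕ → ℕ} {s : ℕ → ℝ} {ζ : ℕ → Circle} {N : ℕ → ℕ} {σ : ℕ → ℝ} {B : ℕ → ℕ} {q : ℕ}

theorem N_zeta_pow (h : Adm R s ζ N σ) {d : ℕ} (hq : q ≤ d) {b : ℤ} (hb : |b| ≤ q * R d) :
    N d * ‖((ζ d ^ b : Circle) : ℂ) - 1‖ ≤ (2 : ℝ)⁻¹ ^ d := by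
  have h1 := N_R_zeta h d
  have h2 := norm_zpow_sub_one_le (ζ d) b
  have h3 : |(b : ℝ)| ≤ ((d : ℝ) + 1) * R d := by
    have e1 : |(b : ℝ)| ≤ q * R d := by exact_mod_cast hb
    have e2 : (q : ℝ) ≤ d + 1 := by
      have : (q : ℝ) ≤ d := by exact_mod_cast hq
      linarith
    calc |(b : ℝ)| ≤ q * R d := e1
      _ ≤ _ := by gcongr
  have h4 : (2 : ℝ)⁻¹ ^ d * s d ≤ (2 : ℝ)⁻¹ ^ d := by
    have := h.s_le d
    have h0 : (0 : ℝ) ≤ (2 : ℝ)⁻¹ ^ d := by positivity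
    nlinarith
  calc N d * ‖((ζ d ^ b : Circle) : ℂ) - 1‖ ≤ N d * (|(b : ℝ)| * ‖((ζ d : Circle) : ℂ) - 1‖) := by
        gcongr
    _ ≤ N d * (((d : ℝ) + 1) * R d * ‖((ζ d : Circle) : ℂ) - 1‖) := by gcongr
    _ ≤ _ := h1.trans h4

theorem N_rad_succ (h : Adm R s ζ N σ) (d : ℕ) : N d * rad σ (d + 1) ≤ (2 : ℝ)⁻¹ ^ d / 4 := by
  have h1 := rad_le h (d + 1)
  have h2 := sigma_succ_le h d
  have h3 := N_zeta h d
  have h4 : (2 : ℝ)⁻¹ ^ d * s d ≤ (2 : ℝ)⁻¹ ^ d := by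
    have := h.s_le d
    have h0 : (0 : ℝ) ≤ (2 : ℝ)⁻¹ ^ d := by positivity
    nlinarith
  have h5 : rad σ (d + 1) ≤ ‖((ζ d : Circle) : ℂ) - 1‖ / 4 := by linarith
  calc N d * rad σ (d + 1) ≤ N d * (‖((ζ d : Circle) : ℂ) - 1‖ / 4) := by gcongr
    _ = N d * ‖((ζ d : Circle) : ℂ) - 1‖ / 4 := by ring
    _ ≤ _ := by linarith

/-- a resonance at level `d + 1` gives one at level `d` -/
theorem step_close (h : Adm R s ζ N σ) {d : ℕ} (hq : q ≤ d) {b : ℕ → ℤ} (hb : |b d| ≤ q * R d)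
    {z : Circle} (hres : ‖((lam ζ (d + 1) b * z : Circle) : ℂ) - 1‖ < rad σ (d + 1)) :
    N d * ‖((lam ζ d b * z : Circle) : ℂ) - 1‖ ≤ (5 / 4) * (2 : ℝ)⁻¹ ^ d := by
  have h1 := norm_mul_sub (lam ζ d b * z) (ζ d ^ b d)
  have e : lam ζ d b * z * ζ d ^ b d = lam ζ (d + 1) b * z := by rw [lam_succ, mul_right_comm]
  rw [e] at h1
  have h2 := N_zeta_pow h hq hb
  have h3 := N_rad_succ h d
  have hN : (0 : ℝ) < N d := by exact_mod_cast h.N_pos d
  calc N d * ‖((lam ζ d b * z : Circle) : ℂ) - 1‖ ≤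
      N d * (rad σ (d + 1) + ‖((ζ d ^ b d : Circle) : ℂ) - 1‖) := by
        gcongr; linarith
    _ ≤ _ := by rw [mul_add]; linarith

theorem MM_succ_le (h : Adm R s ζ N σ) (hB1 : ∀ i, 1 ≤ B i) (hB : ∀ i, B i ≤ q * R i) {d : ℕ}
    (hq : q ≤ d) (z : Circle) : MM ζ N B (d + 1) z ≤ MM ζ N B d z + 3 * (2 : ℝ)⁻¹ ^ d := by
  have hE : ∀ i, B i - 1 ≤ q * R i := fun i => (Nat.sub_le _ _).trans (hB i)
  have hc : ∀ (i : ℕ) (b : ℤ), ‖fc (B i) b‖ ≤ 1 := fun i b => norm_fc_le _ _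
  have hq' : q ≤ d + 1 := by omega
  have hsmall : (4 : ℝ)⁻¹ ^ (d + 1 + 1) ≤ (2 : ℝ)⁻¹ ^ d / 16 := by
    have e : (4 : ℝ)⁻¹ ^ (d + 1 + 1) = (4 : ℝ)⁻¹ ^ d / 16 := by
      rw [pow_succ, pow_succ]; ring
    rw [e]
    have : (4 : ℝ)⁻¹ ^ d ≤ (2 : ℝ)⁻¹ ^ d := by
      apply pow_le_pow_left₀ (by norm_num); norm_num
    linarith
  have hpos : (0 : ℝ) < (2 : ℝ)⁻¹ ^ d := by positivity
  have hAv : Av (N (d + 1)) (fun n : ℤ => (∏ i ∈ range (d + 1), tp (B i - 1) (fc (B i)) (ζ i ^ n)) *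
      ((z ^ n : Circle) : ℂ)) = (MM ζ N B (d + 1) z : ℂ) := by
    rw [← Av_WW ζ N B hB1]
    congr 1
    funext n; rw [WW_eq_tp ζ B hB1]
  by_cases hno : ∀ b ∈ box (d + 1) (fun i => B i - 1),
      rad σ (d + 1) ≤ ‖((lam ζ (d + 1) b * z : Circle) : ℂ) - 1‖
  · have h1 := key_nonres h hq' hE hc z hno
    rw [hAv, Complex.norm_real] at h1
    have h2 := le_abs_self (MM ζ N B (d + 1) z)
    have h3 := MM_nonneg ζ N B d z
    rw [Real.norm_eq_abs] at h1
    linarith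
  · push Not at hno
    obtain ⟨b, hb, hlt⟩ := hno
    have h1 := key_res h hq' hE hc z hb (hlt.trans (rad_lt_half h (d + 1)))
    rw [hAv] at h1
    have e1 : (∏ i ∈ range (d + 1), fc (B i) (b i)) *
        (FN (N (d + 1)) (lam ζ (d + 1) b * z) : ℂ) =
        (((∏ i ∈ range (d + 1), fr (B i) (b i)) * FN (N (d + 1)) (lam ζ (d + 1) b * z) : ℝ) : ℂ) := by
      rw [Complex.ofReal_mul, Complex.ofReal_prod]; rfl
    rw [e1, ← Complex.ofReal_sub, Complex.norm_real, Real.norm_eq_abs] at h1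
    have h2 := (abs_le.mp h1).2
    set p : ℝ := ∏ i ∈ range d, fr (B i) (b i) with hp
    have hp0 : 0 ≤ p := prod_nonneg fun _ _ => fr_nonneg _ _
    have hp1 : p ≤ 1 := prod_le_one (fun _ _ => fr_nonneg _ _) fun _ _ => fr_le_one _ _
    have h3 : (∏ i ∈ range (d + 1), fr (B i) (b i)) * FN (N (d + 1)) (lam ζ (d + 1) b * z) ≤ p := by
      rw [prod_range_succ, ← hp]
      have f1 := fr_le_one (B d) (b d)
      have f0 := fr_nonneg (B d) (b d)
      have g1 := FN_le_one (N (d + 1)) (lam ζ (d + 1) b * z)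
      have g0 := FN_nonneg (N (d + 1)) (lam ζ (d + 1) b * z)
      calc p * fr (B d) (b d) * FN (N (d + 1)) (lam ζ (d + 1) b * z) ≤ p * 1 * 1 := by
            gcongr
        _ = p := by ring
    -- the truncated exponent
    have hm := mem_box.mp hb
    set b' : ℕ → ℤ := fun i => if i < d then b i else 0 with hb'
    have hb'box : b' ∈ box d (fun i => B i - 1) := by
      rw [mem_box]
      refine ⟨fun i hi => ?_, fun i hi => ?_⟩
      · simp only [hb', hi, if_true]; exact hm.1 i (by omega)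
      · simp [hb', not_lt.mpr hi]
    have hlam : lam ζ d b' = lam ζ d b := lam_congr fun i hi => by simp [hb', hi]
    have hfr : ∏ i ∈ range d, fr (B i) (b' i) = p := by
      rw [hp]; exact prod_congr rfl fun i hi => by simp [hb', mem_range.mp hi]
    have h4 : p * FN (N d) (lam ζ d b * z) ≤ MM ζ N B d z := by
      unfold MM
      have := single_le_sum (f := fun b : ℕ → ℤ => (∏ i ∈ range d, fr (B i) (b i)) *
        FN (N d) (lam ζ d b * z)) (fun b _ => mul_nonneg (prod_nonneg fun _ _ => fr_nonneg _ _)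
          (FN_nonneg _ _)) hb'box
      rwa [hlam, hfr] at this
    have hbd : |b d| ≤ q * R d := by
      have := hm.1 d (Nat.lt_succ_self d)
      exact this.trans (by exact_mod_cast hE d)
    have h5 := step_close h hq hbd hlt
    have h6 := FN_ge (N d) (h.N_pos d) (lam ζ d b * z)
    have h7 : p * (1 - 2 * ((5 / 4) * (2 : ℝ)⁻¹ ^ d)) ≤ p * FN (N d) (lam ζ d b * z) := by
      apply mul_le_mul_of_nonneg_left _ hp0
      linarith
    have h8 : p * (2 * ((5 / 4) * (2 : ℝ)⁻¹ ^ d)) ≤ 1 * (2 * ((5 / 4) * (2 : ℝ)⁻¹ ^ d)) := by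
      gcongr
    nlinarith

theorem tendsto_MM (h : Adm R s ζ N σ) (hB1 : ∀ i, 1 ≤ B i) (hB : ∀ i, B i ≤ q * R i)
    (z : Circle) : ∃ L : ℝ, 0 ≤ L ∧ Tendsto (fun d => MM ζ N B d z) atTop (𝓝 L) := by
  have hanti : Antitone (fun d : ℕ => MM ζ N B (d + q) z + 6 * (2 : ℝ)⁻¹ ^ (d + q)) := by
    apply antitone_nat_of_succ_le
    intro d
    have h1 := MM_succ_le h hB1 hB (d := d + q) (by omega) z
    have e : d + 1 + q = d + q + 1 := by omega
    rw [e, pow_succ]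
    linarith
  have hbdd : BddBelow (Set.range (fun d : ℕ => MM ζ N B (d + q) z + 6 * (2 : ℝ)⁻¹ ^ (d + q))) := by
    refine ⟨0, ?_⟩
    rintro _ ⟨d, rfl⟩
    have := MM_nonneg ζ N B (d + q) z
    simp only
    positivity
  have h1 := tendsto_atTop_ciInf hanti hbdd
  set L := ⨅ d : ℕ, MM ζ N B (d + q) z + 6 * (2 : ℝ)⁻¹ ^ (d + q) with hL
  have h2 : Tendsto (fun d : ℕ => 6 * (2 : ℝ)⁻¹ ^ (d + q)) atTop (𝓝 (6 * 0)) := by
    apply Tendsto.const_mul
    exact (tendsto_pow_atTop_nhds_zero_of_lt_one (by norm_num) (by norm_num)).comp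
      (tendsto_add_atTop_nat q)
  have h3 : Tendsto (fun d : ℕ => MM ζ N B (d + q) z) atTop (𝓝 L) := by
    have := h1.sub h2
    simpa using this
  have h4 : Tendsto (fun d => MM ζ N B d z) atTop (𝓝 L) :=
    (tendsto_add_atTop_iff_nat q).mp h3
  exact ⟨L, ge_of_tendsto' h4 fun d => MM_nonneg ζ N B d z, h4⟩

/-- if the Fourier transforms do not tend to zero, there is a resonance -/
theorem exists_reson (h : Adm R s ζ N σ) (hB1 : ∀ i, 1 ≤ B i) (hB : ∀ i, B i ≤ q * R i)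
    (z : Circle) (hnot : ¬ Tendsto (fun d => MM ζ N B d z) atTop (𝓝 0)) :
    ∃ b : ℕ → ℤ, (∀ i, |b i| ≤ ((B i - 1 : ℕ) : ℤ)) ∧
      ∀ᶠ d in atTop, ‖((lam ζ d b * z : Circle) : ℂ) - 1‖ < rad σ d := by
  obtain ⟨L, hL0, hL⟩ := tendsto_MM h hB1 hB z
  have hLpos : 0 < L := by
    rcases hL0.lt_or_eq with h1 | h1
    · exact h1
    · exact absurd (h1 ▸ hL) hnot
  have hE : ∀ i, B i - 1 ≤ q * R i := fun i => (Nat.sub_le _ _).trans (hB i)
  have hc : ∀ (i : ℕ) (b : ℤ), ‖fc (B i) b‖ ≤ 1 := fun i b => norm_fc_le _ _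
  have h4 : Tendsto (fun d : ℕ => (4 : ℝ)⁻¹ ^ (d + 1)) atTop (𝓝 0) :=
    (tendsto_pow_atTop_nhds_zero_of_lt_one (by norm_num) (by norm_num)).comp
      (tendsto_add_atTop_nat 1)
  have h5 : ∀ᶠ d in atTop, (4 : ℝ)⁻¹ ^ (d + 1) < MM ζ N B d z := h4.eventually_lt hL hLpos
  obtain ⟨d₀, hd₀⟩ := (h5.and (eventually_ge_atTop q)).exists_forall_of_atTop
  have hres : ∀ d, d₀ ≤ d → ∃ b ∈ box d (fun i => B i - 1),
      ‖((lam ζ d b * z : Circle) : ℂ) - 1‖ < rad σ d := by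
    intro d hd
    by_contra hno
    push Not at hno
    have h1 := key_nonres h (hd₀ d hd).2 hE hc z hno
    have hAv : Av (N d) (fun n : ℤ => (∏ i ∈ range d, tp (B i - 1) (fc (B i)) (ζ i ^ n)) *
        ((z ^ n : Circle) : ℂ)) = (MM ζ N B d z : ℂ) := by
      rw [← Av_WW ζ N B hB1]
      congr 1
      funext n; rw [WW_eq_tp ζ B hB1]
    rw [hAv, Complex.norm_real, Real.norm_of_nonneg (MM_nonneg _ _ _ _ _)] at h1
    exact absurd h1 (not_le.mpr (hd₀ d hd).1)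
  choose! bb hbb hbr using hres
  have hcons : ∀ d, d₀ ≤ d → ∀ i < d, bb (d + 1) i = bb d i := by
    intro d hd
    have hqd := (hd₀ d hd).2
    have m1 := mem_box.mp (hbb (d + 1) (by omega))
    have m0 := mem_box.mp (hbb d hd)
    refine res_unique h hqd (z := z) ?_ ?_ ?_ ?_
    · intro i hi
      exact (m1.1 i (by omega)).trans (by exact_mod_cast hE i)
    · intro i hi
      exact (m0.1 i hi).trans (by exact_mod_cast hE i)
    · have hbd : |bb (d + 1) d| ≤ q * R d :=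
        (m1.1 d (Nat.lt_succ_self d)).trans (by exact_mod_cast hE d)
      have h6 := step_close h hqd hbd (hbr (d + 1) (by omega))
      have hN : (0 : ℝ) < N d := by exact_mod_cast h.N_pos d
      have h7 := h.N_large d
      have h8 : (16 : ℝ) ≤ N d * σ d := by
        refine le_trans ?_ h7
        have c1 : (1 : ℝ) ≤ ((d : ℝ) + 1) ^ 2 := by
          have : (0 : ℝ) ≤ d := by positivity
          nlinarith
        have c2 : (16 : ℝ) ≤ 2 ^ (d + 4) := by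
          have : (2 : ℝ) ^ (d + 4) = 2 ^ d * 16 := by ring
          rw [this]
          have : (1 : ℝ) ≤ 2 ^ d := one_le_pow₀ (by norm_num)
          linarith
        have c3 := cnt_one_le R d
        calc (16 : ℝ) = 1 * 16 * 1 := by norm_num
          _ ≤ ((d : ℝ) + 1) ^ 2 * 2 ^ (d + 4) * cnt R d := by gcongr
      have h9 : (2 : ℝ)⁻¹ ^ d ≤ 1 := pow_le_one₀ (by norm_num) (by norm_num)
      have h10 : N d * ‖((lam ζ d (bb (d + 1)) * z : Circle) : ℂ) - 1‖ < N d * (σ d / 2) := by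
        nlinarith
      exact lt_of_mul_lt_mul_left h10 hN.le
    · exact (hbr d hd).trans (rad_lt_half h d)
  set b : ℕ → ℤ := fun i => bb (max d₀ (i + 1)) i with hbdef
  have hstable : ∀ i d, max d₀ (i + 1) ≤ d → bb d i = b i := by
    intro i d hd
    induction d, hd using Nat.le_induction with
    | base => rfl
    | succ n hn ih =>
      rw [hcons n (le_trans (le_max_left _ _) hn) i
        (lt_of_lt_of_le (Nat.lt_succ_self i) (le_trans (le_max_right _ _) hn)), ih]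
  refine ⟨b, fun i => ?_, ?_⟩
  · have m := mem_box.mp (hbb (max d₀ (i + 1)) (le_max_left _ _))
    exact m.1 i (lt_of_lt_of_le (Nat.lt_succ_self i) (le_max_right _ _))
  · filter_upwards [eventually_ge_atTop d₀] with d hd
    have : lam ζ d b = lam ζ d (bb d) := lam_congr fun i hi =>
      (hstable i d (max_le hd hi)).symm
    rw [this]
    exact hbr d hd

/-- resonance data -/
def Reson (R : ℕ → ℕ) (ζ : ℕ → Circle) (σ : ℕ → ℝ) (w : Circle) (b : ℕ → ℤ) : Prop :=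
  (∃ q : ℕ, ∀ i, |b i| ≤ q * R i) ∧
    ∀ᶠ d in atTop, ‖((lam ζ d b * w : Circle) : ℂ) - 1‖ < rad σ d

theorem norm_prod_sub_one_le {ι : Type*} (S : Finset ι) (x : ι → Circle) :
    ‖((∏ i ∈ S, x i : Circle) : ℂ) - 1‖ ≤ ∑ i ∈ S, ‖(x i : ℂ) - 1‖ := by
  classical
  induction S using Finset.induction_on with
  | empty => simp
  | insert a S ha ih =>
    rw [prod_insert ha, sum_insert ha]
    have e : ((x a * ∏ i ∈ S, x i : Circle) : ℂ) - 1 =
        (x a : ℂ) * (((∏ i ∈ S, x i : Circle) : ℂ) - 1) + ((x a : ℂ) - 1) := by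
      rw [Circle.coe_mul]; ring
    rw [e]
    refine (norm_add_le _ _).trans ?_
    rw [norm_mul, Circle.norm_coe, one_mul]
    linarith

theorem lam_sum {ι : Type*} (S : Finset ι) (ζ : ℕ → Circle) (d : ℕ) (g : ι → ℤ)
    (b : ι → ℕ → ℤ) : lam ζ d (fun i => ∑ j ∈ S, g j * b j i) = ∏ j ∈ S, lam ζ d (b j) ^ g j := by
  unfold lam
  simp only [← prod_zpow]
  rw [Finset.prod_comm]
  refine prod_congr rfl fun i _ => ?_
  have hs : ∀ (T : Finset ι) (f : ι → ℤ), ζ i ^ (∑ j ∈ T, f j) = ∏ j ∈ T, ζ i ^ f j := by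
    classical
    intro T f
    induction T using Finset.induction_on with
    | empty => simp
    | insert a T ha ih => rw [sum_insert ha, prod_insert ha, zpow_add, ih]
  rw [hs]
  refine prod_congr rfl fun j _ => ?_
  rw [← zpow_mul, mul_comm]

/-- a combination of resonances with trivial product vanishes -/
theorem reson_zero (h : Adm R s ζ N σ) {ι : Type*} (S : Finset ι) (g : ι → ℤ) (b : ι → ℕ → ℤ)
    (w : ι → Circle) (hr : ∀ j ∈ S, Reson R ζ σ (w j) (b j)) (hw : ∏ j ∈ S, w j ^ g j = 1) :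
    (fun i => ∑ j ∈ S, g j * b j i) = 0 := by
  classical
  have hq : ∀ j, ∃ q : ℕ, j ∈ S → ∀ i, |b j i| ≤ q * R i := by
    intro j
    by_cases hj : j ∈ S
    · obtain ⟨q, hq⟩ := (hr j hj).1
      exact ⟨q, fun _ => hq⟩
    · exact ⟨0, fun h => absurd h hj⟩
  choose q hq using hq
  set Q : ℕ := ∑ j ∈ S, (g j).natAbs * q j with hQ
  set A : ℝ := ∑ j ∈ S, |(g j : ℝ)| with hA
  have hbound : ∀ i, |∑ j ∈ S, g j * b j i| ≤ (Q * R i : ℕ) := by
    intro i
    refine (abs_sum_le_sum_abs _ _).trans ?_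
    rw [hQ, sum_mul]
    push_cast
    apply sum_le_sum
    intro j hj
    rw [abs_mul, mul_assoc]
    gcongr
    exact hq j hj i
  have hev : ∀ᶠ d in atTop, ∀ i < d, ∑ j ∈ S, g j * b j i = 0 := by
    have h1 : ∀ᶠ d in atTop, ∀ j ∈ S, ‖((lam ζ d (b j) * w j : Circle) : ℂ) - 1‖ < rad σ d := by
      rw [Filter.eventually_all_finset]
      intro j hj; exact (hr j hj).2
    have h2 : ∀ᶠ d : ℕ in atTop, A < 4 * ((d : ℝ) + 1) ^ 2 := by
      filter_upwards [eventually_ge_atTop (Nat.ceil A)] with d hd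
      have e1 : A ≤ d := (Nat.le_ceil A).trans (by exact_mod_cast hd)
      have e2 : (0 : ℝ) ≤ d := by positivity
      nlinarith
    filter_upwards [h1, h2, eventually_ge_atTop Q] with d h1 h2 h3
    by_contra hne
    push Not at hne
    obtain ⟨i, hi, hne⟩ := hne
    have hsep := h.sep d (fun i => ∑ j ∈ S, g j * b j i) ⟨i, hi, hne⟩ (by
      intro i hi
      refine (hbound i).trans ?_
      have : Q * R i ≤ (d + 1) ^ 2 * R i := by
        apply Nat.mul_le_mul_right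
        nlinarith
      exact_mod_cast this)
    have e1 : lam ζ d (fun i => ∑ j ∈ S, g j * b j i) = ∏ j ∈ S, (lam ζ d (b j) * w j) ^ g j := by
      rw [lam_sum]
      have : ∏ j ∈ S, (lam ζ d (b j) * w j) ^ g j =
          (∏ j ∈ S, lam ζ d (b j) ^ g j) * ∏ j ∈ S, w j ^ g j := by
        rw [← prod_mul_distrib]
        exact prod_congr rfl fun j _ => mul_zpow _ _ _
      rw [this, hw, mul_one]
    rw [e1] at hsep
    have h4 := norm_prod_sub_one_le S (fun j => (lam ζ d (b j) * w j) ^ g j)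
    have h5 : ∀ j ∈ S, ‖(((lam ζ d (b j) * w j) ^ g j : Circle) : ℂ) - 1‖ ≤
        |(g j : ℝ)| * rad σ d := by
      intro j hj
      refine (norm_zpow_sub_one_le _ _).trans ?_
      have := (h1 j hj).le
      gcongr
    have h6 := h4.trans (sum_le_sum h5)
    rw [← sum_mul, ← hA] at h6
    have hσ := h.σ_pos d
    have h7 : A * rad σ d < σ d := by
      unfold rad
      rw [mul_div_assoc', div_lt_iff₀ (by positivity)]
      nlinarith
    linarith
  funext i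
  obtain ⟨d, hd⟩ := (hev.and (eventually_gt_atTop i)).exists
  exact hd.1 i hd.2

end

end Pool.Agent.TH296.NC
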