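import Pool.Agent.TH296.NC.Equi

set_option autoImplicit false

/-!
# MP_fc4783_an: finitely generated groups of frequencies
-/

open Filter Topology Finset
open scoped ComplexConjugate

namespace Pool.Agent.TH296.NC

theorem mem_closure_range {l : ℕ} (z : Fin l → Circle) {w : Circle}
    (hw : w ∈ Subgroup.closure (Set.range z)) : ∃ t : Fin l → ℤ, w = ∏ i, z i ^ t i := by
  induction hw using Subgroup.closure_induction with
  | mem x hx =>
    obtain ⟨i, rfl⟩ := hx
    refine ⟨fun j => if j = i then 1 else 0, ?_⟩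
    rw [Finset.prod_eq_single i]
    · simp
    · intro j _ hj; simp [hj]
    · intro h; exact absurd (mem_univ i) h
  | one => exact ⟨0, by simp⟩
  | mul x y _ _ hx hy =>
    obtain ⟨t, rfl⟩ := hx
    obtain ⟨t', rfl⟩ := hy
    refine ⟨t + t', ?_⟩
    rw [← prod_mul_distrib]
    exact prod_congr rfl fun i _ => (zpow_add _ _ _).symm
  | inv x _ hx =>
    obtain ⟨t, rfl⟩ := hx
    refine ⟨-t, ?_⟩
    rw [← prod_inv_distrib]
    exact prod_congr rfl fun i _ => (zpow_neg _ _).symm

/-- `l + 1` elements of a group with `l` generators are dependent -/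
theorem exists_relation {l : ℕ} (z : Fin l → Circle) (w : Fin (l + 1) → Circle)
    (hw : ∀ j, w j ∈ Subgroup.closure (Set.range z)) :
    ∃ g : Fin (l + 1) → ℤ, (∃ j, g j ≠ 0) ∧ ∏ j, w j ^ g j = 1 := by
  choose t ht using fun j => mem_closure_range z (hw j)
  have hli : ¬ LinearIndependent ℤ t := by
    intro hli
    have h1 := hli.fintype_card_le_finrank
    simp at h1
  rw [Fintype.not_linearIndependent_iff] at hli
  obtain ⟨g, hg, hj⟩ := hli
  refine ⟨g, hj, ?_⟩
  have e1 : ∏ j, w j ^ g j = ∏ i, z i ^ (∑ j, g j • t j) i := by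
    have hs : ∀ (x : Circle) (T : Finset (Fin (l + 1))) (f : Fin (l + 1) → ℤ),
        x ^ (∑ j ∈ T, f j) = ∏ j ∈ T, x ^ f j := by
      classical
      intro x T f
      induction T using Finset.induction_on with
      | empty => simp
      | insert a T ha ih => rw [sum_insert ha, prod_insert ha, zpow_add, ih]
    have e2 : ∀ j, w j ^ g j = ∏ i, z i ^ (g j * t j i) := by
      intro j
      conv_lhs => rw [ht j]
      rw [← prod_zpow]
      refine prod_congr rfl fun i _ => ?_
      rw [← zpow_mul, mul_comm]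
    rw [prod_congr rfl fun j _ => e2 j, Finset.prod_comm]
    refine prod_congr rfl fun i _ => ?_
    rw [← hs]
    congr 1
    rw [Finset.sum_apply]
    rfl
  rw [e1, hg]
  simp

section

variable {R : ℕ → ℕ} {s : ℕ → ℝ} {ζ : ℕ → Circle} {N : ℕ → ℕ} {σ : ℕ → ℝ}

theorem sigma_le_two (h : Adm R s ζ N σ) {d : ℕ} (hd : 1 ≤ d) : σ d ≤ 2 := by
  have h2 := h.sep d (fun i => if i = 0 then 1 else 0) ⟨0, hd, by simp⟩ (by
    intro i hi
    have hR := h.R_pos i
    have : (1 : ℤ) ≤ (((d + 1) ^ 2 * R i : ℕ) : ℤ) := by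
      have : 1 ≤ (d + 1) ^ 2 * R i := Nat.mul_pos (by positivity) hR
      exact_mod_cast this
    split_ifs with hi
    · simpa using this
    · simp)
  refine h2.trans ((norm_sub_le _ _).trans ?_)
  rw [Circle.norm_coe]; norm_num

theorem rad_tendsto (h : Adm R s ζ N σ) : Tendsto (rad σ) atTop (𝓝 0) := by
  have h1 : Tendsto (fun d : ℕ => (1 : ℝ) / ((d : ℝ) + 1)) atTop (𝓝 0) :=
    tendsto_one_div_add_atTop_nhds_zero_nat
  apply squeeze_zero' _ _ h1
  · exact Eventually.of_forall fun d => (rad_pos h d).le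
  · filter_upwards [eventually_ge_atTop 1] with d hd
    have h2 := sigma_le_two h hd
    unfold rad
    have hd0 : (0 : ℝ) ≤ d := by positivity
    rw [div_le_div_iff₀ (by positivity) (by positivity)]
    have := h.σ_pos d
    nlinarith [mul_nonneg hd0 hd0]

theorem reson_zero_eq_one (h : Adm R s ζ N σ) {w : Circle}
    (hr : ∀ᶠ d in atTop, ‖((lam ζ d 0 * w : Circle) : ℂ) - 1‖ < rad σ d) : w = 1 := by
  have h1 : ‖(w : ℂ) - 1‖ ≤ 0 := by
    apply ge_of_tendsto (rad_tendsto h)
    filter_upwards [hr] with d hd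
    rw [lam_zero, one_mul] at hd
    exact hd.le
  have h2 : (w : ℂ) = 1 := by
    have := norm_le_zero_iff.mp h1
    exact sub_eq_zero.mp this
  exact Circle.coe_injective (by rw [h2, Circle.coe_one])

/-- Beyond some index the frequencies do not resonate with a given finitely generated group. -/
theorem exists_i0 (h : Adm R s ζ N σ) {l : ℕ} (z : Fin l → Circle) :
    ∃ i₀ : ℕ, ∀ (q : ℕ) (B : ℕ → ℕ), (∀ i, 1 ≤ B i) → (∀ i, B i ≤ q * R i) →
      (∀ i < i₀, B i = 1) → ∀ w ∈ Subgroup.closure (Set.range z), w ≠ 1 →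
      Tendsto (fun d => MM ζ N B d w) atTop (𝓝 0) := by
  by_contra hcon
  push Not at hcon
  have key : ∀ i₀ : ℕ, ∃ (w : Circle) (b : ℕ → ℤ) (m : ℕ), w ∈ Subgroup.closure (Set.range z) ∧
      Reson R ζ σ w b ∧ i₀ ≤ m ∧ b m ≠ 0 ∧ ∀ i < m, b i = 0 := by
    intro i₀
    obtain ⟨q, B, hB1, hB, hB0, w, hw, hw1, hnot⟩ := hcon i₀
    obtain ⟨b, hb, hr⟩ := exists_reson h hB1 hB w hnot
    have hbne : ∃ m, b m ≠ 0 := by
      by_contra hz
      push Not at hz
      have hb0 : b = 0 := funext hz
      rw [hb0] at hr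
      exact hw1 (reson_zero_eq_one h hr)
    classical
    refine ⟨w, b, Nat.find hbne, hw, ⟨⟨q, fun i => ?_⟩, hr⟩, ?_, Nat.find_spec hbne, fun i hi => ?_⟩
    · exact (hb i).trans (by exact_mod_cast (Nat.sub_le _ _).trans (hB i))
    · by_contra hlt
      push Not at hlt
      have h1 := hb (Nat.find hbne)
      rw [hB0 _ hlt] at h1
      simp only [Nat.sub_self, Nat.cast_zero, abs_nonpos_iff] at h1
      exact Nat.find_spec hbne h1
    · by_contra hne
      exact Nat.find_min hbne hi hne
  choose wf bf mf hwf hrf hmf hbf hzf using key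
  -- successive leading indices
  set t : ℕ → ℕ := fun j => Nat.rec 0 (fun _ x => mf x + 1) j with ht
  have ht1 : ∀ j, t (j + 1) = mf (t j) + 1 := fun j => rfl
  have hmono : StrictMono (fun j => mf (t j)) := by
    apply strictMono_nat_of_lt_succ
    intro j
    have := hmf (t (j + 1))
    rw [ht1] at this
    rw [ht1]
    omega
  obtain ⟨g, ⟨j₁, hj₁⟩, hg⟩ := exists_relation z (fun j : Fin (l + 1) => wf (t j))
    (fun j => hwf _)
  have hz := reson_zero h univ g (fun j : Fin (l + 1) => bf (t j)) (fun j => wf (t j))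
    (fun j _ => hrf _) hg
  -- the first nonzero coefficient
  classical
  have hne : (univ.filter fun j : Fin (l + 1) => g j ≠ 0).Nonempty := ⟨j₁, by simp [hj₁]⟩
  obtain ⟨j₀, hj₀, hmin⟩ := (univ.filter fun j : Fin (l + 1) => g j ≠ 0).exists_min_image id hne
  have hmin' : ∀ j : Fin (l + 1), g j ≠ 0 → j₀ ≤ j := by
    intro j hj
    exact hmin j (by simp [hj])
  simp only [Finset.mem_filter, mem_univ, true_and] at hj₀
  have h0 := congrFun hz (mf (t j₀))
  simp only [Pi.zero_apply] at h0
  rw [Finset.sum_eq_single j₀] at h0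
  · rcases mul_eq_zero.mp h0 with h1 | h1
    · exact hj₀ h1
    · exact hbf _ h1
  · intro j _ hj
    by_cases hgj : g j = 0
    · rw [hgj, zero_mul]
    · have hlt : j₀ < j := lt_of_le_of_ne (hmin' j hgj) (Ne.symm hj)
      have : mf (t j₀) < mf (t j) := hmono (by exact_mod_cast hlt)
      rw [hzf _ _ this, mul_zero]
  · intro hh; exact absurd (mem_univ _) hh

end

end Pool.Agent.TH296.NC
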