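import Pool.Agent.TH296.NC.Equi2
import Pool.Agent.TH296.NC.Defs2
import Pool.Agent.TH286.NC.S1a
import Pool.Agent.TH286.NC.S1b
import Pool.Agent.TH617.NC.Group

set_option autoImplicit false

/-!
# MP_fc4783_an: finite rank of the frequencies of a nilmanifold of class two
-/

open Filter Topology Finset
open scoped ComplexConjugate commutatorElement Manifold ContDiff

namespace Pool.Agent.TH296.NC

/-! ### Resonances up to a constant -/

section

variable {R : ℕ → ℕ} {s : ℕ → ℝ} {ζ : ℕ → Circle} {N : ℕ → ℕ} {σ : ℕ → ℝ}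

/-- resonance up to a constant -/
def ResonC (R : ℕ → ℕ) (ζ : ℕ → Circle) (σ : ℕ → ℝ) (w : Circle) (b : ℕ → ℤ) : Prop :=
  (∃ q : ℕ, ∀ i, |b i| ≤ q * R i) ∧
    ∃ A : ℝ, ∀ᶠ d in atTop, ‖((lam ζ d b * w : Circle) : ℂ) - 1‖ ≤ A * rad σ d

theorem Reson.toC {w : Circle} {b : ℕ → ℤ} (h : Reson R ζ σ w b) : ResonC R ζ σ w b := by
  refine ⟨h.1, 1, ?_⟩
  filter_upwards [h.2] with d hd
  rw [one_mul]; exact hd.le

theorem ResonC.combo {ι : Type*} (S : Finset ι) (g : ι → ℤ) (b : ι → ℕ → ℤ)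
    (w : ι → Circle) (hr : ∀ j ∈ S, ResonC R ζ σ (w j) (b j)) :
    ResonC R ζ σ (∏ j ∈ S, w j ^ g j) (fun i => ∑ j ∈ S, g j * b j i) := by
  classical
  have hq : ∀ j, ∃ q : ℕ, j ∈ S → ∀ i, |b j i| ≤ q * R i := by
    intro j
    by_cases hj : j ∈ S
    · obtain ⟨q, hq⟩ := (hr j hj).1
      exact ⟨q, fun _ => hq⟩
    · exact ⟨0, fun h => absurd h hj⟩
  choose q hq using hq
  have hA : ∀ j, ∃ A : ℝ, j ∈ S → ∀ᶠ d in atTop,
      ‖((lam ζ d (b j) * w j : Circle) : ℂ) - 1‖ ≤ A * rad σ d := by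
    intro j
    by_cases hj : j ∈ S
    · obtain ⟨A, hA⟩ := (hr j hj).2
      exact ⟨A, fun _ => hA⟩
    · exact ⟨0, fun h => absurd h hj⟩
  choose A hA using hA
  refine ⟨⟨∑ j ∈ S, (g j).natAbs * q j, fun i => ?_⟩, ∑ j ∈ S, |(g j : ℝ)| * A j, ?_⟩
  · refine (abs_sum_le_sum_abs _ _).trans ?_
    push_cast
    rw [sum_mul]
    apply sum_le_sum
    intro j hj
    rw [abs_mul, mul_assoc]
    gcongr
    exact hq j hj i
  · have h1 : ∀ᶠ d in atTop, ∀ j ∈ S,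
        ‖((lam ζ d (b j) * w j : Circle) : ℂ) - 1‖ ≤ A j * rad σ d := by
      rw [Filter.eventually_all_finset]
      intro j hj; exact hA j hj
    filter_upwards [h1] with d h1
    have e1 : lam ζ d (fun i => ∑ j ∈ S, g j * b j i) * ∏ j ∈ S, w j ^ g j =
        ∏ j ∈ S, (lam ζ d (b j) * w j) ^ g j := by
      rw [lam_sum, ← prod_mul_distrib]
      exact prod_congr rfl fun j _ => (mul_zpow _ _ _).symm
    rw [e1, sum_mul]
    refine (norm_prod_sub_one_le S (fun j => (lam ζ d (b j) * w j) ^ g j)).trans ?_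
    apply sum_le_sum
    intro j hj
    refine (norm_zpow_sub_one_le _ _).trans ?_
    rw [mul_assoc]
    have := h1 j hj
    gcongr

theorem ResonC.zero (h : Adm R s ζ N σ) {b : ℕ → ℤ} (hr : ResonC R ζ σ 1 b) : b = 0 := by
  obtain ⟨⟨q, hq⟩, A, hA⟩ := hr
  have hev : ∀ᶠ d in atTop, ∀ i < d, b i = 0 := by
    have h2 : ∀ᶠ d : ℕ in atTop, A < 4 * ((d : ℝ) + 1) ^ 2 := by
      filter_upwards [eventually_ge_atTop (Nat.ceil A)] with d hd
      have e1 : A ≤ d := (Nat.le_ceil A).trans (by exact_mod_cast hd)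
      have e2 : (0 : ℝ) ≤ d := by positivity
      nlinarith
    filter_upwards [hA, h2, eventually_ge_atTop q] with d h1 h2 h3
    by_contra hne
    push Not at hne
    obtain ⟨i, hi, hne⟩ := hne
    have hsep := h.sep d b ⟨i, hi, hne⟩ (by
      intro i hi
      refine (hq i).trans ?_
      have : q * R i ≤ (d + 1) ^ 2 * R i := by
        apply Nat.mul_le_mul_right
        nlinarith
      exact_mod_cast this)
    rw [mul_one] at h1
    have hσ := h.σ_pos d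
    have h7 : A * rad σ d < σ d := by
      unfold rad
      rw [mul_div_assoc', div_lt_iff₀ (by positivity)]
      nlinarith
    linarith
  funext i
  obtain ⟨d, hd⟩ := (hev.and (eventually_gt_atTop i)).exists
  exact hd.1 i hd.2

end

/-! ### Leading indices -/

theorem lead_combo {r : ℕ} (b : Fin r → ℕ → ℤ) (m : Fin r → ℕ) (hm : StrictMono m)
    (hne : ∀ j, b j (m j) ≠ 0) (hz : ∀ j, ∀ i < m j, b j i = 0) (t : Fin r → ℤ) (ht : t ≠ 0) :
    ∃ j₀, (∑ j, t j * b j (m j₀)) ≠ 0 ∧ ∀ i < m j₀, ∑ j, t j * b j i = 0 := by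
  classical
  have hex : ∃ j, t j ≠ 0 := by
    by_contra hh; push Not at hh; exact ht (funext hh)
  obtain ⟨j₁, hj₁⟩ := hex
  have hnem : (univ.filter fun j : Fin r => t j ≠ 0).Nonempty := ⟨j₁, by simp [hj₁]⟩
  obtain ⟨j₀, hj₀, hmin⟩ := (univ.filter fun j : Fin r => t j ≠ 0).exists_min_image id hnem
  have hmin' : ∀ j : Fin r, t j ≠ 0 → j₀ ≤ j := fun j hj => hmin j (by simp [hj])
  simp only [Finset.mem_filter, mem_univ, true_and] at hj₀
  refine ⟨j₀, ?_, fun i hi => ?_⟩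
  · rw [Finset.sum_eq_single j₀]
    · exact mul_ne_zero hj₀ (hne j₀)
    · intro j _ hj
      by_cases hgj : t j = 0
      · rw [hgj, zero_mul]
      · have hlt : j₀ < j := lt_of_le_of_ne (hmin' j hgj) (Ne.symm hj)
        rw [hz _ _ (hm hlt), mul_zero]
    · intro hh; exact absurd (mem_univ _) hh
  · apply sum_eq_zero
    intro j _
    by_cases hgj : t j = 0
    · rw [hgj, zero_mul]
    · rw [hz _ _ (lt_of_lt_of_le hi (hm.monotone (hmin' j hgj))), mul_zero]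

theorem pick {X : Type*} (P : X → Prop) (lead : X → ℕ) (h : ∀ i₀ : ℕ, ∃ x, P x ∧ i₀ ≤ lead x)
    (i₀ r : ℕ) : ∃ f : Fin r → X, (∀ j, P (f j)) ∧ StrictMono (fun j => lead (f j)) ∧
      ∀ j, i₀ ≤ lead (f j) := by
  choose F hF hF' using h
  set t : ℕ → ℕ := fun j => Nat.rec i₀ (fun _ x => lead (F x) + 1) j with ht
  have ht1 : ∀ j, t (j + 1) = lead (F (t j)) + 1 := fun j => rfl
  have hmono : StrictMono (fun j => lead (F (t j))) := by
    apply strictMono_nat_of_lt_succ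
    intro j
    have := hF' (t (j + 1))
    rw [ht1] at this ⊢
    omega
  refine ⟨fun j => F (t j), fun j => hF _, fun j j' hjj => hmono (by exact_mod_cast hjj), fun j => ?_⟩
  have h0 : i₀ ≤ lead (F (t 0)) := hF' i₀
  exact h0.trans (hmono.monotone (Nat.zero_le _))

/-! ### Characters of subgroups of a Lie group -/

section

variable {E : Type*} [NormedAddCommGroup E] [NormedSpace ℝ E] [FiniteDimensional ℝ E]
  {G : Type*} [Group G] [TopologicalSpace G] [T2Space G] [ChartedSpace E G]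
  [LieGroup 𝓘(ℝ, E) ∞ G]

variable (E) in
theorem char_relation' (H : Subgroup G) {r : ℕ} (ξ : Fin r → G → Circle)
    (hmul : ∀ j, ∀ h ∈ H, ∀ h' ∈ H, ξ j (h * h') = ξ j h * ξ j h')
    (hcont : ∀ j, ContinuousOn (ξ j) (H : Set G))
    (C : Set G) (hC : IsCompact C) (hcov : ∀ h ∈ H, ∃ c ∈ C, c ∈ H ∧ ∀ j, ξ j c = ξ j h)
    (hr : Module.finrank ℝ E < r) :
    ∃ t : Fin r → ℤ, t ≠ 0 ∧ ∀ h ∈ H, ∏ j, ξ j h ^ t j = 1 :=
  Pool.Agent.TH286.NC.char_relation (E := E) H ξ hmul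
    (fun j c => Pool.Agent.TH286.NC.char_lipschitz (E := E) H (ξ j) (hmul j) (hcont j) c) C hC hcov hr

variable (E) in
theorem rel_HH [IsTopologicalGroup G] [LocallyCompactSpace G] (Γ : Subgroup G)
    [CompactSpace (G ⧸ Γ)] {r : ℕ} (χ : Fin r → G → Circle)
    (hcont : ∀ j, ContinuousOn (χ j) (HH G Γ : Set G))
    (hmul : ∀ j, ∀ h ∈ HH G Γ, ∀ h' ∈ HH G Γ, χ j (h * h') = χ j h * χ j h')
    (htriv : ∀ j, ∀ γ ∈ Γ, χ j γ = 1) (hr : Module.finrank ℝ E < r) :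
    ∃ t : Fin r → ℤ, t ≠ 0 ∧ ∀ h ∈ HH G Γ, ∏ j, χ j h ^ t j = 1 := by
  obtain ⟨C, hC, hrep⟩ := Pool.Agent.TH617.NC.exists_compact_rep Γ
  refine char_relation' E (HH G Γ) χ hmul hcont C hC (fun h hh => ?_) hr
  obtain ⟨c, hc, γ, hγ, rfl⟩ := hrep h
  have hγ' : γ ∈ HH G Γ := Pool.Agent.TH617.NC.le_HH Γ hγ
  have hcH : c ∈ HH G Γ := by
    have := (HH G Γ).mul_mem hh ((HH G Γ).inv_mem hγ')
    simpa using this
  refine ⟨c, hc, hcH, fun j => ?_⟩
  rw [hmul j c hcH γ hγ', htriv j γ hγ, mul_one]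

theorem circle_eq_one_of_le {z : Circle} (h : ∀ ε : ℝ, 0 < ε → ‖(z : ℂ) - 1‖ < ε) : z = 1 := by
  have h1 : ‖(z : ℂ) - 1‖ ≤ 0 := le_of_forall_pos_le_add fun ε hε => by
    rw [zero_add]; exact (h ε hε).le
  have h2 : (z : ℂ) = 1 := by
    have := norm_le_zero_iff.mp h1
    exact sub_eq_zero.mp this
  exact Circle.coe_injective (by rw [h2, Circle.coe_one])

variable (E) in
/-- frequencies compatible with the trivial character are dependent -/
theorem rel_circle [IsTopologicalGroup G] [LocallyCompactSpace G] (Γ : Subgroup G)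
    [CompactSpace (G ⧸ Γ)] (hcomm : ∀ x y : G, ⁅x, y⁆ ∈ Subgroup.center G) (b : G) {r : ℕ}
    (w : Fin r → Circle) (hw : ∀ j, Compat Γ (fun _ => 1) b (w j)) (hr : Module.finrank ℝ E < r) :
    ∃ t : Fin r → ℤ, t ≠ 0 ∧ ∏ j, w j ^ t j = 1 := by
  classical
  obtain ⟨C, hC, hrep⟩ := Pool.Agent.TH617.NC.exists_compact_rep Γ
  have hN : (HH G Γ).Normal := Pool.Agent.TH617.NC.HH_normal hcomm
  -- the subgroup generated by `b` and `HH`
  set H : Subgroup G := Subgroup.zpowers b ⊔ HH G Γ with hH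
  have hmem : ∀ g ∈ H, ∃ m : ℤ, ∃ k ∈ HH G Γ, g = b ^ m * k := by
    intro g hg
    have hg' : g ∈ ((Subgroup.zpowers b ⊔ HH G Γ : Subgroup G) : Set G) := hg
    rw [Subgroup.mul_normal] at hg'
    obtain ⟨y, hy, k, hk, rfl⟩ := Set.mem_mul.mp hg'
    obtain ⟨m, rfl⟩ := Subgroup.mem_zpowers_iff.mp hy
    exact ⟨m, k, hk, rfl⟩
  have hbH : ∀ m : ℤ, b ^ m ∈ H := fun m =>
    (le_sup_left : Subgroup.zpowers b ≤ H) (Subgroup.zpow_mem _ (Subgroup.mem_zpowers b) m)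
  have hHH : ∀ k ∈ HH G Γ, k ∈ H := fun k hk => (le_sup_right : HH G Γ ≤ H) hk
  have hpow : ∀ j, ∀ p : ℤ, b ^ p ∈ HH G Γ → w j ^ p = 1 := by
    intro j p hp
    apply circle_eq_one_of_le
    intro ε hε
    obtain ⟨U, hU, h1⟩ := hw j ε hε
    have := h1 p 1 (mem_of_mem_nhds hU) (b ^ p) hp (by rw [one_mul])
    simpa using this
  have hwd : ∀ j, ∀ m m' : ℤ, ∀ k ∈ HH G Γ, ∀ k' ∈ HH G Γ, b ^ m * k = b ^ m' * k' →
      w j ^ m = w j ^ m' := by
    intro j m m' k hk k' hk' heq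
    have h1 : b ^ (m - m') ∈ HH G Γ := by
      have : b ^ (m - m') = b ^ m' * (k' * k⁻¹) * (b ^ m')⁻¹ := by
        have h2 : b ^ m = b ^ m' * k' * k⁻¹ := by rw [← heq]; group
        rw [sub_eq_add_neg, zpow_add, zpow_neg, h2]; group
      rw [this]
      exact hN.conj_mem _ ((HH G Γ).mul_mem hk' ((HH G Γ).inv_mem hk)) _
    have h2 := hpow j _ h1
    rwa [zpow_sub, mul_inv_eq_one] at h2
  set ξ : Fin r → G → Circle := fun j g =>
    if hg : g ∈ H then w j ^ (Classical.choose (hmem g hg)) else 1 with hξ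
  have hξval : ∀ j, ∀ m : ℤ, ∀ k ∈ HH G Γ, ξ j (b ^ m * k) = w j ^ m := by
    intro j m k hk
    have hg : b ^ m * k ∈ H := H.mul_mem (hbH m) (hHH k hk)
    have hch := Classical.choose_spec (hmem (b ^ m * k) hg)
    obtain ⟨k', hk', heq⟩ := hch
    simp only [hξ]
    rw [dif_pos hg]
    exact (hwd j m _ k hk k' hk' heq).symm
  have hmul : ∀ j, ∀ h ∈ H, ∀ h' ∈ H, ξ j (h * h') = ξ j h * ξ j h' := by
    intro j h hh h' hh'
    obtain ⟨m, k, hk, rfl⟩ := hmem h hh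
    obtain ⟨m', k', hk', rfl⟩ := hmem h' hh'
    rw [hξval j m k hk, hξval j m' k' hk']
    have e : b ^ m * k * (b ^ m' * k') = b ^ (m + m') * ((b ^ m')⁻¹ * k * b ^ m' * k') := by
      rw [zpow_add]; group
    rw [e, hξval j _ _ ((HH G Γ).mul_mem (hN.conj_mem' k hk _) hk'), zpow_add]
  have hξone : ∀ j, ∀ ε : ℝ, 0 < ε → ∃ U ∈ 𝓝 (1 : G), ∀ g ∈ U, g ∈ H →
      ‖((ξ j g : Circle) : ℂ) - 1‖ < ε := by
    intro j ε hε
    obtain ⟨U, hU, h1⟩ := hw j ε hε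
    refine ⟨U, hU, fun g hgU hgH => ?_⟩
    obtain ⟨m, k, hk, rfl⟩ := hmem g hgH
    rw [hξval j m k hk]
    have := h1 m (b ^ m * k) hgU k⁻¹ ((HH G Γ).inv_mem hk) (by group)
    simpa using this
  have hcont : ∀ j, ContinuousOn (ξ j) (H : Set G) := by
    intro j h₀ hh₀
    rw [ContinuousWithinAt, Metric.tendsto_nhds]
    intro ε hε
    obtain ⟨U, hU, h1⟩ := hξone j ε hε
    have hU' : (fun h => h₀⁻¹ * h) ⁻¹' U ∈ 𝓝 h₀ := by
      apply (continuous_const.mul continuous_id).continuousAt.preimage_mem_nhds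
      simpa using hU
    filter_upwards [mem_nhdsWithin_of_mem_nhds hU', self_mem_nhdsWithin] with h hhU hhH
    have h2 : h₀⁻¹ * h ∈ H := H.mul_mem (H.inv_mem hh₀) hhH
    have h3 := h1 _ hhU h2
    have h4 : ξ j h = ξ j h₀ * ξ j (h₀⁻¹ * h) := by
      rw [← hmul j h₀ hh₀ _ h2, mul_inv_cancel_left]
    have h5 : dist (ξ j h) (ξ j h₀) = ‖((ξ j h : Circle) : ℂ) - ((ξ j h₀ : Circle) : ℂ)‖ := by
      rw [← dist_eq_norm]; rfl
    rw [h5, h4, Circle.coe_mul]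
    have h6 : ((ξ j h₀ : Circle) : ℂ) * ((ξ j (h₀⁻¹ * h) : Circle) : ℂ) - ((ξ j h₀ : Circle) : ℂ) =
        ((ξ j h₀ : Circle) : ℂ) * (((ξ j (h₀⁻¹ * h) : Circle) : ℂ) - 1) := by ring
    rw [h6, norm_mul, Circle.norm_coe, one_mul]
    exact h3
  obtain ⟨t, ht, hrel⟩ := char_relation' E H ξ hmul hcont C hC (fun h hh => by
    obtain ⟨c, hc, γ, hγ, rfl⟩ := hrep h
    have hγ' : γ ∈ HH G Γ := Pool.Agent.TH617.NC.le_HH Γ hγ
    have hcH : c ∈ H := by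
      have := H.mul_mem hh (H.inv_mem (hHH γ hγ'))
      simpa using this
    refine ⟨c, hc, hcH, fun j => ?_⟩
    rw [hmul j c hcH γ (hHH γ hγ')]
    have : ξ j γ = 1 := by
      have := hξval j 0 γ hγ'
      simpa using this
    rw [this, mul_one]) hr
  refine ⟨t, ht, ?_⟩
  have h1 := hrel b (by simpa using hbH 1)
  have h2 : ∀ j, ξ j b = w j := by
    intro j
    have := hξval j 1 1 (HH G Γ).one_mem
    simpa using this
  simpa only [h2] using h1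

/-! ### Compatible pairs -/

theorem Compat.prod [IsTopologicalGroup G] {Γ : Subgroup G} {b : G} {ι : Type*} (S : Finset ι)
    {χ : ι → G → Circle} {z : ι → Circle} (h : ∀ j ∈ S, Compat Γ (χ j) b (z j)) (t : ι → ℤ) :
    Compat Γ (fun g => ∏ j ∈ S, χ j g ^ t j) b (∏ j ∈ S, z j ^ t j) := by
  classical
  intro ε hε
  set A : ℝ := ∑ j ∈ S, |(t j : ℝ)| + 1 with hA
  have hA0 : 0 < A := by
    have : 0 ≤ ∑ j ∈ S, |(t j : ℝ)| := sum_nonneg fun _ _ => abs_nonneg _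
    linarith
  have h1 : ∀ j, ∃ U ∈ 𝓝 (1 : G), j ∈ S → ∀ m : ℤ, ∀ g ∈ U, ∀ k ∈ HH G Γ, b ^ m = g * k →
      ‖((z j ^ m : Circle) : ℂ) - ((χ j k : Circle) : ℂ)‖ < ε / A := by
    intro j
    by_cases hj : j ∈ S
    · obtain ⟨U, hU, h2⟩ := h j hj (ε / A) (by positivity)
      exact ⟨U, hU, fun _ => h2⟩
    · exact ⟨Set.univ, univ_mem, fun h => absurd h hj⟩
  choose U hU hU2 using h1
  refine ⟨⋂ j ∈ S, U j, (Filter.biInter_finset_mem S).mpr fun j _ => hU j, fun m g hg k hk hb => ?_⟩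
  have h2 : ∀ j ∈ S, ‖((((z j ^ m) * (χ j k)⁻¹) : Circle) : ℂ) - 1‖ ≤ ε / A := by
    intro j hj
    have h3 := hU2 j hj m g (Set.mem_iInter₂.mp hg j hj) k hk hb
    have e : ((z j ^ m : Circle) : ℂ) - ((χ j k : Circle) : ℂ) =
        (((((z j ^ m) * (χ j k)⁻¹) : Circle) : ℂ) - 1) * ((χ j k : Circle) : ℂ) := by
      rw [sub_mul, one_mul, ← Circle.coe_mul, inv_mul_cancel_right]
    rw [e, norm_mul, Circle.norm_coe, mul_one] at h3
    exact h3.le
  have e1 : (∏ j ∈ S, z j ^ t j) ^ m * (∏ j ∈ S, χ j k ^ t j)⁻¹ =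
      ∏ j ∈ S, ((z j ^ m) * (χ j k)⁻¹) ^ t j := by
    rw [← prod_zpow, ← prod_inv_distrib, ← prod_mul_distrib]
    refine prod_congr rfl fun j _ => ?_
    rw [mul_zpow, inv_zpow, ← zpow_mul, ← zpow_mul, mul_comm (t j) m]
  have e2 : (((∏ j ∈ S, z j ^ t j) ^ m : Circle) : ℂ) - ((∏ j ∈ S, χ j k ^ t j : Circle) : ℂ) =
      ((((∏ j ∈ S, z j ^ t j) ^ m * (∏ j ∈ S, χ j k ^ t j)⁻¹ : Circle) : ℂ) - 1) *
        ((∏ j ∈ S, χ j k ^ t j : Circle) : ℂ) := by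
    rw [sub_mul, one_mul, ← Circle.coe_mul, inv_mul_cancel_right]
  rw [e2, norm_mul, Circle.norm_coe, mul_one, e1]
  refine (norm_prod_sub_one_le S _).trans_lt ?_
  have h4 : ∑ j ∈ S, ‖(((((z j ^ m) * (χ j k)⁻¹) ^ t j : Circle)) : ℂ) - 1‖ ≤
      ∑ j ∈ S, |(t j : ℝ)| * (ε / A) := by
    apply sum_le_sum
    intro j hj
    refine (norm_zpow_sub_one_le _ _).trans ?_
    have := h2 j hj
    gcongr
  refine h4.trans_lt ?_
  rw [← sum_mul]
  have : ∑ j ∈ S, |(t j : ℝ)| < A := by rw [hA]; linarith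
  calc (∑ j ∈ S, |(t j : ℝ)|) * (ε / A) < A * (ε / A) := by gcongr
    _ = ε := by field_simp

theorem Compat.congr [IsTopologicalGroup G] {Γ : Subgroup G} {b : G} {χ χ' : G → Circle}
    {z : Circle} (h : Compat Γ χ b z) (he : ∀ k ∈ HH G Γ, χ k = χ' k) : Compat Γ χ' b z := by
  intro ε hε
  obtain ⟨U, hU, h1⟩ := h ε hε
  refine ⟨U, hU, fun m g hg k hk hb => ?_⟩
  rw [← he k hk]
  exact h1 m g hg k hk hb

/-- the properties of a character of `HH` -/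
structure IsChar [IsTopologicalGroup G] (Γ : Subgroup G) (χ : G → Circle) : Prop where
  cont : ContinuousOn χ (HH G Γ : Set G)
  mul : ∀ h ∈ HH G Γ, ∀ h' ∈ HH G Γ, χ (h * h') = χ h * χ h'
  triv : ∀ γ ∈ Γ, χ γ = 1

variable (E) in
include E in
/-- Beyond some index the frequencies do not resonate with those of a given nilmanifold. -/
theorem exists_i0_lie [IsTopologicalGroup G] [LocallyCompactSpace G] {R : ℕ → ℕ} {s : ℕ → ℝ}
    {ζ : ℕ → Circle} {N : ℕ → ℕ} {σ : ℕ → ℝ} (h : Adm R s ζ N σ) (Γ : Subgroup G)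
    [CompactSpace (G ⧸ Γ)] (hcomm : ∀ x y : G, ⁅x, y⁆ ∈ Subgroup.center G) (b : G) :
    ∃ i₀ : ℕ, ∀ (q : ℕ) (B : ℕ → ℕ), (∀ i, 1 ≤ B i) → (∀ i, B i ≤ q * R i) →
      (∀ i < i₀, B i = 1) → ∀ (χ : G → Circle) (z : Circle), IsChar Γ χ → Compat Γ χ b z → z ≠ 1 →
      Tendsto (fun d => MM ζ N B d z) atTop (𝓝 0) := by
  by_contra hcon
  push Not at hcon
  set D := Module.finrank ℝ E with hD
  -- first stage
  have key1 : ∀ i₀ : ℕ, ∃ x : (G → Circle) × Circle × (ℕ → ℤ) × ℕ, (IsChar Γ x.1 ∧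
      Compat Γ x.1 b x.2.1 ∧ ResonC R ζ σ x.2.1 x.2.2.1 ∧ x.2.2.1 x.2.2.2 ≠ 0 ∧
      ∀ i < x.2.2.2, x.2.2.1 i = 0) ∧ i₀ ≤ x.2.2.2 := by
    intro i₀
    obtain ⟨q, B, hB1, hB, hB0, χ, z, hχ, hz, hz1, hnot⟩ := hcon i₀
    obtain ⟨β, hb, hr⟩ := exists_reson h hB1 hB z hnot
    have hbne : ∃ m, β m ≠ 0 := by
      by_contra hzz
      push Not at hzz
      have hb0 : β = 0 := funext hzz
      rw [hb0] at hr
      exact hz1 (reson_zero_eq_one h hr)
    classical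
    have hReson : Reson R ζ σ z β := ⟨⟨q, fun i =>
      (hb i).trans (by exact_mod_cast (Nat.sub_le _ _).trans (hB i))⟩, hr⟩
    refine ⟨⟨χ, z, β, Nat.find hbne⟩, ⟨hχ, hz, hReson.toC, Nat.find_spec hbne, fun i hi => ?_⟩, ?_⟩
    · by_contra hne
      exact Nat.find_min hbne hi hne
    · by_contra hlt
      push Not at hlt
      have h1 := hb (Nat.find hbne)
      rw [hB0 _ hlt] at h1
      simp only [Nat.sub_self, Nat.cast_zero, abs_nonpos_iff] at h1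
      exact Nat.find_spec hbne h1
  -- second stage
  have key2 : ∀ i₀ : ℕ, ∃ x : Circle × (ℕ → ℤ) × ℕ, (Compat Γ (fun _ => 1) b x.1 ∧
      ResonC R ζ σ x.1 x.2.1 ∧ x.2.1 x.2.2 ≠ 0 ∧ ∀ i < x.2.2, x.2.1 i = 0) ∧ i₀ ≤ x.2.2 := by
    intro i₀
    obtain ⟨f, hf, hmono, hlead⟩ := pick _ (fun x : (G → Circle) × Circle × (ℕ → ℤ) × ℕ => x.2.2.2)
      key1 i₀ (D + 1)
    obtain ⟨t, ht, hrel⟩ := rel_HH E Γ (fun j => (f j).1) (fun j => (hf j).1.cont)
      (fun j => (hf j).1.mul) (fun j => (hf j).1.triv) (by rw [← hD]; exact Nat.lt_succ_self D)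
    obtain ⟨j₀, hj₀, hj₀'⟩ := lead_combo (fun j => (f j).2.2.1) (fun j => (f j).2.2.2) hmono
      (fun j => (hf j).2.2.2.1) (fun j => (hf j).2.2.2.2) t ht
    refine ⟨⟨∏ j, (f j).2.1 ^ t j, fun i => ∑ j, t j * (f j).2.2.1 i, (f j₀).2.2.2⟩,
      ⟨?_, ?_, hj₀, hj₀'⟩, hlead j₀⟩
    · have h1 := Compat.prod univ (fun j _ => (hf j).2.1) t
      exact h1.congr fun k hk => hrel k hk
    · exact ResonC.combo univ t (fun j => (f j).2.2.1) (fun j => (f j).2.1)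
        fun j _ => (hf j).2.2.1
  -- contradiction
  obtain ⟨f, hf, hmono, hlead⟩ := pick _ (fun x : Circle × (ℕ → ℤ) × ℕ => x.2.2) key2 0 (D + 1)
  obtain ⟨t, ht, hrel⟩ := rel_circle E Γ hcomm b (fun j => (f j).1) (fun j => (hf j).1)
    (by rw [← hD]; exact Nat.lt_succ_self D)
  obtain ⟨j₀, hj₀, -⟩ := lead_combo (fun j => (f j).2.1) (fun j => (f j).2.2) hmono
    (fun j => (hf j).2.2.1) (fun j => (hf j).2.2.2) t ht
  have h1 := ResonC.combo univ t (fun j => (f j).2.1) (fun j => (f j).1) fun j _ => (hf j).2.1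
  rw [hrel] at h1
  have h2 := h1.zero h
  exact hj₀ (congrFun h2 (f j₀).2.2)

end

end Pool.Agent.TH296.NC
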