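import Pool.Agent.TH296.NC.Params

set_option autoImplicit false

/-!
# MP_fc4783_an: sequences whose weighted averages converge
-/

open Filter Topology Finset
open scoped ComplexConjugate

namespace Pool.Agent.TH296.NC

/-! ### General closure properties -/

section

variable {N : ℕ → ℕ} {V : ℕ → ℤ → ℂ}

/-- the weighted averages tend to `L` -/
def Lm (N : ℕ → ℕ) (V : ℕ → ℤ → ℂ) (Ψ : ℤ → ℂ) (L : ℂ) : Prop :=
  Tendsto (fun d => Av (N d) (fun n => V d n * Ψ n)) atTop (𝓝 L)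

theorem Lm.add {Φ Ψ : ℤ → ℂ} {L L' : ℂ} (h : Lm N V Φ L) (h' : Lm N V Ψ L') :
    Lm N V (fun n => Φ n + Ψ n) (L + L') := by
  unfold Lm at *
  have := h.add h'
  simp only [← Av_add, ← mul_add] at this
  exact this

theorem Lm.const_mul {Φ : ℤ → ℂ} {L : ℂ} (h : Lm N V Φ L) (c : ℂ) :
    Lm N V (fun n => c * Φ n) (c * L) := by
  unfold Lm at *
  have := Tendsto.const_mul c h
  simp only [← Av_const_mul] at this
  refine this.congr fun d => ?_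
  congr 1; funext n; ring

theorem Lm.sum {ι : Type*} (S : Finset ι) {Φ : ι → ℤ → ℂ} {L : ι → ℂ}
    (h : ∀ i ∈ S, Lm N V (Φ i) (L i)) : Lm N V (fun n => ∑ i ∈ S, Φ i n) (∑ i ∈ S, L i) := by
  classical
  induction S using Finset.induction_on with
  | empty => simp [Lm, Av]
  | insert a S ha ih =>
    simp only [sum_insert ha]
    exact (h a (mem_insert_self a S)).add (ih fun i hi => h i (mem_insert_of_mem hi))

/-- closure under uniform limits -/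
theorem Lm.approx (hV : ∀ᶠ d in atTop, AvR (N d) (fun n => ‖V d n‖) ≤ 2) {Ψ : ℤ → ℂ}
    (h : ∀ ε : ℝ, 0 < ε → ∃ Φ : ℤ → ℂ, (∃ L, Lm N V Φ L) ∧ ∀ n, ‖Ψ n - Φ n‖ ≤ ε) :
    ∃ L, Lm N V Ψ L := by
  have hc : CauchySeq (fun d => Av (N d) (fun n => V d n * Ψ n)) := by
    rw [Metric.cauchySeq_iff']
    intro ε hε
    obtain ⟨Φ, ⟨L, hL⟩, hΦ⟩ := h (ε / 16) (by positivity)
    have h1 := hL.cauchySeq
    rw [Metric.cauchySeq_iff'] at h1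
    obtain ⟨n₀, hn₀⟩ := h1 (ε / 4) (by positivity)
    obtain ⟨n₁, hn₁⟩ := hV.exists_forall_of_atTop
    obtain ⟨n₂, hn₂⟩ := (Metric.tendsto_atTop.mp hL) (ε / 8) (by positivity)
    have key : ∀ d, n₁ ≤ d → dist (Av (N d) (fun n => V d n * Ψ n))
        (Av (N d) (fun n => V d n * Φ n)) ≤ ε / 8 := by
      intro d hd
      rw [dist_eq_norm, ← Av_sub]
      have : ‖Av (N d) (fun n => V d n * Ψ n - V d n * Φ n)‖ ≤
          AvR (N d) (fun n => (ε / 16) * ‖V d n‖) := by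
        apply norm_Av_le_of_le'
        intro n
        rw [← mul_sub, norm_mul, mul_comm]
        exact mul_le_mul_of_nonneg_right (hΦ n) (norm_nonneg _)
      refine this.trans ?_
      rw [AvR_const_mul]
      have := hn₁ d hd
      nlinarith
    refine ⟨max n₁ n₂, fun d hd => ?_⟩
    have a1 := key d (le_trans (le_max_left _ _) hd)
    have a2 := key (max n₁ n₂) (le_max_left _ _)
    have a3 := hn₂ d (le_trans (le_max_right _ _) hd)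
    have a4 := hn₂ (max n₁ n₂) (le_max_right _ _)
    calc dist (Av (N d) (fun n => V d n * Ψ n)) (Av (N (max n₁ n₂)) fun n => V (max n₁ n₂) n * Ψ n)
        ≤ dist (Av (N d) (fun n => V d n * Ψ n)) (Av (N d) (fun n => V d n * Φ n)) +
          dist (Av (N d) (fun n => V d n * Φ n)) L +
          dist L (Av (N (max n₁ n₂)) (fun n => V (max n₁ n₂) n * Φ n)) +
          dist (Av (N (max n₁ n₂)) (fun n => V (max n₁ n₂) n * Φ n))
            (Av (N (max n₁ n₂)) fun n => V (max n₁ n₂) n * Ψ n) := by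
          refine (dist_triangle _ (Av (N (max n₁ n₂)) (fun n => V (max n₁ n₂) n * Φ n)) _).trans ?_
          gcongr
          refine (dist_triangle _ L _).trans ?_
          gcongr
          exact dist_triangle _ _ _
      _ < ε := by
          rw [dist_comm L, dist_comm (Av (N (max n₁ n₂)) (fun n => V (max n₁ n₂) n * Φ n))
            (Av (N (max n₁ n₂)) fun n => V (max n₁ n₂) n * Ψ n)]
          linarith
  obtain ⟨L, hL⟩ := cauchySeq_tendsto_of_complete hc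
  exact ⟨L, hL⟩

/-- closure under uniform limits, zero limit -/
theorem Lm.approx_zero (hV : ∀ᶠ d in atTop, AvR (N d) (fun n => ‖V d n‖) ≤ 2) {Ψ : ℤ → ℂ}
    (h : ∀ ε : ℝ, 0 < ε → ∃ Φ : ℤ → ℂ, Lm N V Φ 0 ∧ ∀ n, ‖Ψ n - Φ n‖ ≤ ε) :
    Lm N V Ψ 0 := by
  unfold Lm
  rw [Metric.tendsto_atTop]
  intro ε hε
  obtain ⟨Φ, hL, hΦ⟩ := h (ε / 8) (by positivity)
  obtain ⟨n₁, hn₁⟩ := hV.exists_forall_of_atTop
  obtain ⟨n₂, hn₂⟩ := (Metric.tendsto_atTop.mp hL) (ε / 4) (by positivity)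
  refine ⟨max n₁ n₂, fun d hd => ?_⟩
  have a3 := hn₂ d (le_trans (le_max_right _ _) hd)
  have a1 : ‖Av (N d) (fun n => V d n * Ψ n - V d n * Φ n)‖ ≤
      AvR (N d) (fun n => (ε / 8) * ‖V d n‖) := by
    apply norm_Av_le_of_le'
    intro n
    rw [← mul_sub, norm_mul, mul_comm]
    exact mul_le_mul_of_nonneg_right (hΦ n) (norm_nonneg _)
  rw [Av_sub, AvR_const_mul] at a1
  have a2 := hn₁ d (le_trans (le_max_left _ _) hd)
  rw [dist_zero_right] at a3 ⊢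
  have e : Av (N d) (fun n => V d n * Ψ n) = (Av (N d) (fun n => V d n * Ψ n) -
    Av (N d) (fun n => V d n * Φ n)) + Av (N d) (fun n => V d n * Φ n) := by ring
  rw [e]
  refine (norm_add_le _ _).trans_lt ?_
  nlinarith

end

/-! ### The three families of weights -/

theorem conj_tp (E : ℕ) (c : ℤ → ℂ) (z : Circle) :
    conj (tp E c z) = tp E (fun b => conj (c (-b))) z := by
  unfold tp
  rw [map_sum]
  refine sum_bij (fun b _ => -b) ?_ ?_ ?_ ?_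
  · intro b hb; rw [mem_Icc] at hb ⊢; omega
  · intro a _ b _ h; omega
  · intro b hb; exact ⟨-b, by rw [mem_Icc] at hb ⊢; omega, by ring⟩
  · intro b _
    beta_reduce
    rw [map_mul, neg_neg, zpow_neg, Circle.coe_inv_eq_conj]

namespace Par

variable (𝔭 : Par)

/-- the frequencies -/
noncomputable def ζ (i : ℕ) : Circle := Circle.exp (2 * Real.pi * 𝔭.α i)

theorem adm' : Adm 𝔭.R 𝔭.s 𝔭.ζ 𝔭.N 𝔭.σ := 𝔭.adm

/-- the basic weight -/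
noncomputable def W (d : ℕ) (n : ℤ) : ℝ := WW 𝔭.ζ BB d n

/-- the modulated weight -/
noncomputable def P (d : ℕ) (n : ℤ) : ℂ := ∏ i ∈ range d, tp (𝔭.E i) (𝔭.cp i) (𝔭.ζ i ^ n)

theorem W_nonneg (d : ℕ) (n : ℤ) : 0 ≤ 𝔭.W d n := WW_nonneg _ _ _ _

theorem BB_le (i : ℕ) : BB i ≤ 1 * 𝔭.R i := by rw [one_mul]; exact 𝔭.hB i

theorem E_le (i : ℕ) : 𝔭.E i ≤ 1 * 𝔭.R i := by rw [one_mul]; exact 𝔭.hE i

theorem tp_cp_le (i : ℕ) (z : Circle) : ‖tp (𝔭.E i) (𝔭.cp i) z‖ ≤ fej (BB i) z := by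
  rw [𝔭.hp, norm_mul, Complex.norm_real, Real.norm_of_nonneg (fej_nonneg _ _)]
  have := 𝔭.hq i z
  have h0 := fej_nonneg (BB i) z
  nlinarith

theorem P_le (d : ℕ) (n : ℤ) : ‖𝔭.P d n‖ ≤ 𝔭.W d n := by
  unfold P W WW
  rw [norm_prod]
  exact Finset.prod_le_prod (fun _ _ => norm_nonneg _) fun i _ => 𝔭.tp_cp_le i _

theorem mass (d : ℕ) (hd : 1 ≤ d) : AvR (𝔭.N d) (𝔭.W d) ≤ 2 :=
  AvR_WW_le_two 𝔭.adm' BB_one_le 𝔭.BB_le hd

/-- data of good weights: products of trigonometric polynomials dominated by `W` -/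
structure Fam (V : ℕ → ℤ → ℂ) : Prop where
  le : ∀ d n, ‖V d n‖ ≤ 𝔭.W d n
  osc : ∀ u : ℤ → ℂ, (∀ n, ‖u n‖ ≤ 1) → OscData u → Lm 𝔭.N V u 0

theorem Fam.mass {V : ℕ → ℤ → ℂ} (h : 𝔭.Fam V) :
    ∀ᶠ d in atTop, AvR (𝔭.N d) (fun n => ‖V d n‖) ≤ 2 := by
  filter_upwards [eventually_ge_atTop 1] with d hd
  exact (AvR_mono' fun n => h.le d n).trans (𝔭.mass d hd)

theorem fam_W : 𝔭.Fam (fun d n => (𝔭.W d n : ℂ)) := by
  refine ⟨fun d n => ?_, fun u hu hosc => ?_⟩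
  · rw [Complex.norm_real, Real.norm_of_nonneg (𝔭.W_nonneg d n)]
  · have h := decorr 𝔭.adm' BB_one_le 𝔭.BB_le (fun i => BB i - 1) (fun i => fc (BB i))
      (fun i z => by
        rw [← fej_eq_tp (BB_one_le i), Complex.norm_real, Real.norm_of_nonneg (fej_nonneg _ _)])
      𝔭.hs2 u hu hosc
    unfold Lm
    refine h.congr fun d => ?_
    congr 1; funext n
    rw [← WW_eq_tp 𝔭.ζ BB BB_one_le]; rfl

theorem fam_P : 𝔭.Fam 𝔭.P := by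
  refine ⟨fun d n => 𝔭.P_le d n, fun u hu hosc => ?_⟩
  exact decorr 𝔭.adm' BB_one_le 𝔭.BB_le 𝔭.E 𝔭.cp 𝔭.tp_cp_le 𝔭.hs1 u hu hosc

/-- reflected coefficients -/
noncomputable def cp' (i : ℕ) (b : ℤ) : ℂ := conj (𝔭.cp i (-b))

theorem conj_P (d : ℕ) (n : ℤ) :
    conj (𝔭.P d n) = ∏ i ∈ range d, tp (𝔭.E i) (𝔭.cp' i) (𝔭.ζ i ^ n) := by
  unfold P
  rw [map_prod]
  exact prod_congr rfl fun i _ => conj_tp _ _ _

theorem fam_Pc : 𝔭.Fam (fun d n => conj (𝔭.P d n)) := by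
  refine ⟨fun d n => by rw [Complex.norm_conj]; exact 𝔭.P_le d n, fun u hu hosc => ?_⟩
  have h := decorr 𝔭.adm' BB_one_le 𝔭.BB_le 𝔭.E 𝔭.cp' (fun i z => by
      have : tp (𝔭.E i) (𝔭.cp' i) z = conj (tp (𝔭.E i) (𝔭.cp i) z) := (conj_tp _ _ _).symm
      rw [this, Complex.norm_conj]; exact 𝔭.tp_cp_le i z)
    (fun i => by
      have e : ∑ b ∈ Icc (-(𝔭.E i : ℤ)) (𝔭.E i), |(b : ℝ)| * ‖𝔭.cp' i b‖ =
          ∑ b ∈ Icc (-(𝔭.E i : ℤ)) (𝔭.E i), |(b : ℝ)| * ‖𝔭.cp i b‖ := by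
        refine sum_bij (fun b _ => -b) ?_ ?_ ?_ ?_
        · intro b hb; rw [mem_Icc] at hb ⊢; omega
        · intro a _ b _ h; omega
        · intro b hb; exact ⟨-b, by rw [mem_Icc] at hb ⊢; omega, by ring⟩
        · intro b _
          unfold cp'
          rw [Complex.norm_conj]
          push_cast
          rw [abs_neg]
      rw [e]; exact 𝔭.hs1 i) u hu hosc
  unfold Lm
  refine h.congr fun d => ?_
  congr 1; funext n
  beta_reduce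
  rw [conj_P]

theorem char_W (z : Circle) : ∃ L, Lm 𝔭.N (fun d n => (𝔭.W d n : ℂ))
    (fun n => ((z ^ n : Circle) : ℂ)) L := by
  obtain ⟨L, -, hL⟩ := tendsto_MM 𝔭.adm' BB_one_le 𝔭.BB_le z
  refine ⟨L, ?_⟩
  have h1 := (Complex.continuous_ofReal.tendsto _).comp hL
  refine h1.congr fun d => ?_
  exact (Av_WW 𝔭.ζ 𝔭.N BB BB_one_le d z).symm

theorem char_P (z : Circle) : Lm 𝔭.N 𝔭.P (fun n => ((z ^ n : Circle) : ℂ)) 0 :=
  ap_small 𝔭.adm' 𝔭.E_le (κ := 4 / 5) (by norm_num) (by norm_num) 𝔭.hp_le z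

theorem char_Pc (z : Circle) : Lm 𝔭.N (fun d n => conj (𝔭.P d n))
    (fun n => ((z ^ n : Circle) : ℂ)) 0 := by
  have h := ap_small 𝔭.adm' 𝔭.E_le (c := 𝔭.cp') (κ := 4 / 5) (by norm_num) (by norm_num)
    (fun i b => by unfold cp'; rw [Complex.norm_conj]; exact 𝔭.hp_le i _) z
  unfold Lm
  refine h.congr fun d => ?_
  congr 1; funext n
  beta_reduce
  rw [conj_P]

/-- the good sequences -/
def GG (Ψ : ℤ → ℂ) : Prop :=
  (∃ L, Lm 𝔭.N (fun d n => (𝔭.W d n : ℂ)) Ψ L) ∧ Lm 𝔭.N 𝔭.P Ψ 0 ∧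
    Lm 𝔭.N (fun d n => conj (𝔭.P d n)) Ψ 0

variable {𝔭}

theorem GG.add {Φ Ψ : ℤ → ℂ} (h : 𝔭.GG Φ) (h' : 𝔭.GG Ψ) : 𝔭.GG (fun n => Φ n + Ψ n) := by
  obtain ⟨⟨L, hL⟩, h1, h2⟩ := h
  obtain ⟨⟨L', hL'⟩, h1', h2'⟩ := h'
  refine ⟨⟨_, hL.add hL'⟩, ?_, ?_⟩
  · simpa using h1.add h1'
  · simpa using h2.add h2'

theorem GG.const_mul {Φ : ℤ → ℂ} (h : 𝔭.GG Φ) (c : ℂ) : 𝔭.GG (fun n => c * Φ n) := by
  obtain ⟨⟨L, hL⟩, h1, h2⟩ := h
  refine ⟨⟨_, hL.const_mul c⟩, ?_, ?_⟩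
  · simpa using h1.const_mul c
  · simpa using h2.const_mul c

theorem GG.sum {ι : Type*} (S : Finset ι) {Φ : ι → ℤ → ℂ} (h : ∀ i ∈ S, 𝔭.GG (Φ i)) :
    𝔭.GG (fun n => ∑ i ∈ S, Φ i n) := by
  choose! L hL using fun i (hi : i ∈ S) => (h i hi).1
  refine ⟨⟨_, Lm.sum S hL⟩, ?_, ?_⟩
  · simpa using Lm.sum S (L := fun _ => 0) fun i hi => (h i hi).2.1
  · simpa using Lm.sum S (L := fun _ => 0) fun i hi => (h i hi).2.2

theorem GG.approx {Ψ : ℤ → ℂ}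
    (h : ∀ ε : ℝ, 0 < ε → ∃ Φ : ℤ → ℂ, 𝔭.GG Φ ∧ ∀ n, ‖Ψ n - Φ n‖ ≤ ε) : 𝔭.GG Ψ := by
  refine ⟨Lm.approx 𝔭.fam_W.mass fun ε hε => ?_, Lm.approx_zero 𝔭.fam_P.mass fun ε hε => ?_,
    Lm.approx_zero 𝔭.fam_Pc.mass fun ε hε => ?_⟩
  · obtain ⟨Φ, h1, h2⟩ := h ε hε
    exact ⟨Φ, h1.1, h2⟩
  · obtain ⟨Φ, h1, h2⟩ := h ε hε
    exact ⟨Φ, h1.2.1, h2⟩
  · obtain ⟨Φ, h1, h2⟩ := h ε hε
    exact ⟨Φ, h1.2.2, h2⟩

theorem GG_char (z : Circle) : 𝔭.GG (fun n => ((z ^ n : Circle) : ℂ)) :=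
  ⟨𝔭.char_W z, 𝔭.char_P z, 𝔭.char_Pc z⟩

theorem GG_of_AP {u : ℤ → ℂ} (h : IsAP u) : 𝔭.GG u := by
  apply GG.approx
  intro ε hε
  obtain ⟨n, z, c, hzc⟩ := h ε hε
  refine ⟨fun m => ∑ i, c i * ((z i ^ m : Circle) : ℂ), ?_, hzc⟩
  exact GG.sum univ fun i _ => (GG_char (z i)).const_mul (c i)

theorem GG_of_osc {u : ℤ → ℂ} (hu : ∀ n, ‖u n‖ ≤ 1) (h : OscData u) : 𝔭.GG u :=
  ⟨⟨0, 𝔭.fam_W.osc u hu h⟩, 𝔭.fam_P.osc u hu h, 𝔭.fam_Pc.osc u hu h⟩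

end Par

end Pool.Agent.TH296.NC
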