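import Pool.Agent.TH296.NC.NilGood
import Pool.Agent.TH296.NC.FinRank
import Pool.Agent.TH617.NC.FlatC

set_option autoImplicit false

/-!
# MP_fc4783_an: the limit functional is invariant
-/

open Filter Topology Finset
open scoped ComplexConjugate commutatorElement Manifold ContDiff

namespace Pool.Agent.TH296.NC

/-- kernels removed below `i₀` -/
noncomputable def B' (i₀ : ℕ) (i : ℕ) : ℕ := if i < i₀ then 1 else BB i

theorem B'_one_le (i₀ i : ℕ) : 1 ≤ B' i₀ i := by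
  unfold B'; split_ifs
  · exact le_rfl
  · exact BB_one_le i

theorem B'_eq_one {i₀ i : ℕ} (h : i < i₀) : B' i₀ i = 1 := by simp [B', h]

namespace Par

variable (𝔭 : Par)

theorem B'_le (i₀ i : ℕ) : B' i₀ i ≤ 1 * 𝔭.R i := by
  unfold B'; split_ifs
  · exact (BB_one_le i).trans (𝔭.BB_le i)
  · exact 𝔭.BB_le i

/-- the reduced weight -/
noncomputable def W' (i₀ d : ℕ) (n : ℤ) : ℝ := WW 𝔭.ζ (B' i₀) d n

theorem W'_nonneg (i₀ d : ℕ) (n : ℤ) : 0 ≤ 𝔭.W' i₀ d n := WW_nonneg _ _ _ _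

theorem W_le_W' (i₀ : ℕ) : ∃ C : ℝ, 0 < C ∧ ∀ d, i₀ ≤ d → ∀ n, 𝔭.W d n ≤ C * 𝔭.W' i₀ d n := by
  refine ⟨∏ i ∈ range i₀, (BB i : ℝ), prod_pos fun i _ => by exact_mod_cast BB_one_le i,
    fun d hd n => ?_⟩
  have e1 : ∏ i ∈ range i₀, (BB i : ℝ) = ∏ i ∈ range d, (if i < i₀ then (BB i : ℝ) else 1) := by
    rw [← Finset.prod_filter]
    apply Finset.prod_congr _ fun _ _ => rfl
    ext i; simp only [mem_range, Finset.mem_filter]; omega
  rw [e1]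
  unfold W W' WW
  rw [← prod_mul_distrib]
  apply Finset.prod_le_prod (fun _ _ => fej_nonneg _ _)
  intro i _
  by_cases hi : i < i₀
  · rw [if_pos hi, B'_eq_one hi, fej_one, mul_one]
    exact fej_le _ _
  · rw [if_neg hi, one_mul]
    have : B' i₀ i = BB i := by simp [B', hi]
    rw [this]

theorem mass' (i₀ : ℕ) {d : ℕ} (hd : 1 ≤ d) : AvR (𝔭.N d) (𝔭.W' i₀ d) ≤ 2 :=
  AvR_WW_le_two 𝔭.adm' (B'_one_le i₀) (𝔭.B'_le i₀) hd

theorem mass'_ev (i₀ : ℕ) :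
    ∀ᶠ d in atTop, AvR (𝔭.N d) (fun n => ‖(𝔭.W' i₀ d n : ℂ)‖) ≤ 2 := by
  filter_upwards [eventually_ge_atTop 1] with d hd
  refine le_trans (le_of_eq ?_) (𝔭.mass' i₀ hd)
  apply AvR_congr
  intro n
  rw [Complex.norm_real, Real.norm_of_nonneg (𝔭.W'_nonneg i₀ d n)]

theorem osc_W' (i₀ : ℕ) (u : ℤ → ℂ) (hu : ∀ n, ‖u n‖ ≤ 1) (hosc : OscData u) :
    Lm 𝔭.N (fun d n => (𝔭.W' i₀ d n : ℂ)) u 0 := by
  have h := decorr 𝔭.adm' (B'_one_le i₀) (𝔭.B'_le i₀) (fun i => B' i₀ i - 1)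
    (fun i => fc (B' i₀ i)) (fun i z => by
      rw [← fej_eq_tp (B'_one_le i₀ i), Complex.norm_real, Real.norm_of_nonneg (fej_nonneg _ _)])
    (fun i => by
      by_cases hi : i < i₀
      · rw [B'_eq_one hi]
        have : ∑ b ∈ Icc (-((1 - 1 : ℕ) : ℤ)) ((1 - 1 : ℕ) : ℤ), |(b : ℝ)| * ‖fc 1 b‖ = 0 := by
          simp
        rw [this, zero_mul]; positivity
      · have : B' i₀ i = BB i := by simp [B', hi]
        rw [this]; exact 𝔭.hs2 i) u hu hosc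
  unfold Lm
  refine h.congr fun d => ?_
  congr 1; funext n
  rw [← WW_eq_tp 𝔭.ζ (B' i₀) (B'_one_le i₀)]; rfl

theorem char_W' (i₀ : ℕ) (z : Circle) : ∃ L, Lm 𝔭.N (fun d n => (𝔭.W' i₀ d n : ℂ))
    (fun n => ((z ^ n : Circle) : ℂ)) L := by
  obtain ⟨L, -, hL⟩ := tendsto_MM 𝔭.adm' (B'_one_le i₀) (𝔭.B'_le i₀) z
  refine ⟨L, ?_⟩
  have h1 := (Complex.continuous_ofReal.tendsto _).comp hL
  refine h1.congr fun d => ?_
  exact (Av_WW 𝔭.ζ 𝔭.N (B' i₀) (B'_one_le i₀) d z).symm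

end Par

section

variable {E : Type*} [NormedAddCommGroup E] [NormedSpace ℝ E] [FiniteDimensional ℝ E]
  {G : Type*} [Group G] [TopologicalSpace G] [T2Space G] [ChartedSpace E G]
  [LieGroup 𝓘(ℝ, E) ∞ G] [IsTopologicalGroup G] [LocallyCompactSpace G]

/-- the index `i₀` is adapted to `b` -/
def Adapted (𝔭 : Par) (Γ : Subgroup G) (b : G) (i₀ : ℕ) : Prop :=
  ∀ (χ : G → Circle) (z : Circle), IsChar Γ χ → Compat Γ χ b z → z ≠ 1 →
    Lm 𝔭.N (fun d n => (𝔭.W' i₀ d n : ℂ)) (fun n => ((z ^ n : Circle) : ℂ)) 0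

variable (E) in
include E in
theorem exists_adapted (𝔭 : Par) (Γ : Subgroup G) [CompactSpace (G ⧸ Γ)]
    (hcomm : ∀ x y : G, ⁅x, y⁆ ∈ Subgroup.center G) (b : G) : ∃ i₀, Adapted 𝔭 Γ b i₀ := by
  obtain ⟨i₀, hi₀⟩ := exists_i0_lie E 𝔭.adm' Γ hcomm b
  refine ⟨i₀, fun χ z hχ hz hz1 => ?_⟩
  have h1 := hi₀ 1 (B' i₀) (B'_one_le i₀) (𝔭.B'_le i₀) (fun i hi => B'_eq_one hi) χ z hχ hz hz1
  have h2 := (Complex.continuous_ofReal.tendsto _).comp h1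
  rw [Complex.ofReal_zero] at h2
  refine h2.congr fun d => ?_
  exact (Av_WW 𝔭.ζ 𝔭.N (B' i₀) (B'_one_le i₀) d z).symm

variable (Γ : Subgroup G) [DiscreteTopology Γ] [CompactSpace (G ⧸ Γ)]

omit [T2Space G] [LocallyCompactSpace G] in
theorem IsEig.isChar {Γ : Subgroup G} {χ : G → Circle} {F : G ⧸ Γ → ℂ} (h : IsEig Γ χ F) :
    IsChar Γ χ := ⟨h.cont_χ, h.mul_χ, h.triv⟩

theorem stepA_eig (𝔭 : Par) (hcomm : ∀ x y : G, ⁅x, y⁆ ∈ Subgroup.center G) {b : G} {i₀ : ℕ}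
    (hi₀ : Adapted 𝔭 Γ b i₀) {χ : G → Circle} {F : G ⧸ Γ → ℂ} (hE : IsEig Γ χ F) :
    (∃ L, Lm 𝔭.N (fun d n => (𝔭.W' i₀ d n : ℂ)) (fun m : ℤ => F ((b ^ m : G) : G ⧸ Γ)) L) ∧
    Lm 𝔭.N (fun d n => (𝔭.W' i₀ d n : ℂ))
      (fun m : ℤ => F ((b ^ (m + 1) : G) : G ⧸ Γ) - F ((b ^ m : G) : G ⧸ Γ)) 0 := by
  by_cases hb : Flat Γ χ b
  · have hap := Pool.Agent.TH617.NC.isAPC_of_flat Γ hcomm χ F hE b hb
    constructor
    · apply Lm.approx (𝔭.mass'_ev i₀)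
      intro ε hε
      obtain ⟨n, z, c, -, hzc⟩ := hap ε hε
      refine ⟨fun m => ∑ i, c i * ((z i ^ m : Circle) : ℂ), ?_, hzc⟩
      choose L hL using fun i => 𝔭.char_W' i₀ (z i)
      exact ⟨_, Lm.sum univ fun i _ => (hL i).const_mul (c i)⟩
    · apply Lm.approx_zero (𝔭.mass'_ev i₀)
      intro ε hε
      obtain ⟨n, z, c, hcomp, hzc⟩ := hap (ε / 2) (by positivity)
      refine ⟨fun m => ∑ i, (c i * ((z i : ℂ) - 1)) * ((z i ^ m : Circle) : ℂ), ?_, fun m => ?_⟩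
      · have h0 : ∀ i ∈ (univ : Finset (Fin n)), Lm 𝔭.N (fun d n => (𝔭.W' i₀ d n : ℂ))
            (fun m => (c i * ((z i : ℂ) - 1)) * ((z i ^ m : Circle) : ℂ)) 0 := by
          intro i _
          by_cases hz : z i = 1
          · obtain ⟨L, hL⟩ := 𝔭.char_W' i₀ (z i)
            have := hL.const_mul (c i * ((z i : ℂ) - 1))
            have e : (c i * ((z i : ℂ) - 1)) * L = 0 := by rw [hz]; simp
            rwa [e] at this
          · have := (hi₀ χ (z i) hE.isChar (hcomp i) hz).const_mul (c i * ((z i : ℂ) - 1))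
            rwa [mul_zero] at this
        have := Lm.sum univ h0
        rwa [sum_const_zero] at this
      · have h1 := hzc (m + 1)
        have h2 := hzc m
        have e : F ((b ^ (m + 1) : G) : G ⧸ Γ) - F ((b ^ m : G) : G ⧸ Γ) -
            ∑ i, (c i * ((z i : ℂ) - 1)) * ((z i ^ m : Circle) : ℂ) =
            (F ((b ^ (m + 1) : G) : G ⧸ Γ) - ∑ i, c i * ((z i ^ (m + 1) : Circle) : ℂ)) -
            (F ((b ^ m : G) : G ⧸ Γ) - ∑ i, c i * ((z i ^ m : Circle) : ℂ)) := by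
          have e2 : ∑ i, (c i * ((z i : ℂ) - 1)) * ((z i ^ m : Circle) : ℂ) =
              ∑ i, c i * ((z i ^ (m + 1) : Circle) : ℂ) - ∑ i, c i * ((z i ^ m : Circle) : ℂ) := by
            rw [← sum_sub_distrib]
            refine sum_congr rfl fun i _ => ?_
            rw [zpow_add_one, Circle.coe_mul]; ring
          rw [e2]; ring
        rw [e]
        refine (norm_sub_le _ _).trans ?_
        linarith
  · -- scale to norm at most one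
    obtain ⟨M, hM⟩ : ∃ M : ℝ, ∀ x, ‖F x‖ ≤ M := by
      obtain ⟨M, hM⟩ := (isCompact_univ (X := G ⧸ Γ)).exists_bound_of_continuousOn
        hE.cont_F.continuousOn
      exact ⟨M, fun x => hM x (Set.mem_univ x)⟩
    set c : ℂ := ((1 / (|M| + 1) : ℝ) : ℂ) with hc
    have hMpos : (0 : ℝ) < |M| + 1 := by positivity
    have key : ∀ F' : G ⧸ Γ → ℂ, IsEig Γ χ F' → (∀ x, ‖F' x‖ ≤ M) →
        Lm 𝔭.N (fun d n => (𝔭.W' i₀ d n : ℂ)) (fun m : ℤ => F' ((b ^ m : G) : G ⧸ Γ)) 0 := by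
      intro F' hE' hM'
      have hE'' := hE'.const_mul c
      have hosc := Pool.Agent.TH617.NC.oscData_of_not_flat Γ hcomm χ _ hE'' b hb
      have hg : Lm 𝔭.N (fun d n => (𝔭.W' i₀ d n : ℂ))
          (fun m : ℤ => c * F' ((b ^ m : G) : G ⧸ Γ)) 0 := by
        apply 𝔭.osc_W' i₀ _ _ hosc
        intro n
        rw [norm_mul, hc, Complex.norm_real, Real.norm_of_nonneg (by positivity),
          div_mul_eq_mul_div, one_mul, div_le_one hMpos]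
        have := hM' ((b ^ n : G) : G ⧸ Γ)
        have := le_abs_self M
        linarith
      have h2 := hg.const_mul ((|M| + 1 : ℝ) : ℂ)
      rw [mul_zero] at h2
      have e : (fun m : ℤ => ((|M| + 1 : ℝ) : ℂ) * (c * F' ((b ^ m : G) : G ⧸ Γ))) =
          fun m : ℤ => F' ((b ^ m : G) : G ⧸ Γ) := by
        funext m
        rw [hc, ← mul_assoc, ← Complex.ofReal_mul]
        have : (|M| + 1) * (1 / (|M| + 1)) = 1 := by field_simp
        rw [this, Complex.ofReal_one, one_mul]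
      rwa [e] at h2
    have h0 := key F hE hM
    refine ⟨⟨0, h0⟩, ?_⟩
    have hE1 : IsEig Γ χ (fun x => F (b • x)) := by
      refine ⟨hE.cont_χ, hE.mul_χ, hE.triv, hE.cont_F.comp (continuous_const_smul b), ?_⟩
      intro g k hk
      have := hE.eqv (b * g) k hk
      have e1 : (b • ((g * k : G) : G ⧸ Γ)) = ((b * g * k : G) : G ⧸ Γ) := by
        rw [mul_assoc]; rfl
      have e2 : (b • (g : G ⧸ Γ)) = ((b * g : G) : G ⧸ Γ) := rfl
      rw [e1, e2]; exact this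
    have h1 := key _ hE1 (fun x => hM _)
    have h2 := h1.add (h0.const_mul (-1))
    simp only [mul_zero, add_zero] at h2
    have e : (fun m : ℤ => F (b • ((b ^ m : G) : G ⧸ Γ)) + -1 * F ((b ^ m : G) : G ⧸ Γ)) =
        fun m : ℤ => F ((b ^ (m + 1) : G) : G ⧸ Γ) - F ((b ^ m : G) : G ⧸ Γ) := by
      funext m
      have : (b • ((b ^ m : G) : G ⧸ Γ)) = ((b ^ (m + 1) : G) : G ⧸ Γ) := by
        rw [add_comm m 1, zpow_add, zpow_one]; rfl
      rw [this]; ring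
    rwa [e] at h2

theorem stepA_base (𝔭 : Par) (hcomm : ∀ x y : G, ⁅x, y⁆ ∈ Subgroup.center G) {b : G} {i₀ : ℕ}
    (hi₀ : Adapted 𝔭 Γ b i₀) {F : G ⧸ Γ → ℂ} (hF : Continuous F) :
    (∃ L, Lm 𝔭.N (fun d n => (𝔭.W' i₀ d n : ℂ)) (fun m : ℤ => F ((b ^ m : G) : G ⧸ Γ)) L) ∧
    Lm 𝔭.N (fun d n => (𝔭.W' i₀ d n : ℂ))
      (fun m : ℤ => F ((b ^ (m + 1) : G) : G ⧸ Γ) - F ((b ^ m : G) : G ⧸ Γ)) 0 := by
  constructor
  · apply Lm.approx (𝔭.mass'_ev i₀)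
    intro ε hε
    obtain ⟨n, χ, f, hf, happ⟩ := Pool.Agent.TH286.NC.eig_dense Γ hcomm F hF ε hε
    refine ⟨fun m => ∑ i, f i ((b ^ m : G) : G ⧸ Γ), ?_, fun m => happ _⟩
    choose L hL using fun i => (stepA_eig Γ 𝔭 hcomm hi₀ (hf i)).1
    exact ⟨_, Lm.sum univ fun i _ => hL i⟩
  · apply Lm.approx_zero (𝔭.mass'_ev i₀)
    intro ε hε
    obtain ⟨n, χ, f, hf, happ⟩ := Pool.Agent.TH286.NC.eig_dense Γ hcomm F hF (ε / 2) (by positivity)
    refine ⟨fun m => ∑ i, (f i ((b ^ (m + 1) : G) : G ⧸ Γ) - f i ((b ^ m : G) : G ⧸ Γ)), ?_,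
      fun m => ?_⟩
    · have := Lm.sum univ fun i (_ : i ∈ univ) => (stepA_eig Γ 𝔭 hcomm hi₀ (hf i)).2
      rwa [sum_const_zero] at this
    · have h1 := happ ((b ^ (m + 1) : G) : G ⧸ Γ)
      have h2 := happ ((b ^ m : G) : G ⧸ Γ)
      have e : F ((b ^ (m + 1) : G) : G ⧸ Γ) - F ((b ^ m : G) : G ⧸ Γ) -
          ∑ i, (f i ((b ^ (m + 1) : G) : G ⧸ Γ) - f i ((b ^ m : G) : G ⧸ Γ)) =
          (F ((b ^ (m + 1) : G) : G ⧸ Γ) - ∑ i, f i ((b ^ (m + 1) : G) : G ⧸ Γ)) -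
          (F ((b ^ m : G) : G ⧸ Γ) - ∑ i, f i ((b ^ m : G) : G ⧸ Γ)) := by
        rw [sum_sub_distrib]; ring
      rw [e]
      refine (norm_sub_le _ _).trans ?_
      linarith

variable (E) in
include E in
/-- For every orbit there is a reduced weight whose limit functional exists and is invariant. -/
theorem stepA (𝔭 : Par) (hcomm : ∀ x y : G, ⁅x, y⁆ ∈ Subgroup.center G) (b : G) (y : G ⧸ Γ) :
    ∃ i₀, ∀ F : G ⧸ Γ → ℂ, Continuous F →
      (∃ L, Lm 𝔭.N (fun d n => (𝔭.W' i₀ d n : ℂ)) (fun m : ℤ => F (b ^ m • y)) L) ∧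
      Lm 𝔭.N (fun d n => (𝔭.W' i₀ d n : ℂ))
        (fun m : ℤ => F (b ^ (m + 1) • y) - F (b ^ m • y)) 0 := by
  obtain ⟨g, rfl⟩ := QuotientGroup.mk_surjective y
  obtain ⟨i₀, hi₀⟩ := exists_adapted E 𝔭 Γ hcomm (g⁻¹ * b * g)
  refine ⟨i₀, fun F hF => ?_⟩
  have h := stepA_base Γ 𝔭 hcomm hi₀ (F := fun x => F (g • x)) (hF.comp (continuous_const_smul g))
  have e : ∀ m : ℤ, g • (((g⁻¹ * b * g) ^ m : G) : G ⧸ Γ) = b ^ m • (g : G ⧸ Γ) := by
    intro m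
    have h1 : (g⁻¹ * b * g) ^ m = g⁻¹ * b ^ m * g := by
      have := conj_zpow (i := m) (a := g⁻¹) (b := b)
      simpa using this
    rw [h1]
    change ((g * (g⁻¹ * b ^ m * g) : G) : G ⧸ Γ) = ((b ^ m * g : G) : G ⧸ Γ)
    congr 1; group
  simp only [e] at h
  exact h

end

end Pool.Agent.TH296.NC
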