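import Pool.Agent.TH296.NC.Basic

set_option autoImplicit false

/-!
# MP_fc4783_an: expansions and the key estimate
-/

open Filter Topology Finset
open scoped ComplexConjugate

namespace Pool.Agent.TH296.NC

/-! ### The box of exponents -/

/-- extension by zero -/
def ext {d : ℕ} (b : Fin d → ℤ) : ℕ → ℤ := fun i => if h : i < d then b ⟨i, h⟩ else 0

theorem ext_apply {d : ℕ} (b : Fin d → ℤ) (i : Fin d) : ext b i = b i := by
  simp [ext]

theorem ext_injective (d : ℕ) : Function.Injective (ext : (Fin d → ℤ) → ℕ → ℤ) := by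
  intro b b' h
  funext i
  rw [← ext_apply b i, ← ext_apply b' i, h]

/-- exponents supported in `[0, d)` bounded by `E` -/
noncomputable def box (d : ℕ) (E : ℕ → ℕ) : Finset (ℕ → ℤ) :=
  (Fintype.piFinset (fun i : Fin d => Icc (-(E i : ℤ)) (E i))).map ⟨ext, ext_injective d⟩

theorem mem_box {d : ℕ} {E : ℕ → ℕ} {b : ℕ → ℤ} :
    b ∈ box d E ↔ (∀ i < d, |b i| ≤ E i) ∧ ∀ i, d ≤ i → b i = 0 := by
  unfold box
  simp only [Finset.mem_map, Fintype.mem_piFinset, mem_Icc, Function.Embedding.coeFn_mk]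
  constructor
  · rintro ⟨a, ha, rfl⟩
    refine ⟨fun i hi => ?_, fun i hi => ?_⟩
    · have := ha ⟨i, hi⟩
      simp only [ext, hi, dif_pos, abs_le]
      exact this
    · simp [ext, not_lt.mpr hi]
  · rintro ⟨h1, h2⟩
    refine ⟨fun i => b i, fun i => ?_, ?_⟩
    · exact abs_le.mp (h1 i i.2)
    · funext i
      unfold ext
      split_ifs with h
      · rfl
      · exact (h2 i (not_lt.mp h)).symm

theorem card_box (d : ℕ) (E : ℕ → ℕ) : ((box d E).card : ℝ) = ∏ i ∈ range d, (2 * (E i : ℝ) + 1) := by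
  unfold box
  rw [card_map, Fintype.card_piFinset, Finset.prod_range]
  push_cast
  refine prod_congr rfl fun i _ => ?_
  rw [Int.card_Icc]
  have : ((E i : ℤ) + 1 - -(E i : ℤ)).toNat = 2 * E i + 1 := by omega
  rw [this]; push_cast; ring

theorem lam_congr {ζ : ℕ → Circle} {d : ℕ} {b b' : ℕ → ℤ} (h : ∀ i < d, b i = b' i) :
    lam ζ d b = lam ζ d b' := by
  unfold lam
  exact prod_congr rfl fun i hi => by rw [h i (mem_range.mp hi)]

theorem lam_sub (ζ : ℕ → Circle) (d : ℕ) (b b' : ℕ → ℤ) :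
    lam ζ d (b - b') = lam ζ d b * (lam ζ d b')⁻¹ := by
  unfold lam
  rw [← prod_inv_distrib, ← prod_mul_distrib]
  refine prod_congr rfl fun i _ => ?_
  rw [Pi.sub_apply, zpow_sub]

theorem lam_succ (ζ : ℕ → Circle) (d : ℕ) (b : ℕ → ℤ) :
    lam ζ (d + 1) b = lam ζ d b * ζ d ^ b d := by
  unfold lam; rw [prod_range_succ]

theorem lam_zero (ζ : ℕ → Circle) (d : ℕ) : lam ζ d 0 = 1 := by
  unfold lam; simp

/-- expansion of a product of trigonometric polynomials -/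
theorem prod_tp_eq (d : ℕ) (E : ℕ → ℕ) (c : ℕ → ℤ → ℂ) (ζ : ℕ → Circle) (n : ℤ) :
    ∏ i ∈ range d, tp (E i) (c i) (ζ i ^ n) =
      ∑ b ∈ box d E, (∏ i ∈ range d, c i (b i)) * ((lam ζ d b ^ n : Circle) : ℂ) := by
  unfold box tp
  rw [sum_map, Finset.prod_range]
  rw [Finset.prod_univ_sum]
  refine sum_congr rfl fun b _ => ?_
  simp only [Function.Embedding.coeFn_mk]
  rw [Finset.prod_range, prod_mul_distrib]
  congr 1
  · refine prod_congr rfl fun i _ => ?_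
    rw [ext_apply]
  · unfold lam
    rw [Finset.prod_range, ← Finset.prod_zpow]
    have hcoe : ∀ f : Fin d → Circle, ((∏ i, f i : Circle) : ℂ) = ∏ i, ((f i : Circle) : ℂ) :=
      fun f => map_prod Circle.coeHom f univ
    rw [hcoe]
    refine prod_congr rfl fun i _ => ?_
    rw [ext_apply, ← zpow_mul, ← zpow_mul, mul_comm]

theorem Av_prod_tp (N d : ℕ) (E : ℕ → ℕ) (c : ℕ → ℤ → ℂ) (ζ : ℕ → Circle) (z : Circle) :
    Av N (fun n => (∏ i ∈ range d, tp (E i) (c i) (ζ i ^ n)) * ((z ^ n : Circle) : ℂ)) =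
      ∑ b ∈ box d E, (∏ i ∈ range d, c i (b i)) * (FN N (lam ζ d b * z) : ℂ) := by
  have : (fun n : ℤ => (∏ i ∈ range d, tp (E i) (c i) (ζ i ^ n)) * ((z ^ n : Circle) : ℂ)) =
      fun n : ℤ => ∑ b ∈ box d E, (∏ i ∈ range d, c i (b i)) * (((lam ζ d b * z) ^ n : Circle) : ℂ) := by
    funext n
    rw [prod_tp_eq, sum_mul]
    refine sum_congr rfl fun b _ => ?_
    rw [mul_zpow, Circle.coe_mul]; ring
  rw [this, Av_sum]
  refine sum_congr rfl fun b _ => ?_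
  rw [Av_const_mul, Av_pow]

/-! ### Consequences of admissibility -/

section

variable {R : ℕ → ℕ} {s : ℕ → ℝ} {ζ : ℕ → Circle} {N : ℕ → ℕ} {σ : ℕ → ℝ}

/-- resonance radius -/
noncomputable def rad (σ : ℕ → ℝ) (d : ℕ) : ℝ := σ d / (4 * ((d : ℝ) + 1) ^ 2)

/-- number of exponents -/
noncomputable def cnt (R : ℕ → ℕ) (d : ℕ) : ℝ := ∏ i ∈ range d, (2 * (d : ℝ) * R i + 1)

theorem cnt_one_le (R : ℕ → ℕ) (d : ℕ) : 1 ≤ cnt R d := by
  unfold cnt
  have : (1 : ℝ) = ∏ i ∈ range d, 1 := by simp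
  rw [this]
  apply Finset.prod_le_prod
  · intro i _; norm_num
  · intro i _
    have : 0 ≤ 2 * (d : ℝ) * R i := by positivity
    linarith

theorem rad_pos (h : Adm R s ζ N σ) (d : ℕ) : 0 < rad σ d := by
  unfold rad
  have := h.σ_pos d
  positivity

theorem rad_le (h : Adm R s ζ N σ) (d : ℕ) : rad σ d ≤ σ d / 4 := by
  unfold rad
  have := h.σ_pos d
  apply div_le_div_of_nonneg_left this.le (by norm_num)
  have h1 : (1 : ℝ) ≤ ((d : ℝ) + 1) ^ 2 := by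
    have : (0 : ℝ) ≤ d := by positivity
    nlinarith
  linarith

theorem rad_lt_half (h : Adm R s ζ N σ) (d : ℕ) : rad σ d < σ d / 2 := by
  have := h.σ_pos d
  have := rad_le h d
  linarith

/-- `2 / (N d * rad d) ≤ 2^{-(d+1)} / cnt` -/
theorem two_div_le (h : Adm R s ζ N σ) (d : ℕ) :
    2 / (N d * rad σ d) ≤ (2 : ℝ)⁻¹ ^ (d + 1) / cnt R d := by
  have h1 := h.N_large d
  have hσ := h.σ_pos d
  have hN : (0 : ℝ) < N d := by exact_mod_cast h.N_pos d
  have hc : 0 < cnt R d := lt_of_lt_of_le one_pos (cnt_one_le R d)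
  have hd : (0 : ℝ) < ((d : ℝ) + 1) ^ 2 := by positivity
  rw [div_le_div_iff₀ (by have := rad_pos h d; positivity) hc]
  have e : (N d : ℝ) * rad σ d = N d * σ d / (4 * ((d : ℝ) + 1) ^ 2) := by unfold rad; ring
  rw [e]
  have h2 : ((d : ℝ) + 1) ^ 2 * 2 ^ (d + 4) * cnt R d / (4 * ((d : ℝ) + 1) ^ 2) ≤
      N d * σ d / (4 * ((d : ℝ) + 1) ^ 2) := by
    apply div_le_div_of_nonneg_right _ (by positivity)
    exact h1
  have h3 : ((d : ℝ) + 1) ^ 2 * 2 ^ (d + 4) * cnt R d / (4 * ((d : ℝ) + 1) ^ 2) =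
      2 ^ (d + 2) * cnt R d := by
    field_simp
    ring
  rw [h3] at h2
  calc 2 * cnt R d = (2 : ℝ)⁻¹ ^ (d + 1) * (2 ^ (d + 2) * cnt R d) := by
        rw [inv_pow, pow_succ 2 (d + 1)]
        field_simp
    _ ≤ _ := by gcongr

theorem FN_nonres (h : Adm R s ζ N σ) (d : ℕ) {w : Circle} (hw : rad σ d ≤ ‖(w : ℂ) - 1‖) :
    FN (N d) w ≤ (4 : ℝ)⁻¹ ^ (d + 1) / cnt R d ^ 2 := by
  refine (FN_le (rad_pos h d) hw).trans ?_
  have h1 := two_div_le h d
  have h0 : 0 ≤ 2 / (N d * rad σ d) := by have := rad_pos h d; positivity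
  calc (2 / (N d * rad σ d)) ^ 2 ≤ ((2 : ℝ)⁻¹ ^ (d + 1) / cnt R d) ^ 2 := by gcongr
    _ = (4 : ℝ)⁻¹ ^ (d + 1) / cnt R d ^ 2 := by
      rw [div_pow, ← pow_mul, mul_comm (d + 1) 2, pow_mul]; norm_num

theorem geom_nonres (h : Adm R s ζ N σ) (d : ℕ) {w : Circle} (hw : rad σ d ≤ ‖(w : ℂ) - 1‖) :
    ‖∑ j ∈ range (N d), (w : ℂ) ^ j‖ / N d ≤ (2 : ℝ)⁻¹ ^ (d + 1) / cnt R d := by
  refine le_trans ?_ (two_div_le h d)
  have := geom_le (N := N d) (rad_pos h d) hw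
  rw [mul_comm, ← div_div]
  gcongr

theorem card_box_le {q d : ℕ} (hq : q ≤ d) {E : ℕ → ℕ} (hE : ∀ i, E i ≤ q * R i) :
    ((box d E).card : ℝ) ≤ cnt R d := by
  rw [card_box]
  unfold cnt
  apply Finset.prod_le_prod
  · intro i _; positivity
  · intro i _
    have h1 : (E i : ℝ) ≤ q * R i := by exact_mod_cast hE i
    have h2 : (q : ℝ) ≤ d := by exact_mod_cast hq
    have h3 : (q : ℝ) * R i ≤ d * R i := by gcongr
    linarith

/-- resonances are unique -/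
theorem res_unique (h : Adm R s ζ N σ) {q d : ℕ} (hq : q ≤ d) {b b' : ℕ → ℤ}
    (hb : ∀ i < d, |b i| ≤ q * R i) (hb' : ∀ i < d, |b' i| ≤ q * R i) {z : Circle}
    (h1 : ‖((lam ζ d b * z : Circle) : ℂ) - 1‖ < σ d / 2)
    (h2 : ‖((lam ζ d b' * z : Circle) : ℂ) - 1‖ < σ d / 2) : ∀ i < d, b i = b' i := by
  by_contra hne
  push Not at hne
  obtain ⟨i, hi, hne⟩ := hne
  have h3 := h.sep d (b - b') ⟨i, hi, by simpa [sub_eq_zero] using hne⟩ (by
    intro i hi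
    have e1 := hb i hi
    have e2 := hb' i hi
    have e3 : |b i - b' i| ≤ |b i| + |b' i| := abs_sub _ _
    have e4 : (2 * (q : ℤ) * R i) ≤ (((d + 1) ^ 2 * R i : ℕ) : ℤ) := by
      have : 2 * q * R i ≤ (d + 1) ^ 2 * R i := by
        apply Nat.mul_le_mul_right
        nlinarith
      exact_mod_cast this
    rw [Pi.sub_apply]
    linarith)
  rw [lam_sub] at h3
  have e : ‖((lam ζ d b * (lam ζ d b')⁻¹ : Circle) : ℂ) - 1‖ =
      ‖((lam ζ d b * z : Circle) : ℂ) - ((lam ζ d b' * z : Circle) : ℂ)‖ := by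
    have h4 : ((lam ζ d b * z : Circle) : ℂ) - ((lam ζ d b' * z : Circle) : ℂ) =
        (((lam ζ d b * (lam ζ d b')⁻¹ : Circle) : ℂ) - 1) * ((lam ζ d b' * z : Circle) : ℂ) := by
      have h6 : lam ζ d b * (lam ζ d b')⁻¹ * (lam ζ d b' * z) = lam ζ d b * z := by group
      rw [sub_mul, one_mul, ← Circle.coe_mul, h6]
    rw [h4, norm_mul, Circle.norm_coe, mul_one]
  rw [e] at h3
  have h5 : ‖((lam ζ d b * z : Circle) : ℂ) - ((lam ζ d b' * z : Circle) : ℂ)‖ ≤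
      ‖((lam ζ d b * z : Circle) : ℂ) - 1‖ + ‖((lam ζ d b' * z : Circle) : ℂ) - 1‖ := by
    have : ((lam ζ d b * z : Circle) : ℂ) - ((lam ζ d b' * z : Circle) : ℂ) =
      (((lam ζ d b * z : Circle) : ℂ) - 1) - (((lam ζ d b' * z : Circle) : ℂ) - 1) := by ring
    rw [this]; exact norm_sub_le _ _
  linarith

/-- Key estimate, nonresonant case -/
theorem key_nonres (h : Adm R s ζ N σ) {q d : ℕ} (hq : q ≤ d) {E : ℕ → ℕ}
    (hE : ∀ i, E i ≤ q * R i) {c : ℕ → ℤ → ℂ} (hc : ∀ i b, ‖c i b‖ ≤ 1) (z : Circle)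
    (hno : ∀ b ∈ box d E, rad σ d ≤ ‖((lam ζ d b * z : Circle) : ℂ) - 1‖) :
    ‖Av (N d) (fun n => (∏ i ∈ range d, tp (E i) (c i) (ζ i ^ n)) * ((z ^ n : Circle) : ℂ))‖ ≤
      (4 : ℝ)⁻¹ ^ (d + 1) := by
  rw [Av_prod_tp]
  have hc0 : 0 < cnt R d := lt_of_lt_of_le one_pos (cnt_one_le R d)
  refine (norm_sum_le _ _).trans ?_
  have h1 : ∀ b ∈ box d E, ‖(∏ i ∈ range d, c i (b i)) * (FN (N d) (lam ζ d b * z) : ℂ)‖ ≤
      (4 : ℝ)⁻¹ ^ (d + 1) / cnt R d := by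
    intro b hb
    rw [norm_mul, Complex.norm_real, Real.norm_of_nonneg (FN_nonneg _ _), norm_prod]
    have e1 : ∏ i ∈ range d, ‖c i (b i)‖ ≤ 1 :=
      prod_le_one (fun _ _ => norm_nonneg _) fun i _ => hc i _
    have e2 := FN_nonres h d (hno b hb)
    have e3 : (4 : ℝ)⁻¹ ^ (d + 1) / cnt R d ^ 2 ≤ (4 : ℝ)⁻¹ ^ (d + 1) / cnt R d := by
      apply div_le_div_of_nonneg_left (by positivity) hc0
      have := cnt_one_le R d
      nlinarith
    calc _ ≤ 1 * FN (N d) (lam ζ d b * z) := by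
          apply mul_le_mul_of_nonneg_right e1 (FN_nonneg _ _)
      _ ≤ _ := by rw [one_mul]; exact e2.trans e3
  refine (sum_le_sum h1).trans ?_
  rw [sum_const, nsmul_eq_mul]
  have h2 := card_box_le (R := R) hq hE
  calc ((box d E).card : ℝ) * ((4 : ℝ)⁻¹ ^ (d + 1) / cnt R d) ≤
        cnt R d * ((4 : ℝ)⁻¹ ^ (d + 1) / cnt R d) := by gcongr
    _ = _ := by field_simp

/-- Key estimate, resonant case -/
theorem key_res (h : Adm R s ζ N σ) {q d : ℕ} (hq : q ≤ d) {E : ℕ → ℕ}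
    (hE : ∀ i, E i ≤ q * R i) {c : ℕ → ℤ → ℂ} (hc : ∀ i b, ‖c i b‖ ≤ 1) (z : Circle)
    {b : ℕ → ℤ} (hb : b ∈ box d E) (hres : ‖((lam ζ d b * z : Circle) : ℂ) - 1‖ < σ d / 2) :
    ‖Av (N d) (fun n => (∏ i ∈ range d, tp (E i) (c i) (ζ i ^ n)) * ((z ^ n : Circle) : ℂ)) -
      (∏ i ∈ range d, c i (b i)) * (FN (N d) (lam ζ d b * z) : ℂ)‖ ≤ (4 : ℝ)⁻¹ ^ (d + 1) := by
  classical
  rw [Av_prod_tp, ← add_sum_erase _ _ hb, add_sub_cancel_left]
  have hc0 : 0 < cnt R d := lt_of_lt_of_le one_pos (cnt_one_le R d)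
  refine (norm_sum_le _ _).trans ?_
  have h1 : ∀ b' ∈ (box d E).erase b,
      ‖(∏ i ∈ range d, c i (b' i)) * (FN (N d) (lam ζ d b' * z) : ℂ)‖ ≤
      (4 : ℝ)⁻¹ ^ (d + 1) / cnt R d := by
    intro b' hb'
    rw [mem_erase] at hb'
    have hno : rad σ d ≤ ‖((lam ζ d b' * z : Circle) : ℂ) - 1‖ := by
      by_contra hlt
      push Not at hlt
      have hlt' := hlt.trans (rad_lt_half h d)
      apply hb'.1
      have hm := mem_box.mp hb
      have hm' := mem_box.mp hb'.2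
      have hu := res_unique h hq (b := b') (b' := b) (z := z)
        (fun i hi => (hm'.1 i hi).trans (by exact_mod_cast hE i))
        (fun i hi => (hm.1 i hi).trans (by exact_mod_cast hE i)) hlt' hres
      funext i
      by_cases hi : i < d
      · exact hu i hi
      · rw [hm'.2 i (not_lt.mp hi), hm.2 i (not_lt.mp hi)]
    rw [norm_mul, Complex.norm_real, Real.norm_of_nonneg (FN_nonneg _ _), norm_prod]
    have e1 : ∏ i ∈ range d, ‖c i (b' i)‖ ≤ 1 :=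
      prod_le_one (fun _ _ => norm_nonneg _) fun i _ => hc i _
    have e2 := FN_nonres h d hno
    have e3 : (4 : ℝ)⁻¹ ^ (d + 1) / cnt R d ^ 2 ≤ (4 : ℝ)⁻¹ ^ (d + 1) / cnt R d := by
      apply div_le_div_of_nonneg_left (by positivity) hc0
      have := cnt_one_le R d
      nlinarith
    calc _ ≤ 1 * FN (N d) (lam ζ d b' * z) := by
          apply mul_le_mul_of_nonneg_right e1 (FN_nonneg _ _)
      _ ≤ _ := by rw [one_mul]; exact e2.trans e3
  refine (sum_le_sum h1).trans ?_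
  rw [sum_const, nsmul_eq_mul]
  have h2 := card_box_le (R := R) hq hE
  have h3 : (((box d E).erase b).card : ℝ) ≤ (box d E).card := by
    exact_mod_cast card_le_card (erase_subset _ _)
  calc (((box d E).erase b).card : ℝ) * ((4 : ℝ)⁻¹ ^ (d + 1) / cnt R d) ≤
        cnt R d * ((4 : ℝ)⁻¹ ^ (d + 1) / cnt R d) := by
          have := h3.trans h2
          gcongr
    _ = _ := by field_simp

theorem zero_mem_box (d : ℕ) (E : ℕ → ℕ) : (0 : ℕ → ℤ) ∈ box d E := by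
  rw [mem_box]; simp

/-- the mean of a product of trigonometric polynomials -/
theorem mass_tp (h : Adm R s ζ N σ) {q d : ℕ} (hq : q ≤ d) {E : ℕ → ℕ}
    (hE : ∀ i, E i ≤ q * R i) {c : ℕ → ℤ → ℂ} (hc : ∀ i b, ‖c i b‖ ≤ 1) :
    ‖Av (N d) (fun n => ∏ i ∈ range d, tp (E i) (c i) (ζ i ^ n)) - ∏ i ∈ range d, c i 0‖ ≤
      (4 : ℝ)⁻¹ ^ (d + 1) := by
  have h1 := key_res h hq hE hc 1 (zero_mem_box d E) (by
    rw [lam_zero]; simp only [mul_one, Circle.coe_one, sub_self, norm_zero]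
    have := h.σ_pos d; positivity)
  rw [lam_zero, mul_one, FN_one (h.N_pos d)] at h1
  simpa using h1

/-- products of trigonometric polynomials with small coefficients have small twisted means -/
theorem ap_small (h : Adm R s ζ N σ) {q : ℕ} {E : ℕ → ℕ}
    (hE : ∀ i, E i ≤ q * R i) {c : ℕ → ℤ → ℂ} {κ : ℝ} (hκ : κ < 1) (hκ0 : 0 ≤ κ)
    (hc : ∀ i b, ‖c i b‖ ≤ κ) (z : Circle) :
    Tendsto (fun d => Av (N d) (fun n => (∏ i ∈ range d, tp (E i) (c i) (ζ i ^ n)) *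
      ((z ^ n : Circle) : ℂ))) atTop (𝓝 0) := by
  have hlim : Tendsto (fun d : ℕ => κ ^ d + (4 : ℝ)⁻¹ ^ (d + 1)) atTop (𝓝 0) := by
    have h1 : Tendsto (fun d : ℕ => κ ^ d) atTop (𝓝 0) :=
      tendsto_pow_atTop_nhds_zero_of_lt_one hκ0 hκ
    have h2 : Tendsto (fun d : ℕ => (4 : ℝ)⁻¹ ^ (d + 1)) atTop (𝓝 0) :=
      (tendsto_pow_atTop_nhds_zero_of_lt_one (by norm_num) (by norm_num)).comp
        (tendsto_add_atTop_nat 1)
    simpa using h1.add h2
  apply squeeze_zero_norm' _ hlim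
  filter_upwards [eventually_ge_atTop q] with d hq
  have hc1 : ∀ i b, ‖c i b‖ ≤ 1 := fun i b => (hc i b).trans hκ.le
  by_cases hno : ∀ b ∈ box d E, rad σ d ≤ ‖((lam ζ d b * z : Circle) : ℂ) - 1‖
  · refine (key_nonres h hq hE hc1 z hno).trans ?_
    have : 0 ≤ κ ^ d := by positivity
    linarith
  · push Not at hno
    obtain ⟨b, hb, hlt⟩ := hno
    have h1 := key_res h hq hE hc1 z hb (hlt.trans (rad_lt_half h d))
    have h2 : ‖(∏ i ∈ range d, c i (b i)) * (FN (N d) (lam ζ d b * z) : ℂ)‖ ≤ κ ^ d := by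
      rw [norm_mul, Complex.norm_real, Real.norm_of_nonneg (FN_nonneg _ _), norm_prod]
      have e1 : ∏ i ∈ range d, ‖c i (b i)‖ ≤ κ ^ d := by
        calc _ ≤ ∏ i ∈ range d, κ := Finset.prod_le_prod (fun _ _ => norm_nonneg _) fun i _ => hc i _
          _ = _ := by simp
      calc _ ≤ κ ^ d * 1 := by
            apply mul_le_mul e1 (FN_le_one _ _) (FN_nonneg _ _) (by positivity)
        _ = _ := mul_one _
    have h3 := norm_le_norm_add_norm_sub ((∏ i ∈ range d, c i (b i)) * (FN (N d) (lam ζ d b * z) : ℂ))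
      (Av (N d) (fun n => (∏ i ∈ range d, tp (E i) (c i) (ζ i ^ n)) * ((z ^ n : Circle) : ℂ)))
    rw [norm_sub_rev] at h3
    linarith

theorem N_ge (h : Adm R s ζ N σ) {d : ℕ} (hd : 1 ≤ d) : (2 : ℝ) ^ (d + 3) ≤ N d := by
  have h1 := h.N_large d
  have hσ : σ d ≤ 2 := by
    have h2 := h.sep d (fun i => if i = 0 then 1 else 0) ⟨0, hd, by simp⟩ (by
      intro i hi
      have hR := h.R_pos i
      have : (1 : ℤ) ≤ (((d + 1) ^ 2 * R i : ℕ) : ℤ) := by
        have : 1 ≤ (d + 1) ^ 2 * R i := Nat.mul_pos (by positivity) hR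
        exact_mod_cast this
      split_ifs with hi
      · simpa using this
      · simp)
    refine h2.trans ((norm_sub_le _ _).trans ?_)
    rw [Circle.norm_coe]; norm_num
  have hc := cnt_one_le R d
  have hN : (0 : ℝ) < N d := by exact_mod_cast h.N_pos d
  have h3 : (1 : ℝ) ≤ ((d : ℝ) + 1) ^ 2 := by
    have : (0 : ℝ) ≤ d := by positivity
    nlinarith
  have h4 : (2 : ℝ) ^ (d + 4) ≤ ((d : ℝ) + 1) ^ 2 * 2 ^ (d + 4) * cnt R d := by
    calc (2 : ℝ) ^ (d + 4) = 1 * 2 ^ (d + 4) * 1 := by ring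
      _ ≤ _ := by gcongr
  have h5 : (N d : ℝ) * σ d ≤ N d * 2 := by gcongr
  have h6 : ((d : ℝ) + 1) ^ 2 * 2 ^ (d + 4) * cnt R d ≤ N d * σ d := h1
  have h7 : (2 : ℝ) ^ (d + 4) = 2 ^ (d + 3) * 2 := by ring
  linarith

theorem tendsto_N (h : Adm R s ζ N σ) : Tendsto (fun d => (N d : ℝ)) atTop atTop := by
  apply tendsto_atTop_mono' atTop (f₁ := fun d : ℕ => (2 : ℝ) ^ (d + 3))
  · filter_upwards [eventually_ge_atTop 1] with d hd using N_ge h hd
  · exact (tendsto_pow_atTop_atTop_of_one_lt (by norm_num)).comp (tendsto_add_atTop_nat 3)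

theorem N_zeta (h : Adm R s ζ N σ) (d : ℕ) :
    N d * ‖((ζ d : Circle) : ℂ) - 1‖ ≤ (2 : ℝ)⁻¹ ^ d * s d := by
  refine le_trans ?_ (h.ζ_small d)
  have : (0 : ℝ) ≤ ((d : ℝ) + 1) * R d := by positivity
  have h0 : 0 ≤ ‖((ζ d : Circle) : ℂ) - 1‖ * N d := by positivity
  nlinarith

theorem N_R_zeta (h : Adm R s ζ N σ) (d : ℕ) :
    N d * (((d : ℝ) + 1) * R d * ‖((ζ d : Circle) : ℂ) - 1‖) ≤ (2 : ℝ)⁻¹ ^ d * s d := by
  refine le_trans ?_ (h.ζ_small d)
  have h0 : 0 ≤ ‖((ζ d : Circle) : ℂ) - 1‖ * N d := by positivity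
  nlinarith

theorem sigma_succ_le (h : Adm R s ζ N σ) (d : ℕ) : σ (d + 1) ≤ ‖((ζ d : Circle) : ℂ) - 1‖ := by
  have h2 := h.sep (d + 1) (fun i => if i = d then 1 else 0) ⟨d, Nat.lt_succ_self d, by simp⟩ (by
    intro i hi
    have hR := h.R_pos i
    have : (1 : ℤ) ≤ (((d + 1 + 1) ^ 2 * R i : ℕ) : ℤ) := by
      have : 1 ≤ (d + 1 + 1) ^ 2 * R i := Nat.mul_pos (by positivity) hR
      exact_mod_cast this
    split_ifs with hi
    · simpa using this
    · rw [abs_zero]; positivity)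
  have : lam ζ (d + 1) (fun i => if i = d then 1 else 0) = ζ d := by
    rw [lam_succ]
    have : lam ζ d (fun i => if i = d then 1 else 0) = 1 := by
      rw [← lam_zero ζ d]
      apply lam_congr
      intro i hi
      simp [hi.ne]
    rw [this]; simp
  rwa [this] at h2

end

end Pool.Agent.TH296.NC
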