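import Pool.Agent.TH296.NC.Approx

set_option autoImplicit false

/-!
# MP_fc4783_an: many good shifts
-/

open Filter Topology Finset
open scoped ComplexConjugate

namespace Pool.Agent.TH296.NC

theorem norm_zpow_sub_zpow (w : Circle) (m m' : ℤ) :
    ‖((w ^ (m - m') : Circle) : ℂ) - 1‖ = ‖((w ^ m : Circle) : ℂ) - ((w ^ m' : Circle) : ℂ)‖ := by
  have e : ((w ^ m : Circle) : ℂ) - ((w ^ m' : Circle) : ℂ) =
      (((w ^ (m - m') : Circle) : ℂ) - 1) * ((w ^ m' : Circle) : ℂ) := by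
    rw [sub_mul, one_mul, ← Circle.coe_mul, ← zpow_add, sub_add_cancel]
  rw [e, norm_mul, Circle.norm_coe, mul_one]

theorem norm_sub_le_one (x y : Circle) :
    ‖(x : ℂ) - (y : ℂ)‖ ≤ ‖(x : ℂ) - 1‖ + ‖(y : ℂ) - 1‖ := by
  have e : (x : ℂ) - (y : ℂ) = ((x : ℂ) - 1) - ((y : ℂ) - 1) := by ring
  rw [e]; exact norm_sub_le _ _

theorem norm_inv_sub_one (x : Circle) : ‖((x⁻¹ : Circle) : ℂ) - 1‖ = ‖(x : ℂ) - 1‖ := by
  have h := norm_zpow_sub_zpow x 0 1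
  simp only [zero_sub, zpow_neg, zpow_one, zpow_zero, Circle.coe_one] at h
  rw [h, norm_sub_rev]

section

variable {R : ℕ → ℕ} {s : ℕ → ℝ} {ζ : ℕ → Circle} {N : ℕ → ℕ} {σ : ℕ → ℝ}

theorem lemX (h : Adm R s ζ N σ) {k : ℕ} (θ : Fin k → Circle) (r : ℝ) (hr : 0 < r) (v : ℤ → Circle)
    (hadd : ∀ m m' : ℤ, Near θ r m → Near θ r m' → v (m + m') = v m * v m')
    (hcont : ∀ ε' : ℝ, 0 < ε' → ∃ δ : ℝ, 0 < δ ∧ ∀ m : ℤ, Near θ δ m → ‖((v m : Circle) : ℂ) - 1‖ < ε')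
    (hnt : ∀ δ : ℝ, 0 < δ → ∃ m : ℤ, Near θ δ m ∧ v m ≠ 1) (J : ℕ) (ε : ℝ) (hε : 0 < ε) :
    ∃ m : Fin J → ℤ, (∀ j, Near θ r (m j)) ∧
      (∀ j i, ‖((ζ i ^ m j : Circle) : ℂ) - 1‖ ≤ ε * s i) ∧ Function.Injective fun j => v (m j) := by
  obtain ⟨i₁, hi₁⟩ := approx h k (fun j => if hj : j < k then θ ⟨j, hj⟩ else 1)
  have hi₁' : ∀ (m₀ : ℤ) (δ ε : ℝ), 0 < δ → 0 < ε → ∃ m : ℤ,
      (∀ i, i₁ ≤ i → ‖((ζ i ^ m : Circle) : ℂ) - 1‖ ≤ ε * s i) ∧
      (∀ j : Fin k, ‖((θ j ^ m : Circle) : ℂ) - ((θ j ^ m₀ : Circle) : ℂ)‖ ≤ δ) := by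
    intro m₀ δ ε hδ hε
    obtain ⟨m, hm1, hm2⟩ := hi₁ m₀ δ ε hδ hε
    refine ⟨m, hm1, fun j => ?_⟩
    have := hm2 j j.2
    simpa [j.2] using this
  clear hi₁
  -- nontrivial values close to one
  have step2 : ∀ η : ℝ, 0 < η → ∃ m : ℤ, (Near θ (r / 2) m ∧
      (∀ i, i₁ ≤ i → ‖((ζ i ^ m : Circle) : ℂ) - 1‖ ≤ (ε / 2) * s i) ∧ v m ≠ 1) ∧
      ‖((v m : Circle) : ℂ) - 1‖ < η := by
    intro η hη
    obtain ⟨δ₁, hδ₁, h1⟩ := hcont (η / 2) (by positivity)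
    obtain ⟨m₀, hm₀, hv₀⟩ := hnt (min δ₁ (r / 4)) (lt_min hδ₁ (by positivity))
    have hm₀1 : Near θ δ₁ m₀ := fun j => (hm₀ j).trans_le (min_le_left _ _)
    have hm₀2 : Near θ (r / 4) m₀ := fun j => (hm₀ j).trans_le (min_le_right _ _)
    have hτ : 0 < ‖((v m₀ : Circle) : ℂ) - 1‖ := by
      rw [norm_pos_iff, sub_ne_zero]
      intro hh
      exact hv₀ (Circle.coe_injective (by rw [hh, Circle.coe_one]))
    obtain ⟨δ₂, hδ₂, h2⟩ := hcont (min ‖((v m₀ : Circle) : ℂ) - 1‖ (η / 2)) (lt_min hτ (by positivity))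
    obtain ⟨m, hm1, hm2⟩ := hi₁' m₀ (min δ₂ (r / 4) / 2) (ε / 2) (by positivity) (by positivity)
    have hlt : min δ₂ (r / 4) / 2 < min δ₂ (r / 4) := by
      have : 0 < min δ₂ (r / 4) := lt_min hδ₂ (by positivity)
      linarith
    have hd : ∀ j, ‖((θ j ^ (m - m₀) : Circle) : ℂ) - 1‖ < min δ₂ (r / 4) := by
      intro j
      rw [norm_zpow_sub_zpow]
      exact (hm2 j).trans_lt hlt
    have hd1 : Near θ δ₂ (m - m₀) := fun j => (hd j).trans_le (min_le_left _ _)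
    have hd2 : Near θ (r / 4) (m - m₀) := fun j => (hd j).trans_le (min_le_right _ _)
    have hvm : v m = v m₀ * v (m - m₀) := by
      have := hadd m₀ (m - m₀) (fun j => (hm₀2 j).trans (by linarith))
        (fun j => (hd2 j).trans (by linarith))
      rwa [add_sub_cancel] at this
    have h3 := h2 _ hd1
    refine ⟨m, ⟨fun j => ?_, hm1, ?_⟩, ?_⟩
    · have e := norm_mul_sub (θ j ^ m) (θ j ^ (-m₀))
      have e1 : ((θ j ^ m : Circle) : ℂ) - 1 = (((θ j ^ m : Circle) : ℂ) - ((θ j ^ m₀ : Circle) : ℂ)) +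
        (((θ j ^ m₀ : Circle) : ℂ) - 1) := by ring
      rw [e1]
      refine (norm_add_le _ _).trans_lt ?_
      have e2 := hd2 j
      rw [norm_zpow_sub_zpow] at e2
      have e3 := hm₀2 j
      linarith
    · intro hv1
      rw [hvm] at hv1
      have e1 : v (m - m₀) = (v m₀)⁻¹ := (inv_eq_of_mul_eq_one_right hv1).symm
      rw [e1, norm_inv_sub_one] at h3
      exact absurd (h3.trans_le (min_le_left _ _)) (lt_irrefl _)
    · rw [hvm]
      have e1 : ((v m₀ * v (m - m₀) : Circle) : ℂ) - 1 =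
          (v m₀ : ℂ) * ((v (m - m₀) : ℂ) - 1) + ((v m₀ : ℂ) - 1) := by
        rw [Circle.coe_mul]; ring
      rw [e1]
      refine (norm_add_le _ _).trans_lt ?_
      rw [norm_mul, Circle.norm_coe, one_mul]
      have e2 := h3.trans_le (min_le_right _ _)
      have e3 := h1 _ hm₀1
      linarith
  -- a sequence with distinct values
  let Good : ℤ → Prop := fun m => Near θ (r / 2) m ∧
      (∀ i, i₁ ≤ i → ‖((ζ i ^ m : Circle) : ℂ) - 1‖ ≤ (ε / 2) * s i) ∧ v m ≠ 1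
  have hpos : ∀ m : {m : ℤ // Good m}, 0 < ‖((v m.1 : Circle) : ℂ) - 1‖ := by
    intro m
    rw [norm_pos_iff, sub_ne_zero]
    intro hh
    exact m.2.2.2 (Circle.coe_injective (by rw [hh, Circle.coe_one]))
  have hnext : ∀ m : {m : ℤ // Good m}, ∃ m' : {m : ℤ // Good m},
      ‖((v m'.1 : Circle) : ℂ) - 1‖ < ‖((v m.1 : Circle) : ℂ) - 1‖ := by
    intro m
    obtain ⟨m', hm', hlt⟩ := step2 _ (hpos m)
    exact ⟨⟨m', hm'⟩, hlt⟩
  choose nx hnx using hnext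
  obtain ⟨m₀, hm₀, -⟩ := step2 1 one_pos
  let sq : ℕ → {m : ℤ // Good m} := fun n => Nat.rec ⟨m₀, hm₀⟩ (fun _ x => nx x) n
  have hsq : ∀ n, sq (n + 1) = nx (sq n) := fun n => rfl
  have hanti : StrictAnti (fun n => ‖((v (sq n).1 : Circle) : ℂ) - 1‖) := by
    apply strictAnti_nat_of_succ_lt
    intro n
    rw [hsq]
    exact hnx _
  have hinj : Function.Injective (fun n => v (sq n).1) := by
    intro a b hab
    apply hanti.injective
    simp only at hab ⊢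
    rw [hab]
  -- convergent subsequence
  obtain ⟨x, φ, hφ, hlim⟩ := CompactSpace.tendsto_subseq
    (fun n : ℕ => (fun i : Fin i₁ => ζ i ^ (sq n).1 : Fin i₁ → Circle))
  obtain ⟨ρ, hρ0, hρ⟩ : ∃ ρ : ℝ, 0 < ρ ∧ ∀ i < i₁, ρ ≤ ε * s i := by
    clear * - h hε
    induction i₁ with
    | zero => exact ⟨1, one_pos, fun i hi => absurd hi (Nat.not_lt_zero i)⟩
    | succ n ih =>
      obtain ⟨ρ, hρ0, hρ⟩ := ih
      have := h.s_pos n
      refine ⟨min ρ (ε * s n), lt_min hρ0 (by positivity), fun i hi => ?_⟩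
      rcases Nat.lt_succ_iff_lt_or_eq.mp hi with h1 | rfl
      · exact (min_le_left _ _).trans (hρ i h1)
      · exact min_le_right _ _
  rw [Metric.tendsto_atTop] at hlim
  obtain ⟨n₀, hn₀⟩ := hlim (ρ / 2) (by positivity)
  have hclose : ∀ a b, n₀ ≤ a → n₀ ≤ b → ∀ i < i₁,
      ‖((ζ i ^ ((sq (φ a)).1 - (sq (φ b)).1) : Circle) : ℂ) - 1‖ ≤ ρ := by
    intro a b ha hb i hi
    rw [norm_zpow_sub_zpow]
    have h1 := (dist_le_pi_dist _ _ (⟨i, hi⟩ : Fin i₁)).trans_lt (hn₀ a ha)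
    have h2 := (dist_le_pi_dist _ _ (⟨i, hi⟩ : Fin i₁)).trans_lt (hn₀ b hb)
    have h3 : dist (ζ i ^ (sq (φ a)).1) (ζ i ^ (sq (φ b)).1) ≤ ρ := by
      refine (dist_triangle_right _ _ (x ⟨i, hi⟩)).trans ?_
      simp only [Function.comp_apply] at h1 h2
      linarith
    have h4 : dist (ζ i ^ (sq (φ a)).1) (ζ i ^ (sq (φ b)).1) =
        ‖((ζ i ^ (sq (φ a)).1 : Circle) : ℂ) - ((ζ i ^ (sq (φ b)).1 : Circle) : ℂ)‖ := by
      rw [← dist_eq_norm]; rfl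
    rw [← h4]; exact h3
  have hnear : ∀ a b, Near θ r ((sq (φ a)).1 - (sq (φ b)).1) := by
    intro a b j
    rw [norm_zpow_sub_zpow]
    have h1 := (sq (φ a)).2.1 j
    have h2 := (sq (φ b)).2.1 j
    have h3 := norm_sub_le_one (θ j ^ (sq (φ a)).1) (θ j ^ (sq (φ b)).1)
    linarith
  refine ⟨fun j => (sq (φ (n₀ + 1 + j))).1 - (sq (φ n₀)).1, fun j => hnear _ _, fun j i => ?_, ?_⟩
  · by_cases hi : i < i₁
    · exact (hclose _ _ (by omega) le_rfl i hi).trans (hρ i hi)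
    · push Not at hi
      rw [norm_zpow_sub_zpow]
      have h1 := (sq (φ (n₀ + 1 + j))).2.2.1 i hi
      have h2 := (sq (φ n₀)).2.2.1 i hi
      have h3 := norm_sub_le_one (ζ i ^ (sq (φ (n₀ + 1 + j))).1) (ζ i ^ (sq (φ n₀)).1)
      linarith
  · intro j j' hjj
    simp only at hjj
    have e : ∀ j : Fin J, v (sq (φ (n₀ + 1 + j))).1 =
        v ((sq (φ (n₀ + 1 + j))).1 - (sq (φ n₀)).1) * v (sq (φ n₀)).1 := by
      intro j
      have := hadd ((sq (φ (n₀ + 1 + j))).1 - (sq (φ n₀)).1) (sq (φ n₀)).1 (hnear _ _)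
        (fun i => ((sq (φ n₀)).2.1 i).trans (by linarith))
      rwa [sub_add_cancel] at this
    have h1 : v (sq (φ (n₀ + 1 + j))).1 = v (sq (φ (n₀ + 1 + j'))).1 := by
      rw [e j, e j', hjj]
    have h2 := hφ.injective (hinj h1)
    exact Fin.ext (by omega)

end

end Pool.Agent.TH296.NC
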