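import Pool.Agent.TH296.NC.Good
import Pool.Agent.TH286.NC.M4a
import Pool.Agent.TH617.NC.Flat
import Pool.Agent.TH617.NC.Osc

set_option autoImplicit false

/-!
# MP_fc4783_an: nilsequences of step two are good
-/

open Filter Topology Finset
open scoped ComplexConjugate commutatorElement

namespace Pool.Agent.TH296.NC

section

variable {G : Type*} [Group G] [TopologicalSpace G] [IsTopologicalGroup G] [T2Space G]
  [LocallyCompactSpace G] (Γ : Subgroup G) [DiscreteTopology Γ] [CompactSpace (G ⧸ Γ)]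

theorem IsEig.const_mul {Γ : Subgroup G} {χ : G → Circle} {F : G ⧸ Γ → ℂ} (h : IsEig Γ χ F)
    (c : ℂ) : IsEig Γ χ (fun x => c * F x) := by
  refine ⟨h.cont_χ, h.mul_χ, h.triv, continuous_const.mul h.cont_F, fun g k hk => ?_⟩
  rw [h.eqv g k hk]; ring

theorem GG_eig (𝔭 : Par) (hcomm : ∀ x y : G, ⁅x, y⁆ ∈ Subgroup.center G) {χ : G → Circle}
    {F : G ⧸ Γ → ℂ} (hE : IsEig Γ χ F) (b : G) : 𝔭.GG (fun m : ℤ => F ((b ^ m : G) : G ⧸ Γ)) := by
  by_cases hb : Flat Γ χ b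
  · exact Par.GG_of_AP (Pool.Agent.TH617.NC.isAP_of_flat Γ hcomm χ F hE b hb)
  · -- scale to norm at most one
    obtain ⟨M, hM⟩ : ∃ M : ℝ, ∀ x, ‖F x‖ ≤ M := by
      obtain ⟨M, hM⟩ := (isCompact_univ (X := G ⧸ Γ)).exists_bound_of_continuousOn
        hE.cont_F.continuousOn
      exact ⟨M, fun x => hM x (Set.mem_univ x)⟩
    set c : ℂ := ((1 / (|M| + 1) : ℝ) : ℂ) with hc
    have hMpos : (0 : ℝ) < |M| + 1 := by positivity
    have hE' := hE.const_mul c
    have hosc := Pool.Agent.TH617.NC.oscData_of_not_flat Γ hcomm χ _ hE' b hb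
    have hg : 𝔭.GG (fun m : ℤ => c * F ((b ^ m : G) : G ⧸ Γ)) := by
      apply Par.GG_of_osc _ hosc
      intro n
      rw [norm_mul, hc, Complex.norm_real, Real.norm_of_nonneg (by positivity),
        div_mul_eq_mul_div, one_mul, div_le_one hMpos]
      have := hM ((b ^ n : G) : G ⧸ Γ)
      have := le_abs_self M
      linarith
    have h2 := hg.const_mul ((|M| + 1 : ℝ) : ℂ)
    have e : (fun m : ℤ => ((|M| + 1 : ℝ) : ℂ) * (c * F ((b ^ m : G) : G ⧸ Γ))) =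
        fun m : ℤ => F ((b ^ m : G) : G ⧸ Γ) := by
      funext m
      rw [hc, ← mul_assoc, ← Complex.ofReal_mul]
      have : (|M| + 1) * (1 / (|M| + 1)) = 1 := by field_simp
      rw [this, Complex.ofReal_one, one_mul]
    rwa [e] at h2

theorem GG_base (𝔭 : Par) (hcomm : ∀ x y : G, ⁅x, y⁆ ∈ Subgroup.center G)
    {F : G ⧸ Γ → ℂ} (hF : Continuous F) (b : G) : 𝔭.GG (fun m : ℤ => F ((b ^ m : G) : G ⧸ Γ)) := by
  apply Par.GG.approx
  intro ε hε
  obtain ⟨n, χ, f, hf, happ⟩ := Pool.Agent.TH286.NC.eig_dense Γ hcomm F hF ε hε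
  exact ⟨fun m => ∑ i, f i ((b ^ m : G) : G ⧸ Γ),
    Par.GG.sum univ fun i _ => GG_eig Γ 𝔭 hcomm (hf i) b, fun m => happ _⟩

/-- every basic nilsequence of step at most two is good -/
theorem GG_nil (𝔭 : Par) (hcomm : ∀ x y : G, ⁅x, y⁆ ∈ Subgroup.center G)
    {F : G ⧸ Γ → ℂ} (hF : Continuous F) (b : G) (y : G ⧸ Γ) :
    𝔭.GG (fun m : ℤ => F (b ^ m • y)) := by
  obtain ⟨g, rfl⟩ := QuotientGroup.mk_surjective y
  have h := GG_base Γ 𝔭 hcomm (F := fun x => F (g • x))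
    (hF.comp (continuous_const_smul g)) (g⁻¹ * b * g)
  have e : (fun m : ℤ => F (g • (((g⁻¹ * b * g) ^ m : G) : G ⧸ Γ))) =
      fun m : ℤ => F (b ^ m • (g : G ⧸ Γ)) := by
    funext m
    have h1 : (g⁻¹ * b * g) ^ m = g⁻¹ * b ^ m * g := by
      have := conj_zpow (i := m) (a := g⁻¹) (b := b)
      simpa using this
    rw [h1]
    have h2 : g • ((g⁻¹ * b ^ m * g : G) : G ⧸ Γ) = b ^ m • (g : G ⧸ Γ) := by
      change ((g * (g⁻¹ * b ^ m * g) : G) : G ⧸ Γ) = ((b ^ m * g : G) : G ⧸ Γ)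
      congr 1; group
    rw [h2]
  rwa [e] at h

end

end Pool.Agent.TH296.NC
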