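import Pool.Agent.TH296.NC.Decorr
import Pool.Agent.TH511.J154
import Pool.Agent.TH830.J161

set_option autoImplicit false

/-!
# MP_fc4783_an: choice of all parameters
-/

open Filter Topology Finset
open scoped ComplexConjugate

namespace Pool.Agent.TH296.NC

/-- orders of the Fejer kernels -/
@[irreducible] def BB (i : ℕ) : ℕ := 4 ^ (i + 10)

theorem BB_one_le (i : ℕ) : 1 ≤ BB i := by
  unfold BB
  exact Nat.one_le_pow _ _ (by norm_num)

theorem BB_eq (i : ℕ) : (BB i : ℝ) = (2 ^ (i + 10)) ^ 2 := by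
  unfold BB; push_cast
  rw [← pow_mul, mul_comm, pow_mul]; norm_num

/-- the errors -/
noncomputable def er (i : ℕ) : ℝ := (1 / 40) * (2 : ℝ)⁻¹ ^ (i + 4)

theorem er_pos (i : ℕ) : 0 < er i := by unfold er; positivity

theorem er_le (i : ℕ) : er i ≤ 1 / 40 := by
  unfold er
  have : (2 : ℝ)⁻¹ ^ (i + 4) ≤ 1 := pow_le_one₀ (by norm_num) (by norm_num)
  linarith

/-- All parameters of the construction. -/
structure Par where
  a : ℕ → ℝ
  E : ℕ → ℕ
  cq : ℕ → ℤ → ℂ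
  cp : ℕ → ℤ → ℂ
  cr : ℕ → ℤ → ℂ
  R : ℕ → ℕ
  s : ℕ → ℝ
  α : ℕ → ℝ
  N : ℕ → ℕ
  σ : ℕ → ℝ
  hq : ∀ i z, ‖tp (E i) (cq i) z‖ ≤ 1
  hclose : ∀ i (x : ℝ), |x| ≤ 1 / 2 → ‖tp (E i) (cq i) (Circle.exp (2 * Real.pi * x)) -
    Complex.exp (4 * Real.pi * Complex.I * (a i) * x ^ 2)‖ ≤ er i
  hp : ∀ i (z : Circle), tp (E i) (cp i) z = fej (BB i) z * tp (E i) (cq i) z
  hp_le : ∀ i (b : ℤ), ‖cp i b‖ ≤ 4 / 5
  hr : ∀ i (z : Circle), tp (E i) (cr i) z = fej (BB i) z * tp (E i) (cq i) z ^ 2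
  hr0 : ∀ i, ‖cr i 0‖ ≤ 1 / 5
  hr1 : ∀ i (b : ℤ), ‖cr i b‖ ≤ 1
  hE : ∀ i, E i ≤ R i
  hB : ∀ i, BB i ≤ R i
  hs1 : ∀ i, (∑ b ∈ Icc (-(E i : ℤ)) (E i), |(b : ℝ)| * ‖cp i b‖) * s i ≤ (2 : ℝ)⁻¹ ^ i
  hs2 : ∀ i, (∑ b ∈ Icc (-((BB i - 1 : ℕ) : ℤ)) ((BB i - 1 : ℕ) : ℤ), |(b : ℝ)| * ‖fc (BB i) b‖) *
    s i ≤ (2 : ℝ)⁻¹ ^ i
  ha : ∀ i, |a i| * s i ≤ 1
  hα : ∀ i, 0 < α i ∧ α i < 1 / 4
  adm : Adm R s (fun i => Circle.exp (2 * Real.pi * α i)) N σ

/-- truncation of the coefficients -/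
noncomputable def trunc (E : ℕ) (c : ℤ → ℂ) (b : ℤ) : ℂ := if |b| ≤ (E : ℤ) then c b else 0

theorem tp_trunc (E : ℕ) (c : ℤ → ℂ) (z : Circle) : tp E (trunc E c) z = tp E c z := by
  unfold tp trunc
  refine sum_congr rfl fun b hb => ?_
  rw [mem_Icc, ← abs_le] at hb
  rw [if_pos hb]

theorem trunc_zero (E : ℕ) (c : ℤ → ℂ) : trunc E c 0 = c 0 := by
  unfold trunc
  rw [if_pos (by simp)]

open Pool.Agent.TH830.J161 in
theorem coef_le_one {B : ℕ} (hB : 1 ≤ B) (E : ℕ) (c : ℤ → ℂ)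
    (h : ∀ z : Circle, ‖tp E c z‖ ≤ fej B z) {b : ℤ} (hb : b ∈ Icc (-(E : ℤ)) (E : ℤ)) :
    ‖c b‖ ≤ 1 := by
  rw [← coef E c hb]
  have h1 : ‖∫ x in (-(1 / 2 : ℝ))..(1 / 2), tp E c (ex x) *
      Complex.exp (-(2 * Real.pi * Complex.I * b * x))‖ ≤
      ∫ x in (-(1 / 2 : ℝ))..(1 / 2), ‖tp E c (ex x) *
        Complex.exp (-(2 * Real.pi * Complex.I * b * x))‖ :=
    intervalIntegral.norm_integral_le_integral_norm (by norm_num)
  refine h1.trans ?_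
  refine le_trans ?_ (integral_hh hB).le
  apply intervalIntegral.integral_mono_on (by norm_num)
  · apply Continuous.intervalIntegrable
    have := (continuous_tp E c).comp continuous_ex
    fun_prop
  · exact (continuous_hh B).intervalIntegrable _ _
  · intro x _
    have e : ‖Complex.exp (-(2 * Real.pi * Complex.I * b * x))‖ = 1 := by
      have : (-(2 * Real.pi * Complex.I * b * x) : ℂ) = ((-(2 * Real.pi * b * x) : ℝ) : ℂ) *
          Complex.I := by push_cast; ring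
      rw [this, Complex.norm_exp_ofReal_mul_I]
    rw [norm_mul, e, mul_one]
    exact h _

theorem trunc_le_one {B : ℕ} (hB : 1 ≤ B) (E : ℕ) (c : ℤ → ℂ)
    (h : ∀ z : Circle, ‖tp E c z‖ ≤ fej B z) (b : ℤ) : ‖trunc E c b‖ ≤ 1 := by
  unfold trunc
  split_ifs with hb
  · exact coef_le_one hB E c h (by rw [mem_Icc, ← abs_le]; exact hb)
  · simp

theorem nonempty_par : Nonempty Par := by
  have key := fun i => Pool.Agent.TH830.J161.exists_phase (BB i) (BB_one_le i) (er i) (er_pos i)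
    (er_le i)
  choose a E cq cp cr h1 h2 h3 h4 h5 h6 using key
  set S1 : ℕ → ℝ := fun i => ∑ b ∈ Icc (-(E i : ℤ)) (E i), |(b : ℝ)| * ‖cp i b‖ with hS1
  set S2 : ℕ → ℝ := fun i => ∑ b ∈ Icc (-((BB i - 1 : ℕ) : ℤ)) ((BB i - 1 : ℕ) : ℤ),
    |(b : ℝ)| * ‖fc (BB i) b‖ with hS2
  have hS1' : ∀ i, 0 ≤ S1 i := fun i => sum_nonneg fun _ _ => by positivity
  have hS2' : ∀ i, 0 ≤ S2 i := fun i => sum_nonneg fun _ _ => by positivity
  set T : ℕ → ℝ := fun i => 1 + |a i| + S1 i + S2 i with hT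
  have hT1 : ∀ i, 1 ≤ T i := fun i => by
    have := hS1' i; have := hS2' i; have := abs_nonneg (a i); simp only [hT]; linarith
  set s : ℕ → ℝ := fun i => (2 : ℝ)⁻¹ ^ i / T i with hs
  have hspos : ∀ i, 0 < s i := fun i => by
    have := hT1 i
    have : 0 < T i := by linarith
    simp only [hs]; positivity
  have hpow : ∀ i : ℕ, (2 : ℝ)⁻¹ ^ i ≤ 1 := fun i => pow_le_one₀ (by norm_num) (by norm_num)
  have hsle : ∀ i, s i ≤ 1 := fun i => by
    have hTi := hT1 i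
    simp only [hs]
    rw [div_le_one (by linarith)]
    exact (hpow i).trans hTi
  have hmulle : ∀ i (x : ℝ), 0 ≤ x → x ≤ T i → x * s i ≤ (2 : ℝ)⁻¹ ^ i := by
    intro i x hx0 hx
    have hTi : 0 < T i := by linarith [hT1 i]
    simp only [hs]
    rw [mul_div_assoc', div_le_iff₀ hTi, mul_comm]
    gcongr
  set R : ℕ → ℕ := fun i => E i + BB i + Nat.ceil ((2 : ℝ) ^ i / s i ^ 2) with hR
  obtain ⟨α, N, σ, hα, hadm⟩ := Pool.Agent.TH511.J154.exists_adm R s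
    (fun i => by have := BB_one_le i; simp only [hR]; omega) hspos hsle (by
      intro i
      have hsi := hspos i
      have e1 : (2 : ℝ) ^ i / s i ^ 2 ≤ R i := by
        refine (Nat.le_ceil _).trans ?_
        have : Nat.ceil ((2 : ℝ) ^ i / s i ^ 2) ≤ R i := Nat.le_add_left _ _
        exact Nat.cast_le.mpr this
      have hsi2 : 0 < s i ^ 2 := pow_pos hsi 2
      exact (div_le_iff₀ hsi2).mp e1)
  have hr1 : ∀ i b, ‖trunc (E i) (cr i) b‖ ≤ 1 := by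
    intro i b
    apply trunc_le_one (BB_one_le i)
    intro z
    rw [h5, norm_mul, norm_pow, Complex.norm_real, Real.norm_of_nonneg (fej_nonneg _ _)]
    have e1 : ‖tp (E i) (cq i) z‖ ^ 2 ≤ 1 := pow_le_one₀ (norm_nonneg _) (h1 i z)
    calc _ ≤ fej (BB i) z * 1 := by
          apply mul_le_mul_of_nonneg_left e1 (fej_nonneg _ _)
      _ = _ := mul_one _
  have hr0 : ∀ i, ‖trunc (E i) (cr i) 0‖ ≤ 1 / 5 := fun i => by rw [trunc_zero]; exact h6 i
  have hrr : ∀ i (z : Circle), tp (E i) (trunc (E i) (cr i)) z =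
      fej (BB i) z * tp (E i) (cq i) z ^ 2 := fun i z => by rw [tp_trunc]; exact h5 i z
  have hER : ∀ i, E i ≤ R i := fun i => by simp only [hR]; omega
  have hBR : ∀ i, BB i ≤ R i := fun i => by simp only [hR]; omega
  refine ⟨⟨a, E, cq, cp, fun i => trunc (E i) (cr i), R, s, α, N, σ,
    h1, h2, h3, h4, hrr, hr0, hr1, hER, hBR, ?_, ?_, ?_, hα, hadm⟩⟩
  · intro i
    exact hmulle i (S1 i) (hS1' i) (by
      have := hS2' i; have := abs_nonneg (a i); simp only [hT]; linarith)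
  · intro i
    exact hmulle i (S2 i) (hS2' i) (by
      have := hS1' i; have := abs_nonneg (a i); simp only [hT]; linarith)
  · intro i
    exact (hmulle i |a i| (abs_nonneg _) (by
      have := hS1' i; have := hS2' i; simp only [hT]; linarith)).trans (hpow i)

end Pool.Agent.TH296.NC
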