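import Pool.Agent.TH296.NC.Good

set_option autoImplicit false

/-!
# MP_fc4783_an: the correlation sequence of the skew product along the weights
-/

open Filter Topology Finset
open scoped ComplexConjugate

namespace Pool.Agent.TH296.NC

/-- distance to the nearest integer -/
noncomputable def nrm (x : ℝ) : ℝ := ‖((x : ℝ) : AddCircle (1 : ℝ))‖

theorem nrm_eq (x : ℝ) : nrm x = |x - round x| := by
  unfold nrm
  rw [AddCircle.norm_eq]; simp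

theorem nrm_nonneg (x : ℝ) : 0 ≤ nrm x := norm_nonneg _

theorem abs_sub_round_le (x : ℝ) : |x - round x| ≤ 1 / 2 := abs_sub_round x

theorem nrm_le_half (x : ℝ) : nrm x ≤ 1 / 2 := by rw [nrm_eq]; exact abs_sub_round x

theorem exp_sub_round (x : ℝ) : Circle.exp (2 * Real.pi * (x - round x)) =
    Circle.exp (2 * Real.pi * x) := by
  have e : 2 * Real.pi * (x - round x) = 2 * Real.pi * x - (round x : ℤ) * (2 * Real.pi) := by ring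
  rw [e, Circle.exp_sub]
  have : Circle.exp ((round x : ℤ) * (2 * Real.pi)) = 1 := by
    rw [Circle.exp_int_mul_two_pi]
  rw [this, div_one]

theorem four_nrm_le (x : ℝ) : 4 * nrm x ≤ ‖((Circle.exp (2 * Real.pi * x) : Circle) : ℂ) - 1‖ := by
  rw [← exp_sub_round]
  set t := x - round x with ht
  have ht2 : |t| ≤ 1 / 2 := abs_sub_round x
  have h1 : ((Circle.exp (2 * Real.pi * t) : Circle) : ℂ) - 1 =
      Complex.exp (Complex.I * (2 * Real.pi * t : ℝ)) - 1 := by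
    rw [Circle.coe_exp, mul_comm]
  rw [h1, Complex.norm_exp_I_mul_ofReal_sub_one]
  have h2 : |Real.pi * t| ≤ Real.pi / 2 := by
    rw [abs_mul, abs_of_pos Real.pi_pos]
    nlinarith [Real.pi_pos]
  have h3 := Real.mul_abs_le_abs_sin h2
  have h4 : 2 * Real.pi * t / 2 = Real.pi * t := by ring
  rw [h4, norm_mul, Real.norm_eq_abs, Real.norm_eq_abs, nrm_eq, ← ht, abs_of_pos (by norm_num : (0:ℝ) < 2)]
  have h5 : 2 / Real.pi * |Real.pi * t| = 2 * |t| := by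
    rw [abs_mul, abs_of_pos Real.pi_pos]
    field_simp
  rw [h5] at h3
  linarith

theorem exp_phase_sub_le (x y : ℝ) :
    ‖Complex.exp (4 * Real.pi * Complex.I * (x : ℂ)) - Complex.exp (4 * Real.pi * Complex.I * (y : ℂ))‖ ≤
      4 * Real.pi * |x - y| := by
  have e : Complex.exp (4 * Real.pi * Complex.I * (x : ℂ)) -
      Complex.exp (4 * Real.pi * Complex.I * (y : ℂ)) =
      Complex.exp (4 * Real.pi * Complex.I * (y : ℂ)) *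
        (Complex.exp (Complex.I * ((4 * Real.pi * (x - y) : ℝ) : ℂ)) - 1) := by
    rw [mul_sub, ← Complex.exp_add, mul_one]
    congr 2
    push_cast; ring
  rw [e, norm_mul]
  have h1 : ‖Complex.exp (4 * Real.pi * Complex.I * (y : ℂ))‖ = 1 := by
    have : (4 * Real.pi * Complex.I * (y : ℂ)) = ((4 * Real.pi * y : ℝ) : ℂ) * Complex.I := by
      push_cast; ring
    rw [this, Complex.norm_exp_ofReal_mul_I]
  rw [h1, one_mul]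
  refine Real.norm_exp_I_mul_ofReal_sub_one_le.trans ?_
  rw [Real.norm_eq_abs, abs_mul, abs_of_pos (by positivity : (0:ℝ) < 4 * Real.pi)]

theorem norm_phase (y : ℝ) : ‖Complex.exp (4 * Real.pi * Complex.I * (y : ℂ))‖ = 1 := by
  have : (4 * Real.pi * Complex.I * (y : ℂ)) = ((4 * Real.pi * y : ℝ) : ℂ) * Complex.I := by
    push_cast; ring
  rw [this, Complex.norm_exp_ofReal_mul_I]

/-- difference of products of numbers of modulus at most one -/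
theorem prod_sub_prod_le {ι : Type*} (S : Finset ι) (x y : ι → ℂ) (e : ι → ℝ)
    (hx : ∀ i ∈ S, ‖x i‖ ≤ 1) (hy : ∀ i ∈ S, ‖y i‖ ≤ 1) (h : ∀ i ∈ S, ‖x i - y i‖ ≤ e i) :
    ‖∏ i ∈ S, x i - ∏ i ∈ S, y i‖ ≤ ∑ i ∈ S, e i := by
  classical
  induction S using Finset.induction_on with
  | empty => simp
  | insert a S ha ih =>
    rw [prod_insert ha, prod_insert ha, sum_insert ha]
    have e1 : x a * ∏ i ∈ S, x i - y a * ∏ i ∈ S, y i =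
        (x a - y a) * ∏ i ∈ S, x i + y a * (∏ i ∈ S, x i - ∏ i ∈ S, y i) := by ring
    rw [e1]
    refine (norm_add_le _ _).trans ?_
    rw [norm_mul, norm_mul]
    have h1 : ‖∏ i ∈ S, x i‖ ≤ 1 := by
      rw [norm_prod]
      exact prod_le_one (fun _ _ => norm_nonneg _) fun i hi => hx i (mem_insert_of_mem hi)
    have h2 := ih (fun i hi => hx i (mem_insert_of_mem hi)) (fun i hi => hy i (mem_insert_of_mem hi))
      (fun i hi => h i (mem_insert_of_mem hi))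
    have h3 := h a (mem_insert_self a S)
    have h4 := hy a (mem_insert_self a S)
    have h5 : ‖x a - y a‖ * ‖∏ i ∈ S, x i‖ ≤ e a * 1 :=
      mul_le_mul h3 h1 (norm_nonneg _) ((norm_nonneg _).trans h3)
    have h6 : ‖y a‖ * ‖∏ i ∈ S, x i - ∏ i ∈ S, y i‖ ≤ 1 * ∑ i ∈ S, e i :=
      mul_le_mul h4 h2 (norm_nonneg _) (by norm_num)
    linarith

namespace Par

variable (𝔭 : Par)

theorem zeta_zpow (i : ℕ) (n : ℤ) : 𝔭.ζ i ^ n = Circle.exp (2 * Real.pi * ((n : ℝ) * 𝔭.α i)) := by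
  unfold ζ
  have h2 : Circle.exp (n • (2 * Real.pi * 𝔭.α i)) = Circle.exp (2 * Real.pi * 𝔭.α i) ^ n :=
    Circle.exp_zsmul _ _
  rw [← h2]
  congr 1
  rw [zsmul_eq_mul]; ring

theorem nrm_le_zeta (i : ℕ) (n : ℤ) :
    4 * nrm ((n : ℝ) * 𝔭.α i) ≤ ‖((𝔭.ζ i ^ n : Circle) : ℂ) - 1‖ := by
  rw [zeta_zpow]; exact four_nrm_le _

theorem nrm_alpha (i : ℕ) : nrm (𝔭.α i) = 𝔭.α i := by
  have h := 𝔭.hα i
  rw [nrm_eq]
  have : round (𝔭.α i) = 0 := by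
    rw [round_eq_zero_iff]
    constructor <;> linarith
  rw [this]
  simp [abs_of_pos h.1]

theorem alpha_le (i : ℕ) : 𝔭.N i * 𝔭.α i ≤ (2 : ℝ)⁻¹ ^ i * 𝔭.s i / 4 := by
  have h1 := 𝔭.nrm_le_zeta i 1
  rw [Int.cast_one, one_mul, nrm_alpha, zpow_one] at h1
  have h2 := N_zeta 𝔭.adm' i
  have hN : (0 : ℝ) ≤ 𝔭.N i := by positivity
  nlinarith

theorem alpha_le' (i : ℕ) : 𝔭.α i ≤ (2 : ℝ)⁻¹ ^ i * 𝔭.s i / 4 := by
  have h1 := 𝔭.alpha_le i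
  have h2 : (1 : ℝ) ≤ 𝔭.N i := by exact_mod_cast 𝔭.adm.N_pos i
  have h3 := (𝔭.hα i).1
  nlinarith

theorem pow_s_le (i : ℕ) : (2 : ℝ)⁻¹ ^ i * 𝔭.s i ≤ (2 : ℝ)⁻¹ ^ i := by
  have h1 := 𝔭.adm.s_le i
  have h2 : (0 : ℝ) ≤ (2 : ℝ)⁻¹ ^ i := by positivity
  nlinarith

theorem summable_alpha : Summable 𝔭.α := by
  refine Summable.of_nonneg_of_le (fun i => (𝔭.hα i).1.le) (fun i => ?_)
    (summable_geometric_of_lt_one (r := (2 : ℝ)⁻¹) (by norm_num) (by norm_num))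
  have h1 := 𝔭.alpha_le' i
  have h2 := 𝔭.pow_s_le i
  have h3 : (0 : ℝ) ≤ (2 : ℝ)⁻¹ ^ i := by positivity
  linarith

theorem a_alpha_le (i : ℕ) : |𝔭.a i| * 𝔭.α i ≤ (2 : ℝ)⁻¹ ^ i / 4 := by
  have h1 := 𝔭.alpha_le' i
  have h2 := 𝔭.ha i
  have h3 : (0 : ℝ) ≤ (2 : ℝ)⁻¹ ^ i := by positivity
  calc |𝔭.a i| * 𝔭.α i ≤ |𝔭.a i| * ((2 : ℝ)⁻¹ ^ i * 𝔭.s i / 4) := by gcongr
    _ = (2 : ℝ)⁻¹ ^ i * (|𝔭.a i| * 𝔭.s i) / 4 := by ring
    _ ≤ (2 : ℝ)⁻¹ ^ i * 1 / 4 := by gcongr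
    _ = _ := by ring

theorem summable_a_alpha : Summable (fun i => |𝔭.a i| * 𝔭.α i) := by
  refine Summable.of_nonneg_of_le (fun i => mul_nonneg (abs_nonneg _) (𝔭.hα i).1.le) (fun i => ?_)
    (summable_geometric_of_lt_one (r := (2 : ℝ)⁻¹) (by norm_num) (by norm_num))
  have h1 := 𝔭.a_alpha_le i
  have h3 : (0 : ℝ) ≤ (2 : ℝ)⁻¹ ^ i := by positivity
  linarith

theorem nrm_le_mul (i : ℕ) (n : ℤ) : nrm ((n : ℝ) * 𝔭.α i) ≤ |(n : ℝ)| * 𝔭.α i := by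
  have h1 : nrm ((n : ℝ) * 𝔭.α i) ≤ |(n : ℝ)| * nrm (𝔭.α i) := by
    unfold nrm
    have e : (((n : ℝ) * 𝔭.α i : ℝ) : AddCircle (1 : ℝ)) = n • ((𝔭.α i : ℝ) : AddCircle (1 : ℝ)) := by
      rw [← AddCircle.coe_zsmul, zsmul_eq_mul]
    rw [e]
    have := norm_zsmul_le n ((𝔭.α i : ℝ) : AddCircle (1 : ℝ))
    rw [Int.norm_eq_abs] at this
    exact this
  rwa [nrm_alpha] at h1

theorem nrm_le_tail {k i : ℕ} (hi : k ≤ i) {n : ℤ} (hn : |n| < 𝔭.N k) :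
    nrm ((n : ℝ) * 𝔭.α i) ≤ (2 : ℝ)⁻¹ ^ i * 𝔭.s i / 4 := by
  have h1 := 𝔭.nrm_le_mul i n
  have h2 : |(n : ℝ)| ≤ 𝔭.N i := by
    have e1 : |(n : ℝ)| ≤ 𝔭.N k := by exact_mod_cast hn.le
    have e2 : (𝔭.N k : ℝ) ≤ 𝔭.N i := by exact_mod_cast 𝔭.adm.N_mono hi
    linarith
  have h3 := 𝔭.alpha_le i
  have h4 := (𝔭.hα i).1
  calc _ ≤ |(n : ℝ)| * 𝔭.α i := h1
    _ ≤ 𝔭.N i * 𝔭.α i := by gcongr
    _ ≤ _ := h3

theorem summable_nrm (n : ℤ) : Summable (fun i => nrm ((n : ℝ) * 𝔭.α i)) :=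
  Summable.of_nonneg_of_le (fun i => nrm_nonneg _) (fun i => 𝔭.nrm_le_mul i n)
    (𝔭.summable_alpha.mul_left _)

theorem summable_a_nrm (n : ℤ) : Summable (fun i => 𝔭.a i * nrm ((n : ℝ) * 𝔭.α i) ^ 2) := by
  refine Summable.of_norm_bounded (𝔭.summable_a_alpha.mul_left |(n : ℝ)|) (fun i => ?_)
  rw [norm_mul, Real.norm_eq_abs, norm_pow, Real.norm_of_nonneg (nrm_nonneg _)]
  have h1 := 𝔭.nrm_le_mul i n
  have h2 := nrm_le_half ((n : ℝ) * 𝔭.α i)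
  have h3 := nrm_nonneg ((n : ℝ) * 𝔭.α i)
  calc |𝔭.a i| * nrm ((n : ℝ) * 𝔭.α i) ^ 2 ≤ |𝔭.a i| * (|(n : ℝ)| * 𝔭.α i) := by
        gcongr
        nlinarith
    _ = _ := by ring

theorem tail_sum (k : ℕ) : ∑' i : ℕ, (2 : ℝ)⁻¹ ^ (i + k) = 2 * (2 : ℝ)⁻¹ ^ k := by
  have : (fun i : ℕ => (2 : ℝ)⁻¹ ^ (i + k)) = fun i : ℕ => (2 : ℝ)⁻¹ ^ i * (2 : ℝ)⁻¹ ^ k := by
    funext i; rw [pow_add]
  rw [this, tsum_mul_right, tsum_geometric_of_lt_one (by norm_num) (by norm_num)]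
  norm_num

theorem summable_tail (k : ℕ) : Summable (fun i : ℕ => (2 : ℝ)⁻¹ ^ (i + k)) :=
  (summable_nat_add_iff k).mpr
    (summable_geometric_of_lt_one (r := (2 : ℝ)⁻¹) (by norm_num) (by norm_num))

theorem tsum_nrm_le {k : ℕ} {n : ℤ} (hn : |n| < 𝔭.N k) :
    8 * ∑' i, nrm ((n : ℝ) * 𝔭.α i) ≤ 2 * ∑ i ∈ range k, ‖((𝔭.ζ i ^ n : Circle) : ℂ) - 1‖ +
      4 * (2 : ℝ)⁻¹ ^ k := by
  rw [← (𝔭.summable_nrm n).sum_add_tsum_nat_add k]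
  have h1 : ∑ i ∈ range k, nrm ((n : ℝ) * 𝔭.α i) ≤
      ∑ i ∈ range k, ‖((𝔭.ζ i ^ n : Circle) : ℂ) - 1‖ / 4 :=
    sum_le_sum fun i _ => by have := 𝔭.nrm_le_zeta i n; linarith
  rw [← sum_div] at h1
  have h2 : ∑' i, nrm ((n : ℝ) * 𝔭.α (i + k)) ≤ ∑' i : ℕ, (2 : ℝ)⁻¹ ^ (i + k) / 4 := by
    apply Summable.tsum_le_tsum
    · intro i
      have e1 := 𝔭.nrm_le_tail (Nat.le_add_left k i) hn
      have e2 := 𝔭.pow_s_le (i + k)
      linarith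
    · exact (summable_nat_add_iff k).mpr (𝔭.summable_nrm n)
    · exact (summable_tail k).div_const 4
  rw [tsum_div_const, tail_sum] at h2
  linarith

theorem tsum_phase_le {k : ℕ} {n : ℤ} (hn : |n| < 𝔭.N k) :
    ‖Complex.exp (4 * Real.pi * Complex.I *
        ((∑' i, 𝔭.a i * nrm ((n : ℝ) * 𝔭.α i) ^ 2 : ℝ) : ℂ)) -
      ∏ i ∈ range k, Complex.exp (4 * Real.pi * Complex.I *
        ((𝔭.a i * nrm ((n : ℝ) * 𝔭.α i) ^ 2 : ℝ) : ℂ))‖ ≤ 8 * (2 : ℝ)⁻¹ ^ k := by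
  have e1 : ∏ i ∈ range k, Complex.exp (4 * Real.pi * Complex.I *
        ((𝔭.a i * nrm ((n : ℝ) * 𝔭.α i) ^ 2 : ℝ) : ℂ)) = Complex.exp (4 * Real.pi * Complex.I *
        ((∑ i ∈ range k, 𝔭.a i * nrm ((n : ℝ) * 𝔭.α i) ^ 2 : ℝ) : ℂ)) := by
    rw [← Complex.exp_sum, ← mul_sum, Complex.ofReal_sum]
  rw [e1]
  refine (exp_phase_sub_le _ _).trans ?_
  rw [← (𝔭.summable_a_nrm n).sum_add_tsum_nat_add k, add_sub_cancel_left]
  have h2 : |∑' i, 𝔭.a (i + k) * nrm ((n : ℝ) * 𝔭.α (i + k)) ^ 2| ≤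
      ∑' i : ℕ, (2 : ℝ)⁻¹ ^ (i + k) / 8 := by
    rw [← Real.norm_eq_abs]
    apply tsum_of_norm_bounded ((summable_tail k).div_const 8).hasSum
    intro i
    rw [norm_mul, Real.norm_eq_abs, norm_pow, Real.norm_of_nonneg (nrm_nonneg _)]
    have a1 := 𝔭.nrm_le_tail (Nat.le_add_left k i) hn
    have a2 := nrm_le_half ((n : ℝ) * 𝔭.α (i + k))
    have a3 := nrm_nonneg ((n : ℝ) * 𝔭.α (i + k))
    have a4 := 𝔭.ha (i + k)
    have a5 : (0 : ℝ) ≤ (2 : ℝ)⁻¹ ^ (i + k) := by positivity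
    calc |𝔭.a (i + k)| * nrm ((n : ℝ) * 𝔭.α (i + k)) ^ 2 ≤
          |𝔭.a (i + k)| * ((1 / 2) * ((2 : ℝ)⁻¹ ^ (i + k) * 𝔭.s (i + k) / 4)) := by
          gcongr
          rw [sq]
          gcongr
      _ = (2 : ℝ)⁻¹ ^ (i + k) * (|𝔭.a (i + k)| * 𝔭.s (i + k)) / 8 := by ring
      _ ≤ (2 : ℝ)⁻¹ ^ (i + k) * 1 / 8 := by gcongr
      _ = _ := by ring
  rw [tsum_div_const, tail_sum] at h2
  have hpi : Real.pi ≤ 4 := Real.pi_le_four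
  have h0 : (0 : ℝ) ≤ (2 : ℝ)⁻¹ ^ k := by positivity
  calc 4 * Real.pi * |∑' i, 𝔭.a (i + k) * nrm ((n : ℝ) * 𝔭.α (i + k)) ^ 2| ≤
        4 * 4 * (2 * (2 : ℝ)⁻¹ ^ k / 8) := by gcongr
    _ ≤ _ := by linarith

/-- the phase -/
noncomputable def Θ (k : ℕ) (n : ℤ) : ℂ := ∏ i ∈ range k, tp (𝔭.E i) (𝔭.cq i) (𝔭.ζ i ^ n)

theorem norm_Θ_le (k : ℕ) (n : ℤ) : ‖𝔭.Θ k n‖ ≤ 1 := by
  unfold Θ
  rw [norm_prod]
  exact prod_le_one (fun _ _ => norm_nonneg _) fun i _ => 𝔭.hq i _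

theorem P_eq (k : ℕ) (n : ℤ) : 𝔭.P k n = 𝔭.W k n * 𝔭.Θ k n := by
  unfold P W WW Θ
  rw [Complex.ofReal_prod, ← prod_mul_distrib]
  exact prod_congr rfl fun i _ => 𝔭.hp i _

theorem phase_close (k : ℕ) (n : ℤ) :
    ‖∏ i ∈ range k, Complex.exp (4 * Real.pi * Complex.I *
        ((𝔭.a i * nrm ((n : ℝ) * 𝔭.α i) ^ 2 : ℝ) : ℂ)) - 𝔭.Θ k n‖ ≤ ∑ i ∈ range k, er i := by
  unfold Θ
  apply prod_sub_prod_le
  · intro i _; rw [norm_phase]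
  · intro i _; exact 𝔭.hq i _
  · intro i _
    set x : ℝ := (n : ℝ) * 𝔭.α i with hx
    have h1 := 𝔭.hclose i (x - round x) (abs_sub_round x)
    rw [exp_sub_round, ← 𝔭.zeta_zpow i n] at h1
    rw [norm_sub_rev]
    have e : Complex.exp (4 * Real.pi * Complex.I * (𝔭.a i) * ((x - round x : ℝ) : ℂ) ^ 2) =
        Complex.exp (4 * Real.pi * Complex.I * ((𝔭.a i * nrm x ^ 2 : ℝ) : ℂ)) := by
      congr 1
      rw [nrm_eq, sq_abs]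
      push_cast; ring
    rw [← e]
    exact h1

theorem sum_er (k : ℕ) : ∑ i ∈ range k, er i ≤ 1 / 320 := by
  have h1 : ∑ i ∈ range k, er i = (1 / 640) * ∑ i ∈ range k, (2 : ℝ)⁻¹ ^ i := by
    rw [mul_sum]
    refine sum_congr rfl fun i _ => ?_
    unfold er
    rw [pow_add]; norm_num; ring
  have h2 : ∑ i ∈ range k, (2 : ℝ)⁻¹ ^ i ≤ 2 := by
    have := Summable.sum_le_tsum (range k) (fun i _ => by positivity)
      (summable_geometric_of_lt_one (r := (2 : ℝ)⁻¹) (by norm_num) (by norm_num))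
    rw [tsum_geometric_of_lt_one (by norm_num) (by norm_num)] at this
    norm_num at this ⊢
    exact this
  rw [h1]; linarith

/-- concentration of the weights -/
theorem conc {k i : ℕ} (hk : 1 ≤ k) (hi : i < k) :
    AvR (𝔭.N k) (fun n => 𝔭.W k n * ‖((𝔭.ζ i ^ n : Circle) : ℂ) - 1‖) ≤ 4 * (2 : ℝ)⁻¹ ^ (i + 10) := by
  have h1 := AvR_cauchy (𝔭.N k) (𝔭.W k) (fun n => ‖((𝔭.ζ i ^ n : Circle) : ℂ) - 1‖) (𝔭.W_nonneg k)
  have h2 : AvR (𝔭.N k) (fun n => 𝔭.W k n * ‖((𝔭.ζ i ^ n : Circle) : ℂ) - 1‖ ^ 2) ≤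
      (4 / BB i) * 2 := by
    have hu := update_one_le BB_one_le i
    have e1 : AvR (𝔭.N k) (fun n => 𝔭.W k n * ‖((𝔭.ζ i ^ n : Circle) : ℂ) - 1‖ ^ 2) ≤
        AvR (𝔭.N k) (fun n => (4 / BB i) * WW 𝔭.ζ (Function.update BB i 1) k n) := by
      apply AvR_mono'
      intro n
      have h3 := WW_update 𝔭.ζ BB hi n
      have h4 := fej_conc (BB_one_le i) (𝔭.ζ i ^ n)
      have h5 := WW_nonneg 𝔭.ζ (Function.update BB i 1) k n
      unfold W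
      rw [h3]
      calc _ = (fej (BB i) (𝔭.ζ i ^ n) * ‖((𝔭.ζ i ^ n : Circle) : ℂ) - 1‖ ^ 2) *
            WW 𝔭.ζ (Function.update BB i 1) k n := by ring
        _ ≤ _ := by gcongr
    rw [AvR_const_mul] at e1
    have e2 := AvR_WW_le_two 𝔭.adm' hu.1 (q := 1) (fun j => (hu.2 j).trans (𝔭.BB_le j)) hk
    have e3 : (0 : ℝ) ≤ 4 / BB i := by positivity
    have e4 : AvR (𝔭.N k) (fun n => WW 𝔭.ζ (Function.update BB i 1) k n) =
      AvR (𝔭.N k) (WW 𝔭.ζ (Function.update BB i 1) k) := rfl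
    rw [e4] at e1
    nlinarith
  have h3 := 𝔭.mass k hk
  have h4 : 0 ≤ AvR (𝔭.N k) (fun n => 𝔭.W k n * ‖((𝔭.ζ i ^ n : Circle) : ℂ) - 1‖ ^ 2) :=
    AvR_nonneg fun n => mul_nonneg (𝔭.W_nonneg k n) (by positivity)
  have h5 : AvR (𝔭.N k) (𝔭.W k) *
      AvR (𝔭.N k) (fun n => 𝔭.W k n * ‖((𝔭.ζ i ^ n : Circle) : ℂ) - 1‖ ^ 2) ≤ 2 * ((4 / BB i) * 2) :=
    mul_le_mul h3 h2 h4 (by norm_num)
  have h6 : (2 : ℝ) * ((4 / BB i) * 2) = (4 * (2 : ℝ)⁻¹ ^ (i + 10)) ^ 2 := by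
    rw [BB_eq, mul_pow, inv_pow, inv_pow]
    field_simp
    ring
  rw [h6] at h5
  exact (abs_le_of_sq_le_sq' (h1.trans h5) (by positivity)).2

/-- the signed weights -/
noncomputable def ww (k : ℕ) (n : ℤ) : ℝ := 𝔭.W k n + (-1) ^ k * (𝔭.P k n).re

theorem ww_nonneg (k : ℕ) (n : ℤ) : 0 ≤ 𝔭.ww k n := by
  unfold ww
  have h1 := 𝔭.P_le k n
  have h2 := Complex.abs_re_le_norm (𝔭.P k n)
  have h3 : |(-1 : ℝ) ^ k * (𝔭.P k n).re| ≤ 𝔭.W k n := by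
    rw [abs_mul, abs_pow, abs_neg, abs_one, one_pow, one_mul]; linarith
  have := (abs_le.mp h3).1
  linarith

theorem ww_le (k : ℕ) (n : ℤ) : 𝔭.ww k n ≤ 2 * 𝔭.W k n := by
  unfold ww
  have h1 := 𝔭.P_le k n
  have h2 := Complex.abs_re_le_norm (𝔭.P k n)
  have h3 : |(-1 : ℝ) ^ k * (𝔭.P k n).re| ≤ 𝔭.W k n := by
    rw [abs_mul, abs_pow, abs_neg, abs_one, one_pow, one_mul]; linarith
  have := (abs_le.mp h3).2
  linarith

theorem ww_complex (k : ℕ) (n : ℤ) :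
    (𝔭.ww k n : ℂ) = 𝔭.W k n + (-1) ^ k / 2 * (𝔭.P k n + conj (𝔭.P k n)) := by
  unfold ww
  rw [Complex.add_conj]
  push_cast; ring

/-- averages against the signed weights, for good sequences -/
theorem ww_tendsto {Ψ : ℤ → ℂ} (h : 𝔭.GG Ψ) :
    ∃ L, Tendsto (fun k => Av (𝔭.N k) (fun n => (𝔭.ww k n : ℂ) * Ψ n)) atTop (𝓝 L) := by
  obtain ⟨⟨L, hL⟩, h1, h2⟩ := h
  unfold Lm at hL h1 h2
  refine ⟨L, ?_⟩
  have e : ∀ k, Av (𝔭.N k) (fun n => (𝔭.ww k n : ℂ) * Ψ n) =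
      Av (𝔭.N k) (fun n => (𝔭.W k n : ℂ) * Ψ n) + ((-1) ^ k / 2) *
        (Av (𝔭.N k) (fun n => 𝔭.P k n * Ψ n) + Av (𝔭.N k) (fun n => conj (𝔭.P k n) * Ψ n)) := by
    intro k
    rw [← Av_add, ← Av_const_mul, ← Av_add]
    congr 1; funext n
    rw [ww_complex]; ring
  simp only [e]
  have h3 : Tendsto (fun k => ((-1) ^ k / 2) *
        (Av (𝔭.N k) (fun n => 𝔭.P k n * Ψ n) + Av (𝔭.N k) (fun n => conj (𝔭.P k n) * Ψ n)))
        atTop (𝓝 0) := by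
    have h4 := h1.add h2
    rw [add_zero] at h4
    apply squeeze_zero_norm _ (tendsto_zero_iff_norm_tendsto_zero.mp h4)
    intro k
    rw [norm_mul]
    have : ‖((-1 : ℂ)) ^ k / 2‖ ≤ 1 := by
      rw [norm_div, norm_pow, norm_neg, norm_one, one_pow]; norm_num
    have h0 := norm_nonneg (Av (𝔭.N k) (fun n => 𝔭.P k n * Ψ n) +
      Av (𝔭.N k) (fun n => conj (𝔭.P k n) * Ψ n))
    nlinarith
  have := hL.add h3
  rw [add_zero] at this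
  exact this

/-- lower bound for the correlation sequence of the skew product along the signed weights -/
theorem estimate {C : ℤ → ℂ}
    (hC : ∀ n : ℤ, ‖C n - Complex.exp (4 * Real.pi * Complex.I *
      ((∑' i, 𝔭.a i * nrm ((n : ℝ) * 𝔭.α i) ^ 2 : ℝ) : ℂ))‖ ≤ 8 * ∑' i, nrm ((n : ℝ) * 𝔭.α i)) :
    ∀ᶠ k : ℕ in atTop, 1 / 4 ≤ ((-1) ^ k * Av (𝔭.N k) (fun n => (𝔭.ww k n : ℂ) * C n)).re := by
  -- limits
  have l1 : Tendsto (fun k : ℕ => (2 : ℝ)⁻¹ ^ k) atTop (𝓝 0) :=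
    tendsto_pow_atTop_nhds_zero_of_lt_one (by norm_num) (by norm_num)
  have l2 : Tendsto (fun k => ‖Av (𝔭.N k) (𝔭.P k)‖) atTop (𝓝 0) := by
    have h := 𝔭.char_P 1
    unfold Lm at h
    have e : ∀ d, Av (𝔭.N d) (fun n => 𝔭.P d n * (((1 : Circle) ^ n : Circle) : ℂ)) =
        Av (𝔭.N d) (𝔭.P d) := by
      intro d; congr 1; funext n; rw [one_zpow, Circle.coe_one, mul_one]
    simp only [e] at h
    exact tendsto_zero_iff_norm_tendsto_zero.mp h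
  have l3 : Tendsto (fun k => ‖Av (𝔭.N k) (fun n => ∏ i ∈ range k,
      tp (𝔭.E i) (𝔭.cr i) (𝔭.ζ i ^ n))‖) atTop (𝓝 0) := by
    have hlim : Tendsto (fun d : ℕ => ((1 / 5 : ℝ)) ^ d + (4 : ℝ)⁻¹ ^ (d + 1)) atTop (𝓝 0) := by
      have h1 : Tendsto (fun d : ℕ => (1 / 5 : ℝ) ^ d) atTop (𝓝 0) :=
        tendsto_pow_atTop_nhds_zero_of_lt_one (by norm_num) (by norm_num)
      simpa using h1.add tendsto_four
    apply squeeze_zero' (Eventually.of_forall fun _ => norm_nonneg _) _ hlim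
    filter_upwards [eventually_ge_atTop 1] with d hd
    have h1 := mass_tp 𝔭.adm' (q := 1) hd 𝔭.E_le (c := 𝔭.cr) 𝔭.hr1
    have h2 : ‖∏ i ∈ range d, 𝔭.cr i 0‖ ≤ (1 / 5 : ℝ) ^ d := by
      rw [norm_prod]
      calc _ ≤ ∏ i ∈ range d, (1 / 5 : ℝ) :=
            Finset.prod_le_prod (fun _ _ => norm_nonneg _) fun i _ => 𝔭.hr0 i
        _ = _ := by simp
    have h3 := norm_le_norm_add_norm_sub (∏ i ∈ range d, 𝔭.cr i 0)
      (Av (𝔭.N d) (fun n => ∏ i ∈ range d, tp (𝔭.E i) (𝔭.cr i) (𝔭.ζ i ^ n)))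
    rw [norm_sub_rev] at h3
    linarith
  have l4 : Tendsto (fun k => AvR (𝔭.N k) (𝔭.W k)) atTop (𝓝 1) := by
    have h := MM_one_tendsto 𝔭.adm' BB_one_le 𝔭.BB_le
    refine h.congr fun d => ?_
    exact (AvR_WW_eq 𝔭.ζ 𝔭.N BB_one_le d).symm
  have e1 := l1.eventually_lt_const (show (0 : ℝ) < 1 / 4800 by norm_num)
  have e2 := l2.eventually_lt_const (show (0 : ℝ) < 1 / 100 by norm_num)
  have e3 := l3.eventually_lt_const (show (0 : ℝ) < 1 / 100 by norm_num)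
  have e4 := l4.eventually_const_lt (show (99 / 100 : ℝ) < 1 by norm_num)
  filter_upwards [e1, e2, e3, e4, eventually_ge_atTop 1] with k e1 e2 e3 e4 hk
  -- the difference between `C` and `Θ`
  set δ : ℝ := 12 * (2 : ℝ)⁻¹ ^ k + 1 / 320 with hδ
  have hδ1 : δ ≤ 1 / 160 := by rw [hδ]; linarith
  have hδ0 : 0 ≤ δ := by rw [hδ]; positivity
  have hCΘ : ∀ n : ℤ, |n| < 𝔭.N k → ‖C n - 𝔭.Θ k n‖ ≤
      2 * ∑ i ∈ range k, ‖((𝔭.ζ i ^ n : Circle) : ℂ) - 1‖ + δ := by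
    intro n hn
    have a1 := hC n
    have a2 := 𝔭.tsum_nrm_le hn
    have a3 := 𝔭.tsum_phase_le hn
    have a4 := 𝔭.phase_close k n
    have a5 := sum_er k
    have b1 : ‖C n - 𝔭.Θ k n‖ ≤ ‖C n - Complex.exp (4 * Real.pi * Complex.I *
      ((∑' i, 𝔭.a i * nrm ((n : ℝ) * 𝔭.α i) ^ 2 : ℝ) : ℂ))‖ +
      ‖Complex.exp (4 * Real.pi * Complex.I *
        ((∑' i, 𝔭.a i * nrm ((n : ℝ) * 𝔭.α i) ^ 2 : ℝ) : ℂ)) -
      ∏ i ∈ range k, Complex.exp (4 * Real.pi * Complex.I *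
        ((𝔭.a i * nrm ((n : ℝ) * 𝔭.α i) ^ 2 : ℝ) : ℂ))‖ +
      ‖∏ i ∈ range k, Complex.exp (4 * Real.pi * Complex.I *
        ((𝔭.a i * nrm ((n : ℝ) * 𝔭.α i) ^ 2 : ℝ) : ℂ)) - 𝔭.Θ k n‖ := by
      refine (norm_sub_le_norm_sub_add_norm_sub _ (∏ i ∈ range k, Complex.exp (4 * Real.pi *
        Complex.I * ((𝔭.a i * nrm ((n : ℝ) * 𝔭.α i) ^ 2 : ℝ) : ℂ))) _).trans ?_
      gcongr
      exact norm_sub_le_norm_sub_add_norm_sub _ _ _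
    rw [hδ]
    linarith
  -- replace `C` by `Θ`
  have hrep : ‖Av (𝔭.N k) (fun n => (𝔭.ww k n : ℂ) * C n) -
      Av (𝔭.N k) (fun n => (𝔭.ww k n : ℂ) * 𝔭.Θ k n)‖ ≤ 1 / 16 := by
    rw [← Av_sub]
    have a1 : ‖Av (𝔭.N k) (fun n => (𝔭.ww k n : ℂ) * C n - (𝔭.ww k n : ℂ) * 𝔭.Θ k n)‖ ≤
        AvR (𝔭.N k) (fun n => 4 * ∑ i ∈ range k, 𝔭.W k n * ‖((𝔭.ζ i ^ n : Circle) : ℂ) - 1‖ +
          2 * δ * 𝔭.W k n) := by
      apply norm_Av_le_of_le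
      intro n hn
      rw [← mul_sub, norm_mul, Complex.norm_real, Real.norm_of_nonneg (𝔭.ww_nonneg k n)]
      have b1 := hCΘ n hn
      have b2 := 𝔭.ww_le k n
      have b3 := 𝔭.W_nonneg k n
      calc 𝔭.ww k n * ‖C n - 𝔭.Θ k n‖ ≤ (2 * 𝔭.W k n) *
            (2 * ∑ i ∈ range k, ‖((𝔭.ζ i ^ n : Circle) : ℂ) - 1‖ + δ) :=
            mul_le_mul b2 b1 (norm_nonneg _) (by linarith)
        _ = _ := by rw [← mul_sum]; ring
    refine a1.trans ?_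
    rw [AvR_add, AvR_const_mul, AvR_sum, AvR_const_mul]
    have a2 : ∑ i ∈ range k, AvR (𝔭.N k) (fun n => 𝔭.W k n * ‖((𝔭.ζ i ^ n : Circle) : ℂ) - 1‖) ≤
        ∑ i ∈ range k, 4 * (2 : ℝ)⁻¹ ^ (i + 10) :=
      sum_le_sum fun i hi => 𝔭.conc hk (mem_range.mp hi)
    have a3 : ∑ i ∈ range k, 4 * (2 : ℝ)⁻¹ ^ (i + 10) ≤ 1 / 128 := by
      have h1 : ∑ i ∈ range k, 4 * (2 : ℝ)⁻¹ ^ (i + 10) = (1 / 256) * ∑ i ∈ range k, (2 : ℝ)⁻¹ ^ i := by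
        rw [mul_sum]
        refine sum_congr rfl fun i _ => ?_
        rw [pow_add]; norm_num; ring
      have h2 : ∑ i ∈ range k, (2 : ℝ)⁻¹ ^ i ≤ 2 := by
        have := Summable.sum_le_tsum (range k) (fun i _ => by positivity)
          (summable_geometric_of_lt_one (r := (2 : ℝ)⁻¹) (by norm_num) (by norm_num))
        rw [tsum_geometric_of_lt_one (by norm_num) (by norm_num)] at this
        norm_num at this ⊢
        exact this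
      rw [h1]; linarith
    have a4 := 𝔭.mass k hk
    have a5 : AvR (𝔭.N k) (fun n => 𝔭.W k n) = AvR (𝔭.N k) (𝔭.W k) := rfl
    rw [a5]
    have a6 : 2 * δ * AvR (𝔭.N k) (𝔭.W k) ≤ 2 * δ * 2 := by gcongr
    linarith
  -- the main term
  have hmain : Av (𝔭.N k) (fun n => (𝔭.ww k n : ℂ) * 𝔭.Θ k n) = Av (𝔭.N k) (𝔭.P k) +
      ((-1) ^ k / 2) * (Av (𝔭.N k) (fun n => ∏ i ∈ range k, tp (𝔭.E i) (𝔭.cr i) (𝔭.ζ i ^ n)) +
        (AvR (𝔭.N k) (fun n => 𝔭.W k n * ‖𝔭.Θ k n‖ ^ 2) : ℂ)) := by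
    rw [← Av_ofReal, ← Av_add, ← Av_const_mul, ← Av_add]
    congr 1; funext n
    have b1 : ∏ i ∈ range k, tp (𝔭.E i) (𝔭.cr i) (𝔭.ζ i ^ n) = 𝔭.W k n * 𝔭.Θ k n ^ 2 := by
      unfold W WW Θ
      rw [Complex.ofReal_prod, ← prod_pow, ← prod_mul_distrib]
      exact prod_congr rfl fun i _ => 𝔭.hr i _
    rw [b1, ww_complex, P_eq, map_mul, Complex.conj_ofReal, Complex.ofReal_mul, Complex.ofReal_pow,
      ← Complex.mul_conj']
    ring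
  have hmod : 98 / 100 ≤ AvR (𝔭.N k) (fun n => 𝔭.W k n * ‖𝔭.Θ k n‖ ^ 2) := by
    have b1 : AvR (𝔭.N k) (fun n => (159 / 160) * 𝔭.W k n) ≤
        AvR (𝔭.N k) (fun n => 𝔭.W k n * ‖𝔭.Θ k n‖ ^ 2) := by
      apply AvR_mono'
      intro n
      have c1 := 𝔭.phase_close k n
      have c2 := sum_er k
      have c3 : ‖∏ i ∈ range k, Complex.exp (4 * Real.pi * Complex.I *
        ((𝔭.a i * nrm ((n : ℝ) * 𝔭.α i) ^ 2 : ℝ) : ℂ))‖ = 1 := by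
        rw [norm_prod]
        exact prod_eq_one fun i _ => norm_phase _
      have c4 := norm_sub_norm_le (∏ i ∈ range k, Complex.exp (4 * Real.pi * Complex.I *
        ((𝔭.a i * nrm ((n : ℝ) * 𝔭.α i) ^ 2 : ℝ) : ℂ))) (𝔭.Θ k n)
      rw [c3] at c4
      have c5 : 319 / 320 ≤ ‖𝔭.Θ k n‖ := by linarith
      have c6 : 159 / 160 ≤ ‖𝔭.Θ k n‖ ^ 2 := by nlinarith
      have c7 := 𝔭.W_nonneg k n
      nlinarith
    rw [AvR_const_mul] at b1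
    have b2 : AvR (𝔭.N k) (fun n => 𝔭.W k n) = AvR (𝔭.N k) (𝔭.W k) := rfl
    rw [b2] at b1
    linarith
  -- conclusion
  set X := Av (𝔭.N k) (fun n => (𝔭.ww k n : ℂ) * C n) with hX
  set Y := Av (𝔭.N k) (fun n => (𝔭.ww k n : ℂ) * 𝔭.Θ k n) with hY
  set Z := Av (𝔭.N k) (fun n => ∏ i ∈ range k, tp (𝔭.E i) (𝔭.cr i) (𝔭.ζ i ^ n)) with hZ
  set m := AvR (𝔭.N k) (fun n => 𝔭.W k n * ‖𝔭.Θ k n‖ ^ 2) with hm
  have hsq : ((-1 : ℂ)) ^ k * (-1) ^ k = 1 := by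
    rw [← mul_pow]; norm_num
  have f1 : (-1) ^ k * X = (m : ℂ) / 2 + ((-1) ^ k * (X - Y) + (-1) ^ k * Av (𝔭.N k) (𝔭.P k) +
      Z / 2) := by
    have : (-1) ^ k * Y = (-1) ^ k * Av (𝔭.N k) (𝔭.P k) + (Z + m) / 2 := by
      rw [hmain]
      linear_combination (Z + m) / 2 * hsq
    linear_combination this
  rw [f1, Complex.add_re]
  have f2 : ((m : ℂ) / 2).re = m / 2 := by
    have : (m : ℂ) / 2 = ((m / 2 : ℝ) : ℂ) := by push_cast; ring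
    rw [this, Complex.ofReal_re]
  rw [f2]
  have f3 : ‖(-1) ^ k * (X - Y) + (-1) ^ k * Av (𝔭.N k) (𝔭.P k) + Z / 2‖ ≤
      1 / 16 + 1 / 100 + 1 / 200 := by
    refine (norm_add_le _ _).trans ?_
    have g1 : ‖(-1) ^ k * (X - Y) + (-1) ^ k * Av (𝔭.N k) (𝔭.P k)‖ ≤ 1 / 16 + 1 / 100 := by
      refine (norm_add_le _ _).trans ?_
      rw [norm_mul, norm_mul, norm_pow, norm_neg, norm_one, one_pow, one_mul, one_mul]
      linarith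
    have g2 : ‖Z / 2‖ ≤ 1 / 200 := by
      rw [norm_div]
      have : ‖(2 : ℂ)‖ = 2 := by norm_num
      rw [this]; linarith
    linarith
  have f4 := (abs_le.mp (Complex.abs_re_le_norm ((-1) ^ k * (X - Y) +
    (-1) ^ k * Av (𝔭.N k) (𝔭.P k) + Z / 2))).1
  linarith

end Par

end Pool.Agent.TH296.NC
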