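import Pool.Agent.TH296.NC.Haar
import Pool.Agent.TH296.NC.SysEst
import Pool.Agent.TH286.NC.S3
import Pool.Agent.TH286.NC.S4

set_option autoImplicit false

/-!
# MP_fc4783_an: Riemann integrable functions on orbit closures
-/

open Filter Topology Finset MeasureTheory
open scoped ComplexConjugate commutatorElement Manifold ContDiff

namespace Pool.Agent.TH296.NC

theorem t2_quotient {G : Type*} [Group G] [TopologicalSpace G] [IsTopologicalGroup G]
    (Γ : Subgroup G) (hΓ : IsClosed (Γ : Set G)) : T2Space (G ⧸ Γ) := by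
  have hq : IsOpenQuotientMap (QuotientGroup.mk : G → G ⧸ Γ) := QuotientGroup.isOpenQuotientMap_mk
  rw [t2Space_iff_of_isOpenQuotientMap hq]
  have : {q : G × G | (QuotientGroup.mk q.1 : G ⧸ Γ) = QuotientGroup.mk q.2} =
      (fun q : G × G => q.1⁻¹ * q.2) ⁻¹' (Γ : Set G) := by
    ext q
    simp only [Set.mem_setOf_eq, Set.mem_preimage, SetLike.mem_coe]
    exact QuotientGroup.eq
  rw [this]
  exact hΓ.preimage (by fun_prop)

/-- a sequence which is close to convergent ones converges -/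
theorem conv_of_approx {x : ℕ → ℂ} (h : ∀ ε : ℝ, 0 < ε → ∃ y : ℕ → ℂ, (∃ L, Tendsto y atTop (𝓝 L)) ∧
    ∀ᶠ k in atTop, ‖x k - y k‖ ≤ ε) : ∃ L, Tendsto x atTop (𝓝 L) := by
  have hc : CauchySeq x := by
    rw [Metric.cauchySeq_iff']
    intro ε hε
    obtain ⟨y, ⟨L, hL⟩, hxy⟩ := h (ε / 8) (by positivity)
    obtain ⟨n₁, hn₁⟩ := hxy.exists_forall_of_atTop
    obtain ⟨n₂, hn₂⟩ := (Metric.tendsto_atTop.mp hL) (ε / 8) (by positivity)
    refine ⟨max n₁ n₂, fun d hd => ?_⟩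
    have a1 := hn₁ d (le_trans (le_max_left _ _) hd)
    have a2 := hn₁ (max n₁ n₂) (le_max_left _ _)
    have a3 := hn₂ d (le_trans (le_max_right _ _) hd)
    have a4 := hn₂ (max n₁ n₂) (le_max_right _ _)
    rw [dist_eq_norm] at a3 a4
    rw [dist_eq_norm]
    have e : x d - x (max n₁ n₂) = (x d - y d) + (y d - L) - (y (max n₁ n₂) - L) -
      (x (max n₁ n₂) - y (max n₁ n₂)) := by ring
    rw [e]
    have b1 := norm_sub_le ((x d - y d) + (y d - L) - (y (max n₁ n₂) - L))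
      (x (max n₁ n₂) - y (max n₁ n₂))
    have b2 := norm_sub_le ((x d - y d) + (y d - L)) (y (max n₁ n₂) - L)
    have b3 := norm_add_le (x d - y d) (y d - L)
    linarith
  obtain ⟨L, hL⟩ := cauchySeq_tendsto_of_complete hc
  exact ⟨L, hL⟩

section

variable {E : Type*} [NormedAddCommGroup E] [NormedSpace ℝ E] [FiniteDimensional ℝ E]
  {G : Type*} [Group G] [TopologicalSpace G] [T2Space G] [ChartedSpace E G]
  [LieGroup 𝓘(ℝ, E) ∞ G] [IsTopologicalGroup G] [LocallyCompactSpace G]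
  (Γ : Subgroup G) [DiscreteTopology Γ] [CompactSpace (G ⧸ Γ)]

variable (E) in
include E in
/-- the limit functional -/
theorem exists_functional (𝔭 : Par) (hcomm : ∀ x y : G, ⁅x, y⁆ ∈ Subgroup.center G) (b : G)
    (y : G ⧸ Γ) : ∃ (i₀ : ℕ) (L : C(G ⧸ Γ, ℝ) →ₗ[ℝ] ℝ),
      (∀ φ : C(G ⧸ Γ, ℝ), Tendsto (fun d => AvR (𝔭.N d) (fun n => 𝔭.W' i₀ d n * φ (b ^ n • y)))
        atTop (𝓝 (L φ))) ∧
      (∀ φ : C(G ⧸ Γ, ℝ), L (φ.comp ⟨Homeomorph.smul b, (Homeomorph.smul b).continuous⟩) = L φ) := by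
  obtain ⟨i₀, hi₀⟩ := stepA E Γ 𝔭 hcomm b y
  have hex : ∀ φ : C(G ⧸ Γ, ℝ), ∃ l : ℝ,
      Tendsto (fun d => AvR (𝔭.N d) (fun n => 𝔭.W' i₀ d n * φ (b ^ n • y))) atTop (𝓝 l) := by
    intro φ
    obtain ⟨L, hL⟩ := (hi₀ (fun x => (φ x : ℂ)) (Complex.continuous_ofReal.comp φ.continuous)).1
    refine ⟨L.re, ?_⟩
    have h1 := (Complex.continuous_re.tendsto _).comp hL
    refine h1.congr fun d => ?_
    simp only [Function.comp_apply]
    have e : (fun n : ℤ => (𝔭.W' i₀ d n : ℂ) * ((φ (b ^ n • y) : ℝ) : ℂ)) =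
        fun n : ℤ => ((𝔭.W' i₀ d n * φ (b ^ n • y) : ℝ) : ℂ) := by
      funext n; rw [Complex.ofReal_mul]
    rw [e, Av_ofReal, Complex.ofReal_re]
  choose Lf hLf using hex
  refine ⟨i₀, ⟨⟨Lf, fun φ ψ => ?_⟩, fun c φ => ?_⟩, hLf, fun φ => ?_⟩
  · apply tendsto_nhds_unique (hLf (φ + ψ))
    refine ((hLf φ).add (hLf ψ)).congr fun d => ?_
    rw [← AvR_add]
    apply AvR_congr; intro n
    rw [ContinuousMap.add_apply]; ring
  · apply tendsto_nhds_unique (hLf (c • φ))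
    simp only [RingHom.id_apply, smul_eq_mul]
    refine ((hLf φ).const_mul c).congr fun d => ?_
    rw [← AvR_const_mul]
    apply AvR_congr; intro n
    rw [ContinuousMap.smul_apply, smul_eq_mul]; ring
  · have h2 := (hi₀ (fun x => (φ x : ℂ)) (Complex.continuous_ofReal.comp φ.continuous)).2
    have h3 : Tendsto (fun d => AvR (𝔭.N d) (fun n => 𝔭.W' i₀ d n * φ (b ^ (n + 1) • y)) -
        AvR (𝔭.N d) (fun n => 𝔭.W' i₀ d n * φ (b ^ n • y))) atTop (𝓝 0) := by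
      have h4 := (Complex.continuous_re.tendsto _).comp h2
      rw [Complex.zero_re] at h4
      refine h4.congr fun d => ?_
      simp only [Function.comp_apply]
      have e : (fun n : ℤ => (𝔭.W' i₀ d n : ℂ) * (((φ (b ^ (n + 1) • y) : ℝ) : ℂ) -
          ((φ (b ^ n • y) : ℝ) : ℂ))) =
          fun n : ℤ => ((𝔭.W' i₀ d n * φ (b ^ (n + 1) • y) - 𝔭.W' i₀ d n * φ (b ^ n • y) : ℝ) : ℂ) := by
        funext n; push_cast; ring
      rw [e, Av_ofReal, Complex.ofReal_re, AvR_sub]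
    have h5 : Tendsto (fun d => AvR (𝔭.N d) (fun n => 𝔭.W' i₀ d n * φ (b ^ (n + 1) • y))) atTop
        (𝓝 (Lf φ)) := by
      have := h3.add (hLf φ)
      simpa using this
    apply tendsto_nhds_unique (hLf _)
    refine h5.congr fun d => ?_
    apply AvR_congr; intro n
    have : b ^ (n + 1) • y = b • (b ^ n • y) := by
      rw [add_comm, zpow_add, zpow_one, mul_smul]
    rw [this]
    rfl

variable (E) in
include E in
/-- weighted averages of real Riemann integrable functions converge -/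
theorem stepC_real [SecondCountableTopology G] [MeasurableSpace (G ⧸ Γ)] [BorelSpace (G ⧸ Γ)]
    (𝔭 : Par) (hcomm : ∀ x y : G, ⁅x, y⁆ ∈ Subgroup.center G) (b : G) (y : G ⧸ Γ)
    (F : G ⧸ Γ → ℝ) (M : ℝ) (hM : ∀ x, |F x| ≤ M)
    (hF : ∀ ν : Measure (G ⧸ Γ), IsProbabilityMeasure ν →
      MeasurePreserving (fun x => b • x) ν ν →
      ν (closure (Set.range fun m : ℤ => b ^ m • y))ᶜ = 0 →
      ∀ᵐ x ∂ν, ContinuousWithinAt F (closure (Set.range fun m : ℤ => b ^ m • y)) x) :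
    ∃ L, Tendsto (fun k => Av (𝔭.N k) (fun n => (𝔭.ww k n : ℂ) * (F (b ^ n • y) : ℂ))) atTop
      (𝓝 L) := by
  have hΓ : IsClosed (Γ : Set G) := Subgroup.isClosed_of_discrete
  haveI : T2Space (G ⧸ Γ) := t2_quotient Γ hΓ
  set X : Set (G ⧸ Γ) := closure (Set.range fun m : ℤ => b ^ m • y) with hX
  obtain ⟨i₀, L, hL, hinv⟩ := exists_functional E Γ 𝔭 hcomm b y
  have hyX : ∀ n : ℤ, b ^ n • y ∈ X := fun n => subset_closure ⟨n, rfl⟩
  obtain ⟨ν, hprob, hmp, hsupp, hint⟩ := Pool.Agent.TH286.NC.exists_invariant_measure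
    (Homeomorph.smul b) X isClosed_closure L (by
      intro φ hφ
      apply ge_of_tendsto' (hL φ)
      intro d
      apply AvR_nonneg
      intro n
      exact mul_nonneg (𝔭.W'_nonneg _ _ _) (hφ _)) (by
      apply tendsto_nhds_unique (hL 1)
      have h1 := MM_one_tendsto 𝔭.adm' (B'_one_le i₀) (𝔭.B'_le i₀)
      refine h1.congr fun d => ?_
      rw [← AvR_WW_eq 𝔭.ζ 𝔭.N (B'_one_le i₀)]
      apply AvR_congr; intro n
      rw [ContinuousMap.one_apply, mul_one]; rfl) hinv (by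
      intro φ hφ
      apply tendsto_nhds_unique (hL φ)
      have : (fun d => AvR (𝔭.N d) (fun n => 𝔭.W' i₀ d n * φ (b ^ n • y))) = fun _ => 0 := by
        funext d
        have : (fun n => 𝔭.W' i₀ d n * φ (b ^ n • y)) = fun _ => 0 := by
          funext n; rw [hφ _ (hyX n), mul_zero]
        rw [this]; simp [AvR]
      rw [this]; exact tendsto_const_nhds)
  haveI := hprob
  have hae := hF ν hprob hmp hsupp
  obtain ⟨C, hC0, hC⟩ := 𝔭.W_le_W' i₀
  apply conv_of_approx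
  intro ε hε
  obtain ⟨φ₁, φ₂, hφ, hφint⟩ := Pool.Agent.TH286.NC.exists_sandwich X isClosed_closure ν hsupp F M hM
    hae (ε / (4 * C)) (by positivity)
  have hgood : 𝔭.GG (fun m : ℤ => (φ₁ (b ^ m • y) : ℂ)) :=
    GG_nil Γ 𝔭 hcomm (F := fun x => (φ₁ x : ℂ)) (Complex.continuous_ofReal.comp φ₁.continuous) b y
  refine ⟨_, 𝔭.ww_tendsto hgood, ?_⟩
  have hdiff : Tendsto (fun d => AvR (𝔭.N d) (fun n => 𝔭.W' i₀ d n *
      (φ₂ - φ₁) (b ^ n • y))) atTop (𝓝 (L (φ₂ - φ₁))) := hL _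
  have hLle : L (φ₂ - φ₁) ≤ ε / (4 * C) := by
    rw [hint]
    exact hφint
  have hlt : ε / (4 * C) < ε / (2 * C) := by
    apply div_lt_div_of_pos_left hε (by positivity)
    linarith
  filter_upwards [hdiff.eventually_lt_const (lt_of_le_of_lt hLle hlt), eventually_ge_atTop i₀]
    with k hk hki
  rw [← Av_sub]
  have h1 : ‖Av (𝔭.N k) (fun n => (𝔭.ww k n : ℂ) * (F (b ^ n • y) : ℂ) -
      (𝔭.ww k n : ℂ) * (φ₁ (b ^ n • y) : ℂ))‖ ≤
      AvR (𝔭.N k) (fun n => (2 * C) * (𝔭.W' i₀ k n * (φ₂ - φ₁) (b ^ n • y))) := by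
    apply norm_Av_le_of_le'
    intro n
    have a1 := hφ _ (hyX n)
    have a2 := 𝔭.ww_le k n
    have a3 := hC k hki n
    have a4 := 𝔭.W'_nonneg i₀ k n
    rw [← mul_sub, norm_mul, Complex.norm_real, Real.norm_of_nonneg (𝔭.ww_nonneg k n),
      ← Complex.ofReal_sub, Complex.norm_real, Real.norm_of_nonneg (by linarith)]
    have a5 : (φ₂ - φ₁) (b ^ n • y) = φ₂ (b ^ n • y) - φ₁ (b ^ n • y) := rfl
    rw [a5]
    calc 𝔭.ww k n * (F (b ^ n • y) - φ₁ (b ^ n • y)) ≤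
          (2 * (C * 𝔭.W' i₀ k n)) * (φ₂ (b ^ n • y) - φ₁ (b ^ n • y)) :=
          mul_le_mul (by linarith) (by linarith) (by linarith) (by positivity)
      _ = _ := by ring
  refine h1.trans ?_
  rw [AvR_const_mul]
  have h2 : (2 * C) * AvR (𝔭.N k) (fun n => 𝔭.W' i₀ k n * (φ₂ - φ₁) (b ^ n • y)) ≤
      (2 * C) * (ε / (2 * C)) := by gcongr
  refine h2.trans (le_of_eq ?_)
  field_simp

variable (E) in
include E in
/-- weighted averages of Riemann integrable functions converge -/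
theorem stepC [SecondCountableTopology G] [MeasurableSpace (G ⧸ Γ)] [BorelSpace (G ⧸ Γ)]
    (𝔭 : Par) (hcomm : ∀ x y : G, ⁅x, y⁆ ∈ Subgroup.center G) (b : G) (y : G ⧸ Γ)
    (F : G ⧸ Γ → ℂ) (M : ℝ) (hM : ∀ x, ‖F x‖ ≤ M)
    (hF : ∀ ν : Measure (G ⧸ Γ), IsProbabilityMeasure ν →
      MeasurePreserving (fun x => b • x) ν ν →
      ν (closure (Set.range fun m : ℤ => b ^ m • y))ᶜ = 0 →
      ∀ᵐ x ∂ν, ContinuousWithinAt F (closure (Set.range fun m : ℤ => b ^ m • y)) x) :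
    ∃ L, Tendsto (fun k => Av (𝔭.N k) (fun n => (𝔭.ww k n : ℂ) * F (b ^ n • y))) atTop
      (𝓝 L) := by
  obtain ⟨L₁, h₁⟩ := stepC_real E Γ 𝔭 hcomm b y (fun x => (F x).re) M
    (fun x => (Complex.abs_re_le_norm _).trans (hM x)) (fun ν h1 h2 h3 => by
      filter_upwards [hF ν h1 h2 h3] with x hx
      exact Complex.continuous_re.continuousAt.comp_continuousWithinAt hx)
  obtain ⟨L₂, h₂⟩ := stepC_real E Γ 𝔭 hcomm b y (fun x => (F x).im) M
    (fun x => (Complex.abs_im_le_norm _).trans (hM x)) (fun ν h1 h2 h3 => by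
      filter_upwards [hF ν h1 h2 h3] with x hx
      exact Complex.continuous_im.continuousAt.comp_continuousWithinAt hx)
  refine ⟨L₁ + Complex.I * L₂, ?_⟩
  have h3 := h₁.add (h₂.const_mul Complex.I)
  refine h3.congr fun k => ?_
  rw [← Av_const_mul, ← Av_add]
  congr 1; funext n
  have : F (b ^ n • y) = ((F (b ^ n • y)).re : ℂ) + ((F (b ^ n • y)).im : ℂ) * Complex.I :=
    (Complex.re_add_im _).symm
  conv_rhs => rw [this]
  ring

end

end Pool.Agent.TH296.NC
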